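import Pool.Agent.Run7.h981.EA.Saw

/-!
# Edwards–Anderson model: comparison of finite volumes and boundary conditions in mean
-/

set_option autoImplicit false

open MeasureTheory

namespace Pool.H981EA

open Pool.H47EA Pool.H47EA.Basic

variable {d : ℕ}

/-- the cube `{-n,…,n}^d` -/
noncomputable def box (d n : ℕ) : Finset (Site d) :=
  Finset.Icc (fun _ => -(n : ℤ)) (fun _ => (n : ℤ))

/-- exponential decay of the weighted number of self-avoiding walks -/
def Dec (d : ℕ) (β K q : ℝ) : Prop :=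
  0 ≤ β ∧ 0 < K ∧ 0 < q ∧ q < 1 ∧ ∀ (m : ℕ) (S : Finset (Site d)) (x : Site d),
      Real.tanh β ^ (2 * m) * (saw m S x : ℝ) ≤ (K * (q ^ m) ^ 2) ^ 2

theorem mem_box {n : ℕ} {x : Site d} : x ∈ box d n ↔ ∀ i, (x i).natAbs ≤ n := by
  unfold box
  rw [Finset.mem_Icc]
  constructor
  · rintro ⟨h1, h2⟩ i
    have a := h1 i
    have b := h2 i
    simp only at a b
    omega
  · intro h
    constructor
    · intro i
      have := h i
      show -(n : ℤ) ≤ x i
      omega
    · intro i
      have := h i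
      show x i ≤ (n : ℤ)
      omega

theorem dist_of_not_mem_box {n : ℕ} {x : Site d} (h : x ∉ box d n) : n + 1 ≤ dist1 0 x := by
  rw [mem_box] at h
  push Not at h
  obtain ⟨i, hi⟩ := h
  have := InfAux.coord_le (0 : Site d) x i
  simp only [Pi.zero_apply, zero_sub, Int.natAbs_neg] at this
  omega

theorem mem_box_of_dist {n : ℕ} {x : Site d} (h : dist1 0 x ≤ n) : x ∈ box d n := by
  by_contra hc
  have := dist_of_not_mem_box hc
  omega

theorem Bd_const (c : ℝ) : Bd (fun _ : Coupling d => c) :=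
  ⟨measurable_const, |c|, fun _ => le_refl _⟩

theorem int_abs_le {h : Coupling d → ℝ} (hh : Bd h) (B : ℝ) (hB : 0 < B)
    (h2 : ∫ J, h J ^ 2 ∂(couplingLaw d) ≤ B ^ 2) : ∫ J, |h J| ∂(couplingLaw d) ≤ B := by
  have h3 : ∀ J, |h J| ≤ (h J ^ 2) / (2 * B) + B / 2 := by
    intro J
    rw [div_add_div _ _ (by positivity) (by norm_num), le_div_iff₀ (by positivity)]
    have := sq_nonneg (|h J| - B)
    rw [sub_sq, sq_abs] at this
    nlinarith
  have h4 := integral_mono hh.abs.int ((hh.sq.div (2 * B)).add (Bd_const (B / 2))).int h3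
  refine h4.trans ?_
  rw [integral_add (hh.sq.div (2 * B)).int (integrable_const _), integral_div,
    integral_const, probReal_univ, one_smul]
  have h6 : (∫ J, h J ^ 2 ∂(couplingLaw d)) / (2 * B) ≤ B ^ 2 / (2 * B) :=
    div_le_div_of_nonneg_right h2 (by positivity)
  have h7 : B ^ 2 / (2 * B) = B / 2 := by field_simp
  linarith

/-- The mean influence of a far away spin. -/
theorem infl_abs {β K q : ℝ} (hD : Dec d β K q) (A : Finset (Site d))
    (f : (Site d → Bool) → ℝ) (hf : LocalOn A f) (C : ℝ) (hC : ∀ σ, |f σ| ≤ C) (hC0 : 0 < C)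
    (r : ℕ) (hr : ∀ a ∈ A, dist1 0 a ≤ r)
    (Λ : Finset (Site d)) (v : Site d) (hv : v ∉ Λ)
    (Ω : Coupling d → Site d → Bool) (hΩ : Measurable Ω) (hI : Indep Λ Ω) :
    ∫ J, |Inf β J Λ (Ω J) v f| ∂(couplingLaw d) ≤
      C * K / (q ^ r) ^ 2 * (q ^ dist1 0 v) ^ 2 := by
  obtain ⟨hβ, hK, hq0, hq1, hs⟩ := hD
  set m := dist1 0 v - r with hm
  have h1 := infl_sq β hβ A f hf C hC m Λ v hv ∅ (Finset.disjoint_empty_left Λ) Ω hΩ hI (by
    intro a ha
    have h2 := hr a ha
    have h3 := InfAux.dist_tri (0 : Site d) a v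
    rw [InfAux.dist_comm a v] at h3
    omega)
  have h2 : C ^ 2 * (Real.tanh β ^ (2 * m) * (saw m (∅ : Finset (Site d)) v : ℝ)) ≤
      (C * (K * (q ^ m) ^ 2)) ^ 2 := by
    rw [mul_pow]
    exact mul_le_mul_of_nonneg_left (hs m ∅ v) (sq_nonneg _)
  have h3 := int_abs_le (Bd_Inf β Λ Ω hΩ v f (LocalOn.meas hf) C hC) (C * (K * (q ^ m) ^ 2))
    (by positivity) (h1.trans h2)
  refine h3.trans ?_
  have h4 : q ^ m * q ^ r ≤ q ^ dist1 0 v := by
    rw [← pow_add]
    apply pow_le_pow_of_le_one hq0.le hq1.le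
    omega
  have h5 : (q ^ m) ^ 2 * (q ^ r) ^ 2 ≤ (q ^ dist1 0 v) ^ 2 := by
    rw [← mul_pow]
    exact pow_le_pow_left₀ (by positivity) h4 2
  rw [div_mul_eq_mul_div, le_div_iff₀ (by positivity)]
  calc C * (K * (q ^ m) ^ 2) * (q ^ r) ^ 2 = C * K * ((q ^ m) ^ 2 * (q ^ r) ^ 2) := by ring
    _ ≤ C * K * (q ^ dist1 0 v) ^ 2 := mul_le_mul_of_nonneg_left h5 (by positivity)

theorem BALL_one (q : ℝ) (m : ℕ) :
    (1 - q) * ∑ z ∈ Finset.Icc (-(m : ℤ)) (m : ℤ), q ^ (0 - z).natAbs = 1 + q - 2 * q ^ (m + 1) := by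
  induction m with
  | zero => simp; ring
  | succ m ih =>
    have h1 : Finset.Icc (-((m + 1 : ℕ) : ℤ)) ((m + 1 : ℕ) : ℤ) =
        insert (-((m + 1 : ℕ) : ℤ)) (insert (((m + 1 : ℕ) : ℤ))
          (Finset.Icc (-(m : ℤ)) (m : ℤ))) := by
      ext z
      simp only [Finset.mem_Icc, Finset.mem_insert]
      push_cast
      omega
    rw [h1, Finset.sum_insert, Finset.sum_insert, mul_add, mul_add, ih]
    · have e1 : (0 - (-((m + 1 : ℕ) : ℤ))).natAbs = m + 1 := by omega
      have e2 : (0 - (((m + 1 : ℕ) : ℤ))).natAbs = m + 1 := by omega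
      rw [e1, e2]
      ring
    · simp only [Finset.mem_Icc]; push_cast; omega
    · simp only [Finset.mem_Icc, Finset.mem_insert]; push_cast; omega

/-- `∑ q^{|v|}` over any finite set of sites -/
theorem sum_q (W : Finset (Site d)) (q : ℝ) (h0 : 0 < q) (h1 : q < 1) :
    ∑ v ∈ W, q ^ dist1 0 v ≤ ((1 + q) / (1 - q)) ^ d := by
  set m := W.sup (fun v => dist1 0 v) with hm
  have hW : W ⊆ box d m := fun v hv => mem_box_of_dist (Finset.le_sup (f := fun v => dist1 0 v) hv)
  have e2 : ∑ v ∈ W, q ^ dist1 0 v ≤ ∑ v ∈ box d m, q ^ dist1 0 v :=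
    Finset.sum_le_sum_of_subset_of_nonneg hW fun y _ _ => by positivity
  have e3 : ∑ v ∈ box d m, q ^ dist1 0 v
      = ∏ _i : Fin d, ∑ z ∈ Finset.Icc (-(m : ℤ)) (m : ℤ), q ^ (0 - z).natAbs := by
    rw [Finset.prod_univ_sum]
    apply Finset.sum_congr rfl
    intro y _
    rw [dist1, Finset.prod_pow_eq_pow_sum]
    rfl
  have e4 : ∏ _i : Fin d, ∑ z ∈ Finset.Icc (-(m : ℤ)) (m : ℤ), q ^ (0 - z).natAbs
      ≤ ∏ _i : Fin d, ((1 + q) / (1 - q)) := by
    apply Finset.prod_le_prod
    · intro i _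
      exact Finset.sum_nonneg fun z _ => by positivity
    · intro i _
      rw [le_div_iff₀ (by linarith), mul_comm, BALL_one]
      have := pow_pos h0 (m + 1)
      linarith
  have e5 : ∏ _i : Fin d, ((1 + q) / (1 - q)) = ((1 + q) / (1 - q)) ^ d := by
    rw [Finset.prod_const, Finset.card_univ, Fintype.card_fin]
  rw [e5] at e4
  exact e2.trans (e3.le.trans e4)

theorem sum_q2 (W : Finset (Site d)) (n : ℕ) (hW : ∀ v ∈ W, v ∉ box d n) (q : ℝ) (h0 : 0 < q)
    (h1 : q < 1) : ∑ v ∈ W, (q ^ dist1 0 v) ^ 2 ≤ q ^ n * ((1 + q) / (1 - q)) ^ d := by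
  calc ∑ v ∈ W, (q ^ dist1 0 v) ^ 2 ≤ ∑ v ∈ W, q ^ n * q ^ dist1 0 v := by
        apply Finset.sum_le_sum
        intro v hv
        rw [sq]
        apply mul_le_mul_of_nonneg_right _ (by positivity)
        apply pow_le_pow_of_le_one h0.le h1.le
        have := dist_of_not_mem_box (hW v hv)
        omega
    _ = q ^ n * ∑ v ∈ W, q ^ dist1 0 v := by rw [Finset.mul_sum]
    _ ≤ q ^ n * ((1 + q) / (1 - q)) ^ d :=
        mul_le_mul_of_nonneg_left (sum_q W q h0 h1) (by positivity)

theorem ind_mem (β : ℝ) (J : Coupling d) (Λ : Finset (Site d)) (τ : Site d → Bool) (v : Site d) :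
    0 ≤ gE β J Λ τ (ind v) ∧ gE β J Λ τ (ind v) ≤ 1 := by
  apply gE_indicator_mem
  intro σ
  unfold ind
  split_ifs <;> norm_num

/-- removing one site and freezing its spin -/
theorem pin_one (β : ℝ) (J : Coupling d) (Λ : Finset (Site d)) (τ : Site d → Bool) (v : Site d)
    (hv : v ∈ Λ) (f : (Site d → Bool) → ℝ) :
    |gE β J Λ τ f - gE β J (Λ.erase v) τ f| ≤ 2 * |Inf β J (Λ.erase v) τ v f| := by
  have h1 := gE_cond β J Λ τ v hv f
  have h2 := ind_mem β J Λ τ v
  set p := gE β J Λ τ (ind v)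
  have e1 : 2 * |Inf β J (Λ.erase v) τ v f| =
      |gE β J (Λ.erase v) (Function.update τ v true) f -
        gE β J (Λ.erase v) (Function.update τ v false) f| := by
    unfold Inf
    rw [abs_div, abs_two]
    ring
  rw [e1]
  set a := gE β J (Λ.erase v) (Function.update τ v true) f
  set b := gE β J (Λ.erase v) (Function.update τ v false) f
  have h3 : gE β J (Λ.erase v) τ f = a ∨ gE β J (Λ.erase v) τ f = b := by
    have h4 : Function.update τ v (τ v) = τ := Function.update_eq_self v τ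
    cases h5 : τ v with
    | true => left; rw [h5] at h4; show _ = gE β J (Λ.erase v) (Function.update τ v true) f; rw [h4]
    | false => right; rw [h5] at h4; show _ = gE β J (Λ.erase v) (Function.update τ v false) f; rw [h4]
  rcases h3 with h3 | h3
  · rw [h1, h3]
    have : p * a + (1 - p) * b - a = (1 - p) * (b - a) := by ring
    rw [this, abs_mul, abs_of_nonneg (by linarith : 0 ≤ 1 - p), abs_sub_comm b a]
    exact mul_le_of_le_one_left (abs_nonneg _) (by linarith [h2.1])
  · rw [h1, h3]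
    have : p * a + (1 - p) * b - b = p * (a - b) := by ring
    rw [this, abs_mul, abs_of_nonneg h2.1]
    exact mul_le_of_le_one_left (abs_nonneg _) h2.2

/-- changing the boundary condition at one site -/
theorem bc_one (β : ℝ) (J : Coupling d) (Λ : Finset (Site d)) (τ : Site d → Bool) (v : Site d)
    (b : Bool) (f : (Site d → Bool) → ℝ) :
    |gE β J Λ τ f - gE β J Λ (Function.update τ v b) f| ≤ 2 * |Inf β J Λ τ v f| := by
  have e1 : 2 * |Inf β J Λ τ v f| = |gE β J Λ (Function.update τ v true) f -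
        gE β J Λ (Function.update τ v false) f| := by
    unfold Inf
    rw [abs_div, abs_two]
    ring
  rw [e1]
  have h4 : Function.update τ v (τ v) = τ := Function.update_eq_self v τ
  cases h5 : τ v with
  | true =>
    rw [h5] at h4
    cases b with
    | true => rw [h4, sub_self, abs_zero]; exact abs_nonneg _
    | false => rw [h4]
  | false =>
    rw [h5] at h4
    cases b with
    | true => rw [h4, abs_sub_comm]
    | false => rw [h4, sub_self, abs_zero]; exact abs_nonneg _

section general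

variable (β : ℝ) (f : (Site d → Bool) → ℝ) (hf : Measurable f) (C : ℝ) (hC : ∀ σ, |f σ| ≤ C)
  (F : Site d → ℝ)
  (hF : ∀ (Λ : Finset (Site d)) (v : Site d), v ∉ Λ → ∀ Ω : Coupling d → Site d → Bool,
    Measurable Ω → Indep Λ Ω → ∫ J, |Inf β J Λ (Ω J) v f| ∂(couplingLaw d) ≤ F v)

include hf hC hF

theorem pin_all (V U : Finset (Site d)) : Disjoint V U → ∀ Ω : Coupling d → Site d → Bool,
    Measurable Ω → Indep (V ∪ U) Ω →
    ∫ J, |gE β J (V ∪ U) (Ω J) f - gE β J V (Ω J) f| ∂(couplingLaw d) ≤ ∑ v ∈ U, 2 * F v := by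
  induction U using Finset.induction_on with
  | empty =>
    intro _ Ω hΩ hI
    simp
  | insert v U hv ih =>
    intro hd Ω hΩ hI
    rw [Finset.disjoint_insert_right] at hd
    have hsub : V ∪ U ⊆ V ∪ insert v U :=
      Finset.union_subset_union_right (Finset.subset_insert v U)
    have h1 := ih hd.2 Ω hΩ (hI.mono hsub)
    have hvn : v ∉ V ∪ U := by
      rw [Finset.mem_union, not_or]
      exact ⟨hd.1, hv⟩
    have he : (V ∪ insert v U).erase v = V ∪ U := by
      rw [Finset.union_insert, Finset.erase_insert hvn]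
    have hvm : v ∈ V ∪ insert v U := Finset.mem_union_right _ (Finset.mem_insert_self _ _)
    have h2 : ∀ J, |gE β J (V ∪ insert v U) (Ω J) f - gE β J V (Ω J) f| ≤
        2 * |Inf β J (V ∪ U) (Ω J) v f| + |gE β J (V ∪ U) (Ω J) f - gE β J V (Ω J) f| := by
      intro J
      have h3 := pin_one β J (V ∪ insert v U) (Ω J) v hvm f
      rw [he] at h3
      have h4 := abs_sub_le (gE β J (V ∪ insert v U) (Ω J) f) (gE β J (V ∪ U) (Ω J) f)
        (gE β J V (Ω J) f)
      linarith
    have b1 := Bd_gE β (V ∪ insert v U) Ω hΩ f hf C hC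
    have b2 := Bd_gE β (V ∪ U) Ω hΩ f hf C hC
    have b3 := Bd_gE β V Ω hΩ f hf C hC
    have b4 := Bd_Inf β (V ∪ U) Ω hΩ v f hf C hC
    have h5 := integral_mono (b1.sub b3).abs.int ((b4.abs.smul 2).add (b2.sub b3).abs).int h2
    rw [integral_add (b4.abs.smul 2).int (b2.sub b3).abs.int, integral_const_mul] at h5
    rw [Finset.sum_insert hv]
    have h6 := hF (V ∪ U) v hvn Ω hΩ (hI.mono hsub)
    linarith

/-- boundary conditions `Ω'` on `B` and `Ω` elsewhere -/
noncomputable def mix (B : Finset (Site d)) (Ω Ω' : Coupling d → Site d → Bool) :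
    Coupling d → Site d → Bool := fun J x => if x ∈ B then Ω' J x else Ω J x

omit hf hC hF in
theorem mix_meas (B : Finset (Site d)) {Ω Ω' : Coupling d → Site d → Bool} (h : Measurable Ω)
    (h' : Measurable Ω') : Measurable (mix B Ω Ω') := by
  refine measurable_pi_lambda _ fun x => ?_
  unfold mix
  by_cases hx : x ∈ B
  · simp only [hx, if_true]
    exact (measurable_pi_apply x).comp h'
  · simp only [hx, if_false]
    exact (measurable_pi_apply x).comp h

omit hf hC hF in
theorem mix_indep (B V : Finset (Site d)) {Ω Ω' : Coupling d → Site d → Bool} (h : Indep V Ω)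
    (h' : Indep V Ω') : Indep V (mix B Ω Ω') := by
  intro J J' hJ
  funext x
  unfold mix
  rw [h J J' hJ, h' J J' hJ]

theorem bc_all (V : Finset (Site d)) (Ω Ω' : Coupling d → Site d → Bool)
    (hΩ : Measurable Ω) (hΩ' : Measurable Ω') (hI : Indep V Ω) (hI' : Indep V Ω')
    (B : Finset (Site d)) : Disjoint V B →
    ∫ J, |gE β J V (Ω J) f - gE β J V (mix B Ω Ω' J) f| ∂(couplingLaw d) ≤
      ∑ v ∈ B, 2 * F v := by
  induction B using Finset.induction_on with
  | empty =>
    intro _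
    have : mix ∅ Ω Ω' = Ω := by
      funext J x
      simp [mix]
    rw [this]
    simp
  | insert v B hv ih =>
    intro hd
    rw [Finset.disjoint_insert_right] at hd
    have h1 := ih hd.2
    have hm := mix_meas B hΩ hΩ'
    have hmi := mix_indep B V hI hI'
    have hm' := mix_meas (insert v B) hΩ hΩ'
    have h2 : ∀ J, |gE β J V (Ω J) f - gE β J V (mix (insert v B) Ω Ω' J) f| ≤
        2 * |Inf β J V (mix B Ω Ω' J) v f| +
          |gE β J V (Ω J) f - gE β J V (mix B Ω Ω' J) f| := by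
      intro J
      have h3 := bc_one β J V (mix B Ω Ω' J) v (Ω' J v) f
      have h4 : Function.update (mix B Ω Ω' J) v (Ω' J v) = mix (insert v B) Ω Ω' J := by
        funext x
        by_cases hx : x = v
        · subst hx
          simp [mix]
        · rw [Function.update_of_ne hx]
          unfold mix
          simp only [Finset.mem_insert, hx, false_or]
      rw [h4] at h3
      have h5 := abs_sub_le (gE β J V (Ω J) f) (gE β J V (mix B Ω Ω' J) f)
        (gE β J V (mix (insert v B) Ω Ω' J) f)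
      linarith
    have b1 := Bd_gE β V Ω hΩ f hf C hC
    have b2 := Bd_gE β V _ hm f hf C hC
    have b3 := Bd_gE β V _ hm' f hf C hC
    have b4 := Bd_Inf β V _ hm v f hf C hC
    have h5 := integral_mono (b1.sub b3).abs.int ((b4.abs.smul 2).add (b1.sub b2).abs).int h2
    rw [integral_add (b4.abs.smul 2).int (b1.sub b2).abs.int, integral_const_mul] at h5
    rw [Finset.sum_insert hv]
    have h6 := hF V v hd.1 _ hm hmi
    linarith

end general

/-- the outer boundary -/
noncomputable def obd (V : Finset (Site d)) : Finset (Site d) := (V.biUnion nbr) \ V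

theorem Indep_const (V : Finset (Site d)) (τ : Site d → Bool) :
    Indep V (fun _ : Coupling d => τ) := fun _ _ _ => rfl

/-- **Comparison in mean**: the average of a local observable in `Λ ⊇ box n`, with a boundary
condition that does not look at the couplings touching `Λ`, and the average in the box with the
plus boundary condition. -/
theorem comp {β K q : ℝ} (hD : Dec d β K q) (A : Finset (Site d))
    (f : (Site d → Bool) → ℝ) (hf : LocalOn A f) (C : ℝ) (hC : ∀ σ, |f σ| ≤ C) (hC0 : 0 < C)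
    (r : ℕ) (hr : ∀ a ∈ A, dist1 0 a ≤ r) (n : ℕ) (hn : r ≤ n)
    (Λ : Finset (Site d)) (hΛ : box d n ⊆ Λ)
    (Ω : Coupling d → Site d → Bool) (hΩ : Measurable Ω) (hI : Indep Λ Ω) :
    ∫ J, |gE β J Λ (Ω J) f - gE β J (box d n) (fun _ => true) f| ∂(couplingLaw d) ≤
      (4 * (C * K / (q ^ r) ^ 2) * ((1 + q) / (1 - q)) ^ d) * q ^ n := by
  have hfm := LocalOn.meas hf
  obtain ⟨hβ, hK, hq0, hq1, hs⟩ := id hD
  set F : Site d → ℝ := fun v => C * K / (q ^ r) ^ 2 * (q ^ dist1 0 v) ^ 2 with hFdef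
  have hF : ∀ (Λ : Finset (Site d)) (v : Site d), v ∉ Λ → ∀ Ω : Coupling d → Site d → Bool,
      Measurable Ω → Indep Λ Ω → ∫ J, |Inf β J Λ (Ω J) v f| ∂(couplingLaw d) ≤ F v :=
    fun Λ v hv Ω hΩ hI => infl_abs hD A f hf C hC hC0 r hr Λ v hv Ω hΩ hI
  have hU : box d n ∪ (Λ \ box d n) = Λ := Finset.union_sdiff_of_subset hΛ
  have h1 := pin_all β f hfm C hC F hF (box d n) (Λ \ box d n) Finset.disjoint_sdiff Ω hΩ
    (by rw [hU]; exact hI)
  rw [hU] at h1
  have h2 := bc_all β f hfm C hC F hF (box d n) Ω (fun _ _ => true) hΩ measurable_const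
    (hI.mono hΛ) (Indep_const _ _) (obd (box d n)) Finset.disjoint_sdiff
  have h3 : ∀ J, gE β J (box d n) (mix (obd (box d n)) Ω (fun _ _ => true) J) f =
      gE β J (box d n) (fun _ => true) f := by
    intro J
    apply gE_local
    · rintro y hy ⟨x, hx, hxy⟩
      unfold mix
      rw [if_pos]
      unfold obd
      rw [Finset.mem_sdiff, Finset.mem_biUnion]
      exact ⟨⟨x, hx, mem_nbr.mpr hxy⟩, hy⟩
    · intro η
      apply hf
      intro x hx
      have hxb : x ∈ box d n := mem_box_of_dist ((hr x hx).trans hn)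
      rw [glue_mem _ _ hxb, glue_mem _ _ hxb]
  have h4 : ∀ J, |gE β J Λ (Ω J) f - gE β J (box d n) (fun _ => true) f| ≤
      |gE β J Λ (Ω J) f - gE β J (box d n) (Ω J) f| +
      |gE β J (box d n) (Ω J) f -
        gE β J (box d n) (mix (obd (box d n)) Ω (fun _ _ => true) J) f| := by
    intro J
    rw [h3 J]
    exact abs_sub_le _ _ _
  have b1 := Bd_gE β Λ Ω hΩ f hfm C hC
  have b2 := Bd_gE β (box d n) Ω hΩ f hfm C hC
  have b3 := Bd_gE β (box d n) _ (mix_meas (obd (box d n)) hΩ
    (measurable_const : Measurable (fun _ : Coupling d => (fun _ => true : Site d → Bool)))) f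
    hfm C hC
  have b4 := Bd_gE β (box d n) _
    (measurable_const : Measurable (fun _ : Coupling d => (fun _ => true : Site d → Bool))) f
    hfm C hC
  have h5 := integral_mono (b1.sub b4).abs.int ((b1.sub b2).abs.add (b2.sub b3).abs).int h4
  rw [integral_add (b1.sub b2).abs.int (b2.sub b3).abs.int] at h5
  have h6 : ∀ W : Finset (Site d), (∀ v ∈ W, v ∉ box d n) → ∑ v ∈ W, 2 * F v ≤
      2 * (C * K / (q ^ r) ^ 2) * (q ^ n * ((1 + q) / (1 - q)) ^ d) := by
    intro W hW
    have h7 : ∑ v ∈ W, 2 * F v = 2 * (C * K / (q ^ r) ^ 2) * ∑ v ∈ W, (q ^ dist1 0 v) ^ 2 := by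
      rw [Finset.mul_sum]
      apply Finset.sum_congr rfl
      intro v _
      rw [hFdef]
      ring
    rw [h7]
    exact mul_le_mul_of_nonneg_left (sum_q2 W n hW q hq0 hq1) (by positivity)
  have h8 := h6 (Λ \ box d n) (fun v hv => (Finset.mem_sdiff.mp hv).2)
  have h9 := h6 (obd (box d n)) (fun v hv => (Finset.mem_sdiff.mp hv).2)
  have h10 : (4 * (C * K / (q ^ r) ^ 2) * ((1 + q) / (1 - q)) ^ d) * q ^ n =
      2 * (C * K / (q ^ r) ^ 2) * (q ^ n * ((1 + q) / (1 - q)) ^ d) +
      2 * (C * K / (q ^ r) ^ 2) * (q ^ n * ((1 + q) / (1 - q)) ^ d) := by ring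
  rw [h10]
  linarith

end Pool.H981EA
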