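import Pool.Agent.Run7.h981.EA.Flip
import Pool.Agent.H47R2.EA.GIBBSU

/-!
# Edwards–Anderson model: dependence of a finite-volume average on one coupling
-/

set_option autoImplicit false

open MeasureTheory

namespace Pool.H981EA

open Pool.H47EA Pool.H47EA.Basic

variable {d : ℕ}

/-- the edge `⟨x,y⟩` -/
def ed (x y : Site d) (h : dist1 x y = 1) : (lat d).edgeSet := ⟨s(x, y), h⟩

theorem Jc_ed (J : Coupling d) (x y : Site d) (h : dist1 x y = 1) :
    Jc J x y = sg (J (ed x y h)) := by
  unfold Jc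
  have h' : (lat d).Adj x y := h
  rw [dif_pos h']
  rfl

theorem sg_not (b : Bool) : sg (!b) = - sg b := by
  cases b <;> simp [sg]

theorem Jc_flipS_mem {s : Finset ((lat d).edgeSet)} (J : Coupling d) (x y : Site d)
    (h : dist1 x y = 1) (hs : ed x y h ∈ s) : Jc (flipS s J) x y = - Jc J x y := by
  rw [Jc_ed _ x y h, Jc_ed _ x y h]
  unfold flipS
  rw [if_pos hs, sg_not]

theorem Jc_flipS_not_mem {s : Finset ((lat d).edgeSet)} (J : Coupling d) (x y : Site d)
    (h : dist1 x y = 1) (hs : ed x y h ∉ s) : Jc (flipS s J) x y = Jc J x y := by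
  rw [Jc_ed _ x y h, Jc_ed _ x y h]
  unfold flipS
  rw [if_neg hs]

theorem gE_congr_J (β : ℝ) (J J' : Coupling d) (Λ : Finset (Site d)) (τ τ' : Site d → Bool)
    (f : (Site d → Bool) → ℝ)
    (h : ∀ η : Λ → Bool, ham J Λ (glue Λ η τ) = ham J' Λ (glue Λ η τ'))
    (hf : ∀ η : Λ → Bool, f (glue Λ η τ) = f (glue Λ η τ')) :
    gE β J Λ τ f = gE β J' Λ τ' f := by
  unfold gE Zp
  simp only [h, hf]

/-- a flip of couplings outside `edgesOf Λ` does not change the average in `Λ` -/
theorem gE_flip_out (β : ℝ) (J : Coupling d) (Λ : Finset (Site d)) (τ : Site d → Bool)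
    (f : (Site d → Bool) → ℝ) (s : Finset ((lat d).edgeSet)) (hs : ∀ e ∈ s, e.1 ∉ edgesOf Λ) :
    gE β (flipS s J) Λ τ f = gE β J Λ τ f := by
  apply gE_congr_J _ _ _ _ _ _ _ _ (fun _ => rfl)
  intro η
  unfold ham
  apply Finset.sum_congr rfl
  intro e0 he0
  obtain ⟨x, hx, y, hy, rfl⟩ := mem_edgesOf.mp he0
  rw [bond_mk, bond_mk, Jc_flipS_not_mem J x y hy]
  intro h
  exact hs _ h he0

/-- effect of a single flip on the Hamiltonian -/
theorem ham_flip_one (J : Coupling d) (Λ : Finset (Site d)) (σ : Site d → Bool)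
    (v w : Site d) (h : dist1 v w = 1) (hw : w ∈ Λ) :
    ham (flipS {ed v w h} J) Λ σ = ham J Λ σ - 2 * (Jc J v w * sg (σ v) * sg (σ w)) := by
  have hmem : s(v, w) ∈ edgesOf Λ :=
    mem_edgesOf.mpr ⟨w, hw, v, by rw [dist1_comm]; exact h, Sym2.eq_swap⟩
  unfold ham
  rw [← Finset.add_sum_erase _ _ hmem, ← Finset.add_sum_erase _ _ hmem, bond_mk, bond_mk,
    Jc_flipS_mem J v w h (Finset.mem_singleton_self _)]
  have : ∑ e ∈ (edgesOf Λ).erase s(v, w), bond (flipS {ed v w h} J) σ e =
      ∑ e ∈ (edgesOf Λ).erase s(v, w), bond J σ e := by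
    apply Finset.sum_congr rfl
    intro e he
    rw [Finset.mem_erase] at he
    obtain ⟨x, hx, y, hy, rfl⟩ := mem_edgesOf.mp he.2
    rw [bond_mk, bond_mk, Jc_flipS_not_mem J x y hy]
    intro h2
    rw [Finset.mem_singleton] at h2
    exact he.1 (congrArg Subtype.val h2)
  rw [this]
  ring

theorem real_ineq (x y k : ℝ) (hx : 0 < x) (hy : 0 < y) (hk : 1 ≤ k) :
    |x / (x + y) - (x / k) / (x / k + y * k)| ≤ (k - 1) / (k + 1) := by
  have hk0 : 0 < k := by linarith
  have e1 : (x / k) / (x / k + y * k) = x / (x + k ^ 2 * y) := by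
    rw [div_eq_div_iff (by positivity) (by positivity)]
    field_simp
  have e2 : x / (x + y) - x / (x + k ^ 2 * y) = (x * y * (k ^ 2 - 1)) / ((x + y) * (x + k ^ 2 * y)) := by
    rw [div_sub_div _ _ (by positivity) (by positivity)]
    congr 1
    ring
  rw [e1, e2, abs_of_nonneg (div_nonneg (mul_nonneg (by positivity) (by nlinarith)) (by positivity)),
    div_le_div_iff₀ (by positivity) (by positivity)]
  have h3 : x * y * (k + 1) ^ 2 ≤ (x + y) * (x + k ^ 2 * y) := by nlinarith [sq_nonneg (x - k * y)]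
  nlinarith [mul_le_mul_of_nonneg_left h3 (by linarith : (0 : ℝ) ≤ k - 1)]

theorem tanh_eq (β : ℝ) : Real.tanh β = (Real.exp (2 * β) - 1) / (Real.exp (2 * β) + 1) := by
  rw [Real.tanh_eq_sinh_div_cosh, Real.sinh_eq, Real.cosh_eq]
  have h : Real.exp (2 * β) = Real.exp β * Real.exp β := by rw [← Real.exp_add]; ring_nf
  have h2 : Real.exp (-β) = 1 / Real.exp β := by rw [Real.exp_neg]; ring
  have hp := Real.exp_pos β
  rw [h, h2]
  rw [div_eq_div_iff (by positivity) (by positivity)]
  field_simp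

/-- the two partial partition functions -/
noncomputable def Nw (β : ℝ) (J : Coupling d) (Λ : Finset (Site d)) (τ : Site d → Bool)
    (w : Site d) (b : Bool) : ℝ :=
  ∑ η : Λ → Bool, Real.exp (β * ham J Λ (glue Λ η τ)) * (if glue Λ η τ w = b then 1 else 0)

theorem Zp_Nw (β : ℝ) (J : Coupling d) (Λ : Finset (Site d)) (τ : Site d → Bool) (w : Site d) :
    Zp β J Λ τ = Nw β J Λ τ w true + Nw β J Λ τ w false := by
  unfold Zp Nw
  rw [← Finset.sum_add_distrib]
  apply Finset.sum_congr rfl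
  intro η _
  rw [← mul_add]
  cases glue Λ η τ w <;> simp

theorem gE_ind_Nw (β : ℝ) (J : Coupling d) (Λ : Finset (Site d)) (τ : Site d → Bool) (w : Site d) :
    gE β J Λ τ (ind w) = Nw β J Λ τ w true / (Nw β J Λ τ w true + Nw β J Λ τ w false) := by
  rw [← Zp_Nw]
  rfl

theorem Nw_pos (β : ℝ) (J : Coupling d) (Λ : Finset (Site d)) (τ : Site d → Bool) (w : Site d)
    (hw : w ∈ Λ) (b : Bool) : 0 < Nw β J Λ τ w b := by
  unfold Nw
  apply Finset.sum_pos'
  · intro η _
    apply mul_nonneg (Real.exp_pos _).le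
    split_ifs <;> norm_num
  · refine ⟨fun _ => b, Finset.mem_univ _, ?_⟩
    rw [glue_mem _ _ hw, if_pos rfl, mul_one]
    exact Real.exp_pos _

theorem Nw_flip (β : ℝ) (J : Coupling d) (Λ : Finset (Site d)) (τ : Site d → Bool)
    (v w : Site d) (h : dist1 v w = 1) (hv : v ∉ Λ) (hw : w ∈ Λ) (b : Bool) :
    Nw β (flipS {ed v w h} J) Λ τ w b =
      Nw β J Λ τ w b * Real.exp (-(2 * β * (Jc J v w * sg (τ v) * sg b))) := by
  unfold Nw
  rw [Finset.sum_mul]
  apply Finset.sum_congr rfl
  intro η _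
  by_cases hb : glue Λ η τ w = b
  · rw [if_pos hb, mul_one, mul_one, ham_flip_one J Λ _ v w h hw, ← Real.exp_add,
      glue_not_mem _ _ hv, hb]
    congr 1
    ring
  · rw [if_neg hb]
    ring

/-- one flip changes the probability of `σ_w = +` by at most `tanh β` -/
theorem ind_flip (β : ℝ) (hβ : 0 ≤ β) (J : Coupling d) (Λ : Finset (Site d)) (τ : Site d → Bool)
    (v w : Site d) (h : dist1 v w = 1) (hv : v ∉ Λ) (hw : w ∈ Λ) :
    |gE β J Λ τ (ind w) - gE β (flipS {ed v w h} J) Λ τ (ind w)| ≤ Real.tanh β := by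
  rw [gE_ind_Nw, gE_ind_Nw, Nw_flip β J Λ τ v w h hv hw, Nw_flip β J Λ τ v w h hv hw, tanh_eq]
  have hx := Nw_pos β J Λ τ w hw true
  have hy := Nw_pos β J Λ τ w hw false
  set x := Nw β J Λ τ w true
  set y := Nw β J Λ τ w false
  have hk : (1 : ℝ) ≤ Real.exp (2 * β) := Real.one_le_exp (by linarith)
  have hs : Jc J v w * sg (τ v) = 1 ∨ Jc J v w * sg (τ v) = -1 := by
    rw [Jc_ed J v w h]
    cases J (ed v w h) <;> cases τ v <;> simp [sg]
  have e1 : Real.exp (-(2 * β)) = 1 / Real.exp (2 * β) := by rw [Real.exp_neg]; ring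
  rcases hs with hs | hs
  · rw [hs]
    have a1 : Real.exp (-(2 * β * (1 * sg true))) = 1 / Real.exp (2 * β) := by
      rw [← e1]; congr 1; simp [sg]
    have a2 : Real.exp (-(2 * β * (1 * sg false))) = Real.exp (2 * β) := by
      congr 1; simp [sg]
    rw [a1, a2]
    have := real_ineq x y _ hx hy hk
    rw [mul_one_div]
    exact this
  · rw [hs]
    have a1 : Real.exp (-(2 * β * (-1 * sg true))) = Real.exp (2 * β) := by
      congr 1; simp [sg]
    have a2 : Real.exp (-(2 * β * (-1 * sg false))) = 1 / Real.exp (2 * β) := by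
      rw [← e1]; congr 1; simp [sg]
    rw [a1, a2]
    have hkp : 0 < Real.exp (2 * β) := Real.exp_pos _
    have := real_ineq (x * Real.exp (2 * β)) (y * (1 / Real.exp (2 * β))) _ (by positivity)
      (by positivity) hk
    rw [abs_sub_comm] at this
    have e2 : x * Real.exp (2 * β) / Real.exp (2 * β) = x := by field_simp
    have e3 : y * (1 / Real.exp (2 * β)) * Real.exp (2 * β) = y := by field_simp
    rw [e2, e3] at this
    exact this

/-- half the difference of the averages of `f` given `σ_v = +` and `σ_v = -` -/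
noncomputable def Inf (β : ℝ) (J : Coupling d) (Λ : Finset (Site d)) (τ : Site d → Bool)
    (v : Site d) (f : (Site d → Bool) → ℝ) : ℝ :=
  (gE β J Λ (Function.update τ v true) f - gE β J Λ (Function.update τ v false) f) / 2

theorem ed_not_mem_erase (Λ : Finset (Site d)) (v w : Site d) (hv : v ∉ Λ) :
    s(v, w) ∉ edgesOf (Λ.erase w) := by
  intro hm
  obtain ⟨x, hx, y, hy, he⟩ := mem_edgesOf.mp hm
  rw [Sym2.eq_iff] at he
  rcases he with ⟨h1, _⟩ | ⟨h1, _⟩
  · rw [h1] at hx
    exact hv (Finset.mem_of_mem_erase hx)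
  · rw [h1] at hx
    exact (Finset.notMem_erase w Λ) hx

/-- the increment of an average under the flip of one coupling between the outside and `w ∈ Λ` -/
theorem gE_flip_one (β : ℝ) (hβ : 0 ≤ β) (J : Coupling d) (Λ : Finset (Site d))
    (τ : Site d → Bool) (v w : Site d) (h : dist1 v w = 1) (hv : v ∉ Λ) (hw : w ∈ Λ)
    (f : (Site d → Bool) → ℝ) :
    ((gE β J Λ τ f - gE β (flipS {ed v w h} J) Λ τ f) / 2) ^ 2 ≤
      Real.tanh β ^ 2 * Inf β J (Λ.erase w) τ w f ^ 2 := by
  have hout : ∀ τ' : Site d → Bool, gE β (flipS {ed v w h} J) (Λ.erase w) τ' f =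
      gE β J (Λ.erase w) τ' f := by
    intro τ'
    apply gE_flip_out
    intro e he
    rw [Finset.mem_singleton] at he
    rw [he]
    exact ed_not_mem_erase Λ v w hv
  have h1 := gE_cond β J Λ τ w hw f
  have h2 := gE_cond β (flipS {ed v w h} J) Λ τ w hw f
  rw [hout, hout] at h2
  have h3 := ind_flip β hβ J Λ τ v w h hv hw
  set p := gE β J Λ τ (ind w)
  set p' := gE β (flipS {ed v w h} J) Λ τ (ind w)
  set a := gE β J (Λ.erase w) (Function.update τ w true) f
  set b := gE β J (Λ.erase w) (Function.update τ w false) f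
  have e1 : (gE β J Λ τ f - gE β (flipS {ed v w h} J) Λ τ f) / 2 = (p - p') * ((a - b) / 2) := by
    rw [h1, h2]
    ring
  rw [e1, mul_pow]
  show (p - p') ^ 2 * ((a - b) / 2) ^ 2 ≤ Real.tanh β ^ 2 * ((a - b) / 2) ^ 2
  apply mul_le_mul_of_nonneg_right _ (sq_nonneg _)
  exact sq_le_sq' (by linarith [neg_abs_le (p - p')]) ((le_abs_self _).trans h3)

/-- the edges from `v` to `Λ` -/
noncomputable def star (v : Site d) (Λ : Finset (Site d)) : Finset ((lat d).edgeSet) :=
  ((nbr v).filter (fun w => w ∈ Λ)).attach.image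
    (fun w => ed v w.1 (mem_nbr.mp (Finset.mem_filter.mp w.2).1))

theorem mem_star {v : Site d} {Λ : Finset (Site d)} {x y : Site d} (h : dist1 x y = 1)
    (hv : v ∉ Λ) (hx : x ∈ Λ) : ed x y h ∈ star v Λ ↔ y = v := by
  unfold star
  rw [Finset.mem_image]
  constructor
  · rintro ⟨⟨w, hw⟩, _, he⟩
    have he' : s(v, w) = s(x, y) := congrArg Subtype.val he
    rw [Sym2.eq_iff] at he'
    rcases he' with ⟨h1, _⟩ | ⟨h1, _⟩
    · rw [h1] at hv
      exact absurd hx hv
    · exact h1.symm
  · intro hy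
    subst hy
    refine ⟨⟨x, ?_⟩, Finset.mem_attach _ _, ?_⟩
    · rw [Finset.mem_filter]
      exact ⟨mem_nbr.mpr (by rw [dist1_comm]; exact h), hx⟩
    · apply Subtype.ext
      exact Sym2.eq_swap

theorem star_sub (v : Site d) (Λ : Finset (Site d)) : ∀ e ∈ star v Λ, e.1 ∈ edgesOf Λ := by
  intro e he
  unfold star at he
  rw [Finset.mem_image] at he
  obtain ⟨⟨w, hw⟩, _, rfl⟩ := he
  rw [Finset.mem_filter] at hw
  exact mem_edgesOf.mpr ⟨w, hw.2, v, by rw [dist1_comm]; exact mem_nbr.mp hw.1, Sym2.eq_swap⟩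

/-- flipping the boundary spin at `v` is the same as flipping all couplings at `v` -/
theorem gE_flip_star (β : ℝ) (J : Coupling d) (Λ : Finset (Site d)) (τ : Site d → Bool)
    (v : Site d) (hv : v ∉ Λ) (A : Finset (Site d)) (hA : v ∉ A) (f : (Site d → Bool) → ℝ)
    (hf : LocalOn A f) :
    gE β J Λ (Function.update τ v false) f =
      gE β (flipS (star v Λ) J) Λ (Function.update τ v true) f := by
  apply gE_congr_J
  · intro η
    unfold ham
    apply Finset.sum_congr rfl
    intro e0 he0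
    obtain ⟨x, hx, y, hy, rfl⟩ := mem_edgesOf.mp he0
    rw [bond_mk, bond_mk, glue_mem _ _ hx, glue_mem _ _ hx]
    by_cases hyv : y = v
    · rw [Jc_flipS_mem J x y hy ((mem_star hy hv hx).mpr hyv)]
      subst hyv
      rw [glue_not_mem _ _ hv, glue_not_mem _ _ hv, Function.update_self, Function.update_self]
      cases η ⟨x, hx⟩ <;> simp [sg]
    · rw [Jc_flipS_not_mem J x y hy (fun h => hyv ((mem_star hy hv hx).mp h))]
      by_cases hyΛ : y ∈ Λ
      · rw [glue_mem _ _ hyΛ, glue_mem _ _ hyΛ]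
      · rw [glue_not_mem _ _ hyΛ, glue_not_mem _ _ hyΛ, Function.update_of_ne hyv,
          Function.update_of_ne hyv]
  · intro η
    apply hf
    intro x hx
    have hxv : x ≠ v := fun h => hA (h ▸ hx)
    by_cases hxΛ : x ∈ Λ
    · rw [glue_mem _ _ hxΛ, glue_mem _ _ hxΛ]
    · rw [glue_not_mem _ _ hxΛ, glue_not_mem _ _ hxΛ, Function.update_of_ne hxv,
        Function.update_of_ne hxv]

/-! ### measurability -/

theorem meas_Jc (x y : Site d) : Measurable (fun J : Coupling d => Jc J x y) := by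
  unfold Jc
  by_cases h : (lat d).Adj x y
  · simp only [h, dif_pos]
    exact (measurable_of_countable sg).comp (measurable_pi_apply _)
  · simp only [h, dif_neg, not_false_eq_true]
    exact measurable_const

theorem meas_ham2 (Λ : Finset (Site d)) (Ω : Coupling d → Site d → Bool) (hΩ : Measurable Ω) :
    Measurable (fun J : Coupling d => ham J Λ (Ω J)) := by
  unfold ham
  apply Finset.measurable_sum
  intro e _
  induction e using Sym2.ind with
  | _ x y =>
    show Measurable (fun J : Coupling d => Jc J x y * sg (Ω J x) * sg (Ω J y))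
    have h1 : Measurable (fun J : Coupling d => sg (Ω J x)) :=
      (measurable_of_countable sg).comp ((measurable_pi_apply x).comp hΩ)
    have h2 : Measurable (fun J : Coupling d => sg (Ω J y)) :=
      (measurable_of_countable sg).comp ((measurable_pi_apply y).comp hΩ)
    exact ((meas_Jc x y).mul h1).mul h2

theorem meas_gE2 (β : ℝ) (Λ : Finset (Site d)) (Ω : Coupling d → Site d → Bool)
    (hΩ : Measurable Ω) (f : (Site d → Bool) → ℝ) (hf : Measurable f) :
    Measurable (fun J : Coupling d => gE β J Λ (Ω J) f) := by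
  unfold gE Zp
  have h1 : ∀ η : Λ → Bool, Measurable fun J : Coupling d =>
      Real.exp (β * ham J Λ (glue Λ η (Ω J))) := fun η =>
    Real.measurable_exp.comp (measurable_const.mul (meas_ham2 Λ _ ((meas_glue Λ η).comp hΩ)))
  apply Measurable.div
  · exact Finset.measurable_sum _ fun η _ => (h1 η).mul (hf.comp ((meas_glue Λ η).comp hΩ))
  · exact Finset.measurable_sum _ fun η _ => h1 η

theorem LocalOn.meas {A : Finset (Site d)} {f : (Site d → Bool) → ℝ} (hf : LocalOn A f) :
    Measurable f := by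
  have h1 : f = (fun η : A → Bool => f (glue A η (fun _ => true))) ∘ (fun σ x => σ x.1) := by
    funext σ
    apply hf
    intro x hx
    rw [glue_mem _ _ hx]
  rw [h1]
  exact (measurable_of_countable _).comp (measurable_pi_lambda _ fun x => measurable_pi_apply _)

theorem gE_abs_le (β : ℝ) (J : Coupling d) (Λ : Finset (Site d)) (τ : Site d → Bool)
    (f : (Site d → Bool) → ℝ) (C : ℝ) (hC : ∀ σ, |f σ| ≤ C) : |gE β J Λ τ f| ≤ C := by
  have h1 := gE_mono β J Λ τ f (fun _ => C) (fun η => (abs_le.mp (hC _)).2)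
  have h2 := gE_mono β J Λ τ (fun _ => -C) f (fun η => (abs_le.mp (hC _)).1)
  rw [gE_const] at h1 h2
  exact abs_le.mpr ⟨h2, h1⟩

theorem Bd_gE (β : ℝ) (Λ : Finset (Site d)) (Ω : Coupling d → Site d → Bool)
    (hΩ : Measurable Ω) (f : (Site d → Bool) → ℝ) (hf : Measurable f) (C : ℝ)
    (hC : ∀ σ, |f σ| ≤ C) : Bd (fun J : Coupling d => gE β J Λ (Ω J) f) :=
  ⟨meas_gE2 β Λ Ω hΩ f hf, C, fun J => gE_abs_le β J Λ _ f C hC⟩

theorem meas_update {Ω : Coupling d → Site d → Bool} (hΩ : Measurable Ω) (v : Site d)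
    {b : Coupling d → Bool} (hb : Measurable b) :
    Measurable (fun J => Function.update (Ω J) v (b J)) := by
  refine measurable_pi_lambda _ fun x => ?_
  by_cases h : x = v
  · subst h
    simp only [Function.update_self]
    exact hb
  · simp only [Function.update_of_ne h]
    exact (measurable_pi_apply x).comp hΩ

end Pool.H981EA
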