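import Pool.Agent.Run7.h981.EA.Pinned3

/-!
# Edwards–Anderson model: the metastate exists, is unique, and is trivial
-/

set_option autoImplicit false

open MeasureTheory Filter Topology
open scoped ENNReal symmDiff

namespace Pool.H981EA

open Pool.H47EA Pool.H47EA.Basic

variable {d : ℕ}

theorem ham_flip_hx (β : ℝ) (J : Coupling d) (Λ : Finset (Site d)) (e : (lat d).edgeSet)
    (he : e.1 ∈ edgesOf Λ) (σ : Site d → Bool) :
    β * ham (flipS {e} J) Λ σ = β * ham J Λ σ + hx β J {e} σ := by
  unfold hx
  rw [Finset.sum_singleton]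
  have h1 : ham (flipS {e} J) Λ σ = ham J Λ σ - 2 * bond J σ e.1 := by
    unfold ham
    rw [← Finset.add_sum_erase _ _ he, ← Finset.add_sum_erase _ _ he, bond_flipS,
      if_pos (Finset.mem_singleton_self e)]
    have : ∑ e' ∈ (edgesOf Λ).erase e.1, bond (flipS {e} J) σ e' =
        ∑ e' ∈ (edgesOf Λ).erase e.1, bond J σ e' := by
      apply Finset.sum_congr rfl
      intro e' he'
      rw [Finset.mem_erase] at he'
      obtain ⟨x, hx, y, hy, rfl⟩ := mem_edgesOf.mp he'.2
      have h2 := bond_flipS {e} J σ (ed x y hy)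
      rw [if_neg] at h2
      · exact h2
      · rw [Finset.mem_singleton]
        intro h3
        exact he'.1 (congrArg Subtype.val h3)
    rw [this]
    ring
  rw [h1]
  ring

theorem gE_flip_tilt (β : ℝ) (J : Coupling d) (Λ : Finset (Site d)) (e : (lat d).edgeSet)
    (he : e.1 ∈ edgesOf Λ) (τ : Site d → Bool) (f : (Site d → Bool) → ℝ) :
    gE β (flipS {e} J) Λ τ f =
      gE β J Λ τ (fun σ => f σ * Real.exp (hx β J {e} σ)) /
        gE β J Λ τ (fun σ => Real.exp (hx β J {e} σ)) := by
  have hZ := (Zp_pos β J Λ τ).ne'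
  unfold gE
  rw [div_div_div_cancel_right₀ hZ]
  congr 1
  · apply Finset.sum_congr rfl
    intro η _
    rw [ham_flip_hx β J Λ e he, Real.exp_add]
    ring
  · unfold Zp
    apply Finset.sum_congr rfl
    intro η _
    rw [ham_flip_hx β J Λ e he, Real.exp_add]

theorem hx_local (β : ℝ) (J : Coupling d) (x y : Site d) (h : dist1 x y = 1) :
    LocalOn {x, y} (fun σ => Real.exp (hx β J {ed x y h} σ)) := by
  intro σ σ' hs
  show Real.exp (hx β J {ed x y h} σ) = Real.exp (hx β J {ed x y h} σ')
  rw [hx_single, hx_single, hs x (by simp), hs y (by simp)]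

theorem LocalOn.mul {A B : Finset (Site d)} {f g : (Site d → Bool) → ℝ} (hf : LocalOn A f)
    (hg : LocalOn B g) : LocalOn (A ∪ B) (fun σ => f σ * g σ) := by
  intro σ σ' h
  show f σ * g σ = f σ' * g σ'
  rw [hf σ σ' (fun x hx => h x (Finset.mem_union_left _ hx)),
    hg σ σ' (fun x hx => h x (Finset.mem_union_right _ hx))]

/-- `Γ` is the limit of the finite-volume states with plus boundary condition -/
def IsLim (β : ℝ) (J : Coupling d) (Γ : Measure (Site d → Bool)) : Prop :=
  ∀ (A : Finset (Site d)) (f : (Site d → Bool) → ℝ), LocalOn A f →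
    Tendsto (fun n => gE β J (box d n) (fun _ => true) f) atTop (𝓝 (∫ σ, f σ ∂Γ))

/-- covariance of the limit -/
theorem lim_cov (β : ℝ) (J : Coupling d) (e : (lat d).edgeSet)
    (Γ Γ' : ProbabilityMeasure (Site d → Bool))
    (h : IsLim β J (Γ : Measure (Site d → Bool)))
    (h' : IsLim β (flipS {e} J) (Γ' : Measure (Site d → Bool))) :
    tl β J {e} Γ = Γ' := by
  obtain ⟨e0, he⟩ := e
  induction e0 using Sym2.ind with
  | _ x y =>
    have hxy : dist1 x y = 1 := he
    change IsLim β (flipS {ed x y hxy} J) (Γ' : Measure (Site d → Bool)) at h'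
    show tl β J {ed x y hxy} Γ = Γ'
    apply ProbabilityMeasure.toMeasure_injective
    apply state_ext
    intro A f hf
    have hpos := exp_hx_pos β J {ed x y hxy} (Γ : Measure (Site d → Bool))
    have t1 := h (A ∪ {x, y}) _ (LocalOn.mul hf (hx_local β J x y hxy))
    have t2 := h {x, y} _ (hx_local β J x y hxy)
    have t3 := t1.div t2 hpos.ne'
    have t4 := h' A f hf
    have hev : ∀ᶠ n in atTop, gE β (flipS {ed x y hxy} J) (box d n) (fun _ => true) f =
        gE β J (box d n) (fun _ => true) (fun σ => f σ * Real.exp (hx β J {ed x y hxy} σ)) /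
        gE β J (box d n) (fun _ => true) (fun σ => Real.exp (hx β J {ed x y hxy} σ)) := by
      refine Filter.eventually_atTop.mpr ⟨dist1 0 x, fun n hn => ?_⟩
      apply gE_flip_tilt
      exact mem_edgesOf.mpr ⟨x, mem_box_of_dist hn, y, hxy, rfl⟩
    have t5 := t3.congr' (hev.mono fun n hn => hn.symm)
    have t6 := tendsto_nhds_unique t4 t5
    rw [t6]
    show ∫ σ, f σ ∂((Γ : Measure (Site d → Bool)).tilted (hx β J {ed x y hxy})) = _
    rw [integral_tilted, ← integral_div]
    apply integral_congr_ae
    refine ae_of_all _ fun σ => ?_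
    show (Real.exp (hx β J {ed x y hxy} σ) / _) • (f σ) = _
    rw [smul_eq_mul]
    ring

/-- a measurable version of the limit -/
theorem exists_meas_version (β : ℝ) (π₀ : Coupling d → Measure (Site d → Bool))
    (h : ∀ᵐ J ∂(couplingLaw d), IsProbabilityMeasure (π₀ J) ∧ IsLim β J (π₀ J)) :
    ∃ π : Coupling d → ProbabilityMeasure (Site d → Bool), Measurable π ∧
      ∀ᵐ J ∂(couplingLaw d), (π J : Measure (Site d → Bool)) = π₀ J := by
  classical
  obtain ⟨t, ht1, ht2, ht3⟩ := exists_measurable_superset_of_null (ae_iff.mp h)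
  have hG : ∀ J, J ∉ t → IsProbabilityMeasure (π₀ J) ∧ IsLim β J (π₀ J) := by
    intro J hJ
    by_contra hc
    exact hJ (ht1 hc)
  let ω₀ : Site d → Bool := fun _ => true
  let μ : Coupling d → Measure (Site d → Bool) := fun J =>
    if J ∈ t then Measure.dirac ω₀ else π₀ J
  have hμp : ∀ J, IsProbabilityMeasure (μ J) := by
    intro J
    show IsProbabilityMeasure (if J ∈ t then Measure.dirac ω₀ else π₀ J)
    by_cases hJ : J ∈ t
    · rw [if_pos hJ]
      infer_instance
    · rw [if_neg hJ]
      exact (hG J hJ).1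
  have hμm : Measurable μ := by
    refine Measurable.measure_of_isPiSystem_of_isProbabilityMeasure
      (S := measurableCylinders fun _ : Site d => Bool)
      generateFrom_measurableCylinders.symm isPiSystem_measurableCylinders ?_
    intro C hC
    obtain ⟨s, S, hS, rfl⟩ := (mem_measurableCylinders C).1 hC
    set C : Set (Site d → Bool) := cylinder (α := fun _ : Site d => Bool) s S with hCdef
    have hCm : MeasurableSet C := MeasurableSet.cylinder s hS
    set f : (Site d → Bool) → ℝ := C.indicator fun _ => (1 : ℝ) with hf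
    have hfm : Measurable f := measurable_const.indicator hCm
    have hfl : LocalOn s f := by
      intro σ σ' h
      have : σ ∈ C ↔ σ' ∈ C := by
        rw [hCdef, mem_cylinder, mem_cylinder]
        have : s.restrict σ = s.restrict σ' := by
          funext x; exact h x.1 x.2
        rw [this]
      by_cases h1 : σ ∈ C
      · simp [hf, h1, this.1 h1]
      · have h2 : σ' ∉ C := fun h => h1 (this.2 h)
        simp [hf, h1, h2]
    let Fn : ℕ → Coupling d → ℝ := fun n J => if J ∈ t then f ω₀ else gE β J (box d n) ω₀ f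
    have hFn : ∀ n, Measurable (Fn n) := fun n =>
      Measurable.ite ht2 measurable_const (meas_gE2 β (box d n) _ measurable_const f hfm)
    have hreal : ∀ J, (μ J C).toReal = ∫ σ, f σ ∂(μ J) := by
      intro J
      rw [hf, integral_indicator hCm, integral_const, smul_eq_mul, mul_one,
        measureReal_restrict_apply MeasurableSet.univ, Set.univ_inter]
      rfl
    have hlim : Tendsto (fun n => Fn n) atTop (𝓝 fun J => (μ J C).toReal) := by
      rw [tendsto_pi_nhds]
      intro J
      rw [hreal J]
      show Tendsto (fun n => if J ∈ t then f ω₀ else gE β J (box d n) ω₀ f) atTop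
        (𝓝 (∫ σ, f σ ∂(if J ∈ t then Measure.dirac ω₀ else π₀ J)))
      by_cases hJ : J ∈ t
      · simp only [if_pos hJ]
        rw [integral_dirac]
        exact tendsto_const_nhds
      · simp only [if_neg hJ]
        exact (hG J hJ).2 s f hfl
    have hm : Measurable (fun J => (μ J C).toReal) :=
      measurable_of_tendsto_metrizable hFn hlim
    have he : (fun J => μ J C) = fun J => ENNReal.ofReal ((μ J C).toReal) := by
      funext J
      rw [ENNReal.ofReal_toReal (measure_ne_top _ _)]
    rw [he]
    exact hm.ennreal_ofReal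
  refine ⟨fun J => ⟨μ J, hμp J⟩, hμm.subtype_mk, ?_⟩
  have hae : ∀ᵐ J ∂(couplingLaw d), J ∉ t := measure_eq_zero_iff_ae_notMem.mp ht3
  filter_upwards [hae] with J hJ
  show (if J ∈ t then Measure.dirac ω₀ else π₀ J) = π₀ J
  rw [if_neg hJ]

/-- the diagonal is measurable -/
theorem meas_diag (π : Coupling d → ProbabilityMeasure (Site d → Bool)) (hπ : Measurable π) :
    MeasurableSet {q : Pair d | q.2 = π q.1} := by
  have h1 : {q : Pair d | q.2 = π q.1} =
      ⋂ i : (Σ A : Finset (Site d), (A → Bool)), {q : Pair d |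
        ∫ σ, cyl i.1 i.2 σ ∂(q.2 : Measure (Site d → Bool)) =
        ∫ σ, cyl i.1 i.2 σ ∂(π q.1 : Measure (Site d → Bool))} := by
    ext q
    simp only [Set.mem_ofPred_eq, Set.mem_iInter]
    constructor
    · intro h i
      rw [h]
    · intro h
      apply ProbabilityMeasure.toMeasure_injective
      apply state_ext
      intro A f hf
      have hdec : ∀ (Γ : Measure (Site d → Bool)) [IsProbabilityMeasure Γ], ∫ σ, f σ ∂Γ =
          ∑ η : A → Bool, f (glue A η (fun _ => true)) * ∫ σ, cyl A η σ ∂Γ := by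
        intro Γ _
        conv_lhs => rw [local_decomp hf]
        rw [integral_finsetSum]
        · exact Finset.sum_congr rfl fun η _ => integral_const_mul _ _
        · intro η _
          exact (((LocalOn.bd (cyl_local A η)).smul _).int Γ)
      rw [hdec, hdec]
      exact Finset.sum_congr rfl fun η _ => by rw [h ⟨A, η⟩]
  rw [h1]
  refine MeasurableSet.iInter fun i => ?_
  have hb := LocalOn.bd (cyl_local i.1 i.2)
  exact measurableSet_eq_fun ((int_meas _ hb).comp measurable_snd)
    ((int_meas _ hb).comp (hπ.comp measurable_fst))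

/-- the law of `(J, π_J)` is a metastate -/
theorem exists_metastate (β : ℝ) (π : Coupling d → ProbabilityMeasure (Site d → Bool))
    (hπ : Measurable π)
    (h : ∀ᵐ J ∂(couplingLaw d), IsGibbs β J (π J : Measure (Site d → Bool)) ∧
      IsLim β J (π J : Measure (Site d → Bool))) :
    IsMetastate β ((couplingLaw d).map fun J => (J, π J)) := by
  have hg : Measurable (fun J : Coupling d => (J, π J)) := measurable_id.prodMk hπ
  have hmarg : ((couplingLaw d).map fun J => (J, π J)).map Prod.fst = couplingLaw d := by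
    rw [Measure.map_map measurable_fst hg]
    exact Measure.map_id
  refine ⟨hmarg, ?_, ?_⟩
  · have h1 : ∀ᵐ q ∂((couplingLaw d).map fun J => (J, π J)), q.2 = π q.1 := by
      rw [ae_map_iff hg.aemeasurable (meas_diag π hπ)]
      exact ae_of_all _ fun J => rfl
    have h2 : ∀ᵐ q ∂((couplingLaw d).map fun J => (J, π J)),
        IsGibbs β q.1 (π q.1 : Measure (Site d → Bool)) := by
      have h3 : ∀ᵐ J ∂(((couplingLaw d).map fun J => (J, π J)).map Prod.fst),
          IsGibbs β J (π J : Measure (Site d → Bool)) := by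
        rw [hmarg]
        filter_upwards [h] with J hJ
        exact hJ.1
      exact ae_of_ae_map measurable_fst.aemeasurable h3
    filter_upwards [h1, h2] with q hq1 hq2
    rw [hq1]
    exact hq2
  · intro e
    rw [Measure.map_map (TT_meas β {e}) hg]
    have h1 : ∀ᵐ J ∂(couplingLaw d),
        (TT β {e} ∘ fun J => (J, π J)) J = ((fun J => (J, π J)) ∘ flipS {e}) J := by
      have h2 : ∀ᵐ J ∂(couplingLaw d), IsLim β (flipS {e} J)
          (π (flipS {e} J) : Measure (Site d → Bool)) := by
        have h3 : ∀ᵐ J ∂((couplingLaw d).map (flipS {e})), IsGibbs β J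
          (π J : Measure (Site d → Bool)) ∧ IsLim β J (π J : Measure (Site d → Bool)) := by
          rw [(mp_flipS {e}).map_eq]
          exact h
        filter_upwards [ae_of_ae_map (measurable_flipS {e}).aemeasurable h3] with J hJ
        exact hJ.2
      filter_upwards [h, h2] with J hJ hJ2
      show (flipS {e} J, tl β J {e} (π J)) = (flipS {e} J, π (flipS {e} J))
      rw [lim_cov β J e (π J) (π (flipS {e} J)) hJ.2 hJ2]
    rw [Measure.map_congr h1, ← Measure.map_map hg (measurable_flipS {e}), (mp_flipS {e}).map_eq]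

/-- **The theorem.** -/
theorem full {β K p : ℝ} (hp0 : 0 < p) (hp1 : p < 1) (hD : Dec d β K (p ^ 2)) :
    ∃ π : Coupling d → ProbabilityMeasure (Site d → Bool), Measurable π ∧
      (∀ᵐ J ∂(couplingLaw d), IsGibbs β J (π J : Measure (Site d → Bool)) ∧
        (π J : Measure (Site d → Bool)).map neg = π J) ∧
      (∀ x y : Site d, ∫ J, (∫ σ, sg (σ x) * sg (σ y) ∂(π J : Measure (Site d → Bool))) ^ 2
        ∂(couplingLaw d) ≤ (cSaw d (dist1 x y) : ℝ) * Real.tanh β ^ (2 * dist1 x y)) ∧
      (∀ (Λ : ℕ → Finset (Site d)) (Ω : ℕ → Coupling d → Site d → Bool),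
        (∀ n, box d n ⊆ Λ n ∧ Measurable (Ω n) ∧ Indep (Λ n) (Ω n)) →
        ∀ᵐ J ∂(couplingLaw d), ∀ (A : Finset (Site d)) (f : (Site d → Bool) → ℝ), LocalOn A f →
          ∃ K : ℝ, ∀ n, |gE β J (Λ n) (Ω n J) f - ∫ σ, f σ ∂(π J : Measure (Site d → Bool))| ≤
            K * p ^ n) ∧
      IsMetastate β ((couplingLaw d).map fun J => (J, π J)) ∧
      ∀ κ : Measure (Pair d), IsMetastate β κ → κ = (couplingLaw d).map fun J => (J, π J) := by
  obtain ⟨π₀, h1, h2, h3⟩ := weak_uniqueness hp0 hp1 hD
  have hlim : ∀ᵐ J ∂(couplingLaw d), IsLim β J (π₀ J) := by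
    filter_upwards [h3 (fun n => box d n) (fun _ _ _ => true)
      (fun n => ⟨Finset.Subset.refl _, measurable_const, Indep_const _ _⟩)] with J hJ
    intro A f hf
    obtain ⟨K', hK'⟩ := hJ A f hf
    rw [tendsto_iff_norm_sub_tendsto_zero]
    refine squeeze_zero (fun n => norm_nonneg _) (fun n => hK' n) (g := fun n => K' * p ^ n) ?_
    have := (tendsto_pow_atTop_nhds_zero_of_lt_one hp0.le hp1).const_mul K'
    rwa [mul_zero] at this
  obtain ⟨π, hπm, hπ⟩ := exists_meas_version β π₀ (by
    filter_upwards [h1, hlim] with J hJ hJ2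
    exact ⟨hJ.1.1, hJ2⟩)
  have hG : ∀ᵐ J ∂(couplingLaw d), IsGibbs β J (π J : Measure (Site d → Bool)) ∧
      IsLim β J (π J : Measure (Site d → Bool)) := by
    filter_upwards [h1, hlim, hπ] with J hJ hJ2 hJ3
    rw [hJ3]
    exact ⟨hJ.1, hJ2⟩
  have hg : Measurable (fun J : Coupling d => (J, π J)) := measurable_id.prodMk hπm
  refine ⟨π, hπm, ?_, ?_, ?_, exists_metastate β π hπm hG, ?_⟩
  · filter_upwards [h1, hπ] with J hJ hJ3
    rw [hJ3]
    exact hJ
  · intro x y
    refine le_trans (le_of_eq ?_) (h2 x y)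
    apply integral_congr_ae
    filter_upwards [hπ] with J hJ
    rw [hJ]
  · intro Λ Ω h
    filter_upwards [h3 Λ Ω h, hπ] with J hJ hJ3
    rw [hJ3]
    exact hJ
  · intro κ hκ
    have h4 := meta_unique hp0 hp1 hD (fun J => (π J : Measure (Site d → Bool))) hG κ hκ
    have h5 : κ = κ.map id := Measure.map_id.symm
    have h6 : ∀ᵐ q ∂κ, id q = ((fun J : Coupling d => (J, π J)) ∘ Prod.fst) q := by
      filter_upwards [h4] with q hq
      show q = (q.1, π q.1)
      exact Prod.ext rfl (Subtype.ext hq)
    rw [h5, Measure.map_congr h6, ← Measure.map_map hg measurable_fst, hκ.marginal]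

end Pool.H981EA
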