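import Pool.Agent.Run7.h981.EA.Lim

/-!
# Edwards–Anderson model: the theorem on weak uniqueness
-/

set_option autoImplicit false

open MeasureTheory Filter Topology

namespace Pool.H981EA

open Pool.H47EA Pool.H47EA.Basic

variable {d : ℕ}

/-! ### covariances in finite volume -/

theorem cov_eq (β : ℝ) (J : Coupling d) (Λ : Finset (Site d)) (τ : Site d → Bool) (y : Site d)
    (hy : y ∈ Λ) (f : (Site d → Bool) → ℝ) :
    gE β J Λ τ (fun σ => f σ * sg (σ y)) - gE β J Λ τ f * gE β J Λ τ (fun σ => sg (σ y)) =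
      4 * (gE β J Λ τ (ind y) * (1 - gE β J Λ τ (ind y))) * Inf β J (Λ.erase y) τ y f := by
  have h1 := gE_cond β J Λ τ y hy f
  have h2 := gE_cond β J Λ τ y hy (fun σ => f σ * sg (σ y))
  have h3 := gE_cond β J Λ τ y hy (fun σ => sg (σ y))
  have hval : ∀ (b : Bool) (η : {x // x ∈ Λ.erase y} → Bool),
      glue (Λ.erase y) η (Function.update τ y b) y = b := by
    intro b η
    rw [glue_not_mem _ _ (Finset.notMem_erase y Λ), Function.update_self]
  have ht : ∀ b : Bool, gE β J (Λ.erase y) (Function.update τ y b) (fun σ => f σ * sg (σ y)) =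
      sg b * gE β J (Λ.erase y) (Function.update τ y b) f := by
    intro b
    have e1 : gE β J (Λ.erase y) (Function.update τ y b) (fun σ => f σ * sg (σ y)) =
        gE β J (Λ.erase y) (Function.update τ y b) (fun σ => sg b * f σ + 0 * f σ) := by
      apply gE_congr
      intro η
      rw [hval b η]
      ring
    rw [e1, gE_lin]
    ring
  have hs : ∀ b : Bool, gE β J (Λ.erase y) (Function.update τ y b) (fun σ => sg (σ y)) = sg b := by
    intro b
    rw [gE_congr β J (Λ.erase y) _ (fun σ => sg (σ y)) (fun _ => sg b)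
      (fun η => by rw [hval b η]), gE_const]
  rw [ht, ht] at h2
  rw [hs, hs] at h3
  unfold Inf
  rw [h2, h3]
  set p := gE β J Λ τ (ind y)
  set a := gE β J (Λ.erase y) (Function.update τ y true) f
  set b := gE β J (Λ.erase y) (Function.update τ y false) f
  rw [h1]
  simp only [sg, if_true, Bool.false_eq_true, if_false]
  ring

theorem cov_sq_le (β : ℝ) (J : Coupling d) (Λ : Finset (Site d)) (τ : Site d → Bool) (y : Site d)
    (hy : y ∈ Λ) (f : (Site d → Bool) → ℝ) :
    (gE β J Λ τ (fun σ => f σ * sg (σ y)) - gE β J Λ τ f * gE β J Λ τ (fun σ => sg (σ y))) ^ 2 ≤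
      Inf β J (Λ.erase y) τ y f ^ 2 := by
  rw [cov_eq β J Λ τ y hy f, mul_pow]
  have h := ind_mem β J Λ τ y
  set p := gE β J Λ τ (ind y)
  have h1 : 0 ≤ 4 * (p * (1 - p)) := by nlinarith [h.1, h.2]
  have h2 : 4 * (p * (1 - p)) ≤ 1 := by nlinarith [sq_nonneg (2 * p - 1)]
  have h3 : (4 * (p * (1 - p))) ^ 2 ≤ 1 := pow_le_one₀ h1 h2
  exact mul_le_of_le_one_left (sq_nonneg _) h3

theorem sg_abs (b : Bool) : |sg b| ≤ 1 := by cases b <;> simp [sg]

/-- mean square decay of the covariance of two spins -/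
theorem cov_bound (β : ℝ) (hβ : 0 ≤ β) (Λ : Finset (Site d))
    (Ω : Coupling d → Site d → Bool) (hΩ : Measurable Ω) (hI : Indep Λ Ω) (x y : Site d)
    (hy : y ∈ Λ) :
    ∫ J, (gE β J Λ (Ω J) (fun σ => sg (σ x) * sg (σ y)) -
      gE β J Λ (Ω J) (fun σ => sg (σ x)) * gE β J Λ (Ω J) (fun σ => sg (σ y))) ^ 2
        ∂(couplingLaw d) ≤ (cSaw d (dist1 x y) : ℝ) * Real.tanh β ^ (2 * dist1 x y) := by
  have hloc : LocalOn {x} (fun σ : Site d → Bool => sg (σ x)) := by
    intro σ σ' h
    show sg (σ x) = sg (σ' x)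
    rw [h x (Finset.mem_singleton_self x)]
  have hlocy : LocalOn {y} (fun σ : Site d → Bool => sg (σ y)) := by
    intro σ σ' h
    show sg (σ y) = sg (σ' y)
    rw [h y (Finset.mem_singleton_self y)]
  have h1 := infl_sq β hβ {x} (fun σ => sg (σ x)) hloc 1 (fun σ => sg_abs _) (dist1 x y)
    (Λ.erase y) y (Finset.notMem_erase y Λ) ∅ (Finset.disjoint_empty_left _) Ω hΩ
    (hI.mono (Finset.erase_subset y Λ)) (by
      intro a ha
      rw [Finset.mem_singleton] at ha
      rw [ha, dist1_comm])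
  have hx : Measurable (fun σ : Site d → Bool => sg (σ x)) := LocalOn.meas hloc
  have hym : Measurable (fun σ : Site d → Bool => sg (σ y)) := LocalOn.meas hlocy
  have b1 : Bd (fun J => gE β J Λ (Ω J) (fun σ => sg (σ x) * sg (σ y))) :=
    Bd_gE β Λ Ω hΩ _ (hx.mul hym) 1 (by
      intro σ
      rw [abs_mul]
      exact mul_le_one₀ (sg_abs _) (abs_nonneg _) (sg_abs _))
  have b2 : Bd (fun J => gE β J Λ (Ω J) (fun σ => sg (σ x))) :=
    Bd_gE β Λ Ω hΩ _ hx 1 (fun σ => sg_abs _)
  have b3 : Bd (fun J => gE β J Λ (Ω J) (fun σ => sg (σ y))) :=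
    Bd_gE β Λ Ω hΩ _ hym 1 (fun σ => sg_abs _)
  have b4 := Bd_Inf β (Λ.erase y) Ω hΩ y _ hx 1 (fun σ => sg_abs _)
  refine (integral_mono (b1.sub (b2.mul b3)).sq.int b4.sq.int
    (fun J => cov_sq_le β J Λ (Ω J) y hy (fun σ => sg (σ x)))).trans (h1.trans ?_)
  have h2 : (saw (dist1 x y) (∅ : Finset (Site d)) y : ℝ) ≤ (cSaw d (dist1 x y) : ℝ) := by
    exact_mod_cast saw_le (dist1 x y) ∅ y
  have ht : 0 ≤ Real.tanh β ^ (2 * dist1 x y) := by rw [pow_mul]; positivity
  calc (1 : ℝ) ^ 2 * (Real.tanh β ^ (2 * dist1 x y) *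
        (saw (dist1 x y) (∅ : Finset (Site d)) y : ℝ))
      = Real.tanh β ^ (2 * dist1 x y) * (saw (dist1 x y) (∅ : Finset (Site d)) y : ℝ) := by ring
    _ ≤ Real.tanh β ^ (2 * dist1 x y) * (cSaw d (dist1 x y) : ℝ) :=
        mul_le_mul_of_nonneg_left h2 ht
    _ = _ := by ring

/-! ### global flip of the spins -/

/-- the global flip -/
def neg (σ : Site d → Bool) : Site d → Bool := fun x => !(σ x)

theorem glue_neg (Λ : Finset (Site d)) (η : Λ → Bool) (τ : Site d → Bool) :
    glue Λ (fun x => !(η x)) (neg τ) = neg (glue Λ η τ) := by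
  funext x
  unfold neg glue
  by_cases h : x ∈ Λ <;> simp [h]

theorem ham_neg (J : Coupling d) (Λ : Finset (Site d)) (σ : Site d → Bool) :
    ham J Λ (neg σ) = ham J Λ σ := by
  unfold ham
  apply Finset.sum_congr rfl
  intro e _
  induction e using Sym2.ind with
  | _ x y =>
    rw [bond_mk, bond_mk]
    unfold neg
    rw [sg_not, sg_not]
    ring

theorem gE_neg (β : ℝ) (J : Coupling d) (Λ : Finset (Site d)) (τ : Site d → Bool)
    (f : (Site d → Bool) → ℝ) :
    gE β J Λ (neg τ) f = gE β J Λ τ (fun σ => f (neg σ)) := by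
  let e : (Λ → Bool) ≃ (Λ → Bool) :=
    { toFun := fun η x => !(η x)
      invFun := fun η x => !(η x)
      left_inv := fun η => by funext x; simp
      right_inv := fun η => by funext x; simp }
  unfold gE Zp
  congr 1
  · rw [← Equiv.sum_comp e]
    apply Finset.sum_congr rfl
    intro η _
    show Real.exp (β * ham J Λ (glue Λ (fun x => !(η x)) (neg τ))) *
      f (glue Λ (fun x => !(η x)) (neg τ)) = _
    rw [glue_neg, ham_neg]
  · rw [← Equiv.sum_comp e]
    apply Finset.sum_congr rfl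
    intro η _
    show Real.exp (β * ham J Λ (glue Λ (fun x => !(η x)) (neg τ))) = _
    rw [glue_neg, ham_neg]

theorem LocalOn.neg {A : Finset (Site d)} {f : (Site d → Bool) → ℝ} (hf : LocalOn A f) :
    LocalOn A (fun σ => f (Pool.H981EA.neg σ)) := by
  intro σ σ' h
  apply hf
  intro x hx
  unfold Pool.H981EA.neg
  rw [h x hx]

theorem meas_neg : Measurable (neg : (Site d → Bool) → (Site d → Bool)) :=
  measurable_pi_lambda _ fun x =>
    (measurable_of_countable (fun b : Bool => !b)).comp (measurable_pi_apply x)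

/-- a probability measure on configurations is determined by the local observables -/
theorem state_ext (π π' : Measure (Site d → Bool)) [IsProbabilityMeasure π]
    [IsProbabilityMeasure π']
    (h : ∀ (A : Finset (Site d)) (f : (Site d → Bool) → ℝ), LocalOn A f →
      ∫ σ, f σ ∂π = ∫ σ, f σ ∂π') : π = π' := by
  refine MeasureTheory.ext_of_generate_finite (measurableCylinders fun _ : Site d => Bool)
    generateFrom_measurableCylinders.symm isPiSystem_measurableCylinders ?_ (by simp)
  intro C hC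
  obtain ⟨s, S, hS, rfl⟩ := (mem_measurableCylinders C).1 hC
  set C : Set (Site d → Bool) := cylinder (α := fun _ : Site d => Bool) s S with hCdef
  have hCm : MeasurableSet C := MeasurableSet.cylinder s hS
  set f : (Site d → Bool) → ℝ := C.indicator fun _ => (1 : ℝ) with hf
  have hfl : LocalOn s f := by
    intro σ σ' h
    have : σ ∈ C ↔ σ' ∈ C := by
      rw [hCdef, mem_cylinder, mem_cylinder]
      have : s.restrict σ = s.restrict σ' := by
        funext x; exact h x.1 x.2
      rw [this]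
    by_cases h1 : σ ∈ C
    · simp [hf, h1, this.1 h1]
    · have h2 : σ' ∉ C := fun h => h1 (this.2 h)
      simp [hf, h1, h2]
  have h1 := h s f hfl
  rw [hf, integral_indicator hCm, integral_indicator hCm, integral_const, integral_const,
    smul_eq_mul, smul_eq_mul, mul_one, mul_one, measureReal_restrict_apply MeasurableSet.univ,
    measureReal_restrict_apply MeasurableSet.univ, Set.univ_inter] at h1
  exact (ENNReal.toReal_eq_toReal_iff' (measure_ne_top _ _) (measure_ne_top _ _)).1 h1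

/-! ### the limit -/

/-- the almost sure comparison for one sequence of volumes and boundary conditions -/
theorem as_comp {β K p : ℝ} (hp0 : 0 < p) (hp1 : p < 1) (hD : Dec d β K (p ^ 2))
    (Λ : ℕ → Finset (Site d)) (Ω : ℕ → Coupling d → Site d → Bool)
    (h : ∀ n, box d n ⊆ Λ n ∧ Measurable (Ω n) ∧ Indep (Λ n) (Ω n)) :
    ∀ᵐ J ∂(couplingLaw d), ∀ (A : Finset (Site d)) (f : (Site d → Bool) → ℝ), LocalOn A f →
      ∃ K : ℝ, ∀ n, |gE β J (Λ n) (Ω n J) f - gE β J (box d n) (fun _ => true) f| ≤ K * p ^ n := by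
  have h1 : ∀ i : (Σ A : Finset (Site d), (A → Bool)), ∀ᵐ J ∂(couplingLaw d), ∃ K : ℝ, ∀ n,
      |gE β J (Λ n) (Ω n J) (cyl i.1 i.2) - gE β J (box d n) (fun _ => true) (cyl i.1 i.2)| ≤
        K * p ^ n := by
    rintro ⟨A, η⟩
    have hf := cyl_local A η
    have hfm := LocalOn.meas hf
    have hC := cyl_abs A η
    apply as_bound (fun n J => |gE β J (Λ n) (Ω n J) (cyl A η) -
      gE β J (box d n) (fun _ => true) (cyl A η)|)
    · intro n
      exact ((Bd_gE β (Λ n) (Ω n) (h n).2.1 _ hfm 1 hC).sub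
        (Bd_gE β (box d n) _ (measurable_const : Measurable
          (fun _ : Coupling d => (fun _ => true : Site d → Bool))) _ hfm 1 hC)).abs
    · intro n J
      exact abs_nonneg _
    · exact hp0
    · exact hp1
    · intro n hn
      exact comp hD A _ hf 1 hC one_pos (A.sup (fun v => dist1 0 v))
        (fun a ha => Finset.le_sup (f := fun v => dist1 0 v) ha) n hn (Λ n) (h n).1 (Ω n)
        (h n).2.1 (h n).2.2
  have h2 := ae_all_iff.mpr h1
  filter_upwards [h2] with J hJ
  exact all_local J Λ (fun n => box d n) (fun n => Ω n J) (fun _ _ => true)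
    (fun A η => hJ ⟨A, η⟩)

/-- **Weak uniqueness.** -/
theorem weak_uniqueness {β K p : ℝ} (hp0 : 0 < p) (hp1 : p < 1) (hD : Dec d β K (p ^ 2)) :
    ∃ π : Coupling d → Measure (Site d → Bool),
      (∀ᵐ J ∂(couplingLaw d), IsGibbs β J (π J) ∧ (π J).map neg = π J) ∧
      (∀ x y : Site d, ∫ J, (∫ σ, sg (σ x) * sg (σ y) ∂(π J)) ^ 2 ∂(couplingLaw d) ≤
        (cSaw d (dist1 x y) : ℝ) * Real.tanh β ^ (2 * dist1 x y)) ∧
      ∀ (Λ : ℕ → Finset (Site d)) (Ω : ℕ → Coupling d → Site d → Bool),
        (∀ n, box d n ⊆ Λ n ∧ Measurable (Ω n) ∧ Indep (Λ n) (Ω n)) →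
        ∀ᵐ J ∂(couplingLaw d), ∀ (A : Finset (Site d)) (f : (Site d → Bool) → ℝ), LocalOn A f →
          ∃ K : ℝ, ∀ n, |gE β J (Λ n) (Ω n J) f - ∫ σ, f σ ∂(π J)| ≤ K * p ^ n := by
  classical
  -- the reference sequence
  have hmono : ∀ n, box d n ⊆ box d (n + 1) := by
    intro n x hx
    rw [mem_box] at hx ⊢
    intro i
    have := hx i
    omega
  have h1 := as_comp hp0 hp1 hD (fun n => box d (n + 1)) (fun _ _ _ => true)
    (fun n => ⟨hmono n, measurable_const, Indep_const _ _⟩)
  let P : Coupling d → Measure (Site d → Bool) → Prop := fun J π =>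
    IsGibbs β J π ∧ ∀ (A : Finset (Site d)) (f : (Site d → Bool) → ℝ), LocalOn A f → ∃ K : ℝ,
      ∀ n, |gE β J (box d n) (fun _ => true) f - ∫ σ, f σ ∂π| ≤ K * p ^ n
  have h2 : ∀ᵐ J ∂(couplingLaw d), ∃ π, P J π := by
    filter_upwards [h1] with J hJ
    exact exists_state hp1 J hJ
  let π : Coupling d → Measure (Site d → Bool) := fun J =>
    if h : ∃ π, P J π then h.choose else 0
  have h3 : ∀ᵐ J ∂(couplingLaw d), P J (π J) := by
    filter_upwards [h2] with J hJ
    show P J (if h : ∃ π, P J π then h.choose else 0)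
    rw [dif_pos hJ]
    exact hJ.choose_spec
  have hmain : ∀ (Λ : ℕ → Finset (Site d)) (Ω : ℕ → Coupling d → Site d → Bool),
        (∀ n, box d n ⊆ Λ n ∧ Measurable (Ω n) ∧ Indep (Λ n) (Ω n)) →
        ∀ᵐ J ∂(couplingLaw d), ∀ (A : Finset (Site d)) (f : (Site d → Bool) → ℝ), LocalOn A f →
          ∃ K : ℝ, ∀ n, |gE β J (Λ n) (Ω n J) f - ∫ σ, f σ ∂(π J)| ≤ K * p ^ n := by
    intro Λ Ω h
    filter_upwards [as_comp hp0 hp1 hD Λ Ω h, h3] with J hJ hπ
    intro A f hf
    obtain ⟨K1, hK1⟩ := hJ A f hf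
    obtain ⟨K2, hK2⟩ := hπ.2 A f hf
    refine ⟨K1 + K2, fun n => ?_⟩
    have := abs_sub_le (gE β J (Λ n) (Ω n J) f) (gE β J (box d n) (fun _ => true) f)
      (∫ σ, f σ ∂(π J))
    have a1 := hK1 n
    have a2 := hK2 n
    rw [add_mul]
    linarith
  have htend : ∀ (a : ℕ → ℝ) (b : ℝ), (∃ K : ℝ, ∀ n, |a n - b| ≤ K * p ^ n) →
      Tendsto a atTop (𝓝 b) := by
    rintro a b ⟨K, hK⟩
    rw [tendsto_iff_norm_sub_tendsto_zero]
    apply squeeze_zero (fun n => norm_nonneg _) (fun n => hK n)
    have := (tendsto_pow_atTop_nhds_zero_of_lt_one hp0.le hp1).const_mul K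
    rwa [mul_zero] at this
  have hflip : ∀ᵐ J ∂(couplingLaw d), (π J).map neg = π J := by
    have h4 := hmain (fun n => box d n) (fun _ _ _ => false)
      (fun n => ⟨Finset.Subset.refl _, measurable_const, Indep_const _ _⟩)
    filter_upwards [h4, h3] with J hJ hπ
    have := hπ.1.1
    have : IsProbabilityMeasure ((π J).map neg) :=
      Measure.isProbabilityMeasure_map meas_neg.aemeasurable
    apply state_ext
    intro A f hf
    rw [integral_map meas_neg.aemeasurable (LocalOn.meas hf).aestronglyMeasurable]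
    have t1 := htend _ _ (hJ A f hf)
    have t2 := htend _ _ (hπ.2 A (fun σ => f (neg σ)) (LocalOn.neg hf))
    have e : ∀ n, gE β J (box d n) (fun _ => false) f =
        gE β J (box d n) (fun _ => true) (fun σ => f (neg σ)) := by
      intro n
      rw [← gE_neg]
      rfl
    simp only [e] at t1
    exact tendsto_nhds_unique t2 t1
  refine ⟨π, ?_, ?_, hmain⟩
  · filter_upwards [h3, hflip] with J h4 h5
    exact ⟨h4.1, h5⟩
  · intro x y
    have hlx : ∀ z : Site d, LocalOn {z} (fun σ : Site d → Bool => sg (σ z)) := by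
      intro z σ σ' h
      show sg (σ z) = sg (σ' z)
      rw [h z (Finset.mem_singleton_self z)]
    have hlxy : LocalOn {x, y} (fun σ : Site d → Bool => sg (σ x) * sg (σ y)) := by
      intro σ σ' h
      show sg (σ x) * sg (σ y) = sg (σ' x) * sg (σ' y)
      rw [h x (by simp), h y (by simp)]
    let G : ℕ → Coupling d → ℝ := fun n J =>
      (gE β J (box d n) (fun _ => true) (fun σ => sg (σ x) * sg (σ y)) -
        gE β J (box d n) (fun _ => true) (fun σ => sg (σ x)) *
          gE β J (box d n) (fun _ => true) (fun σ => sg (σ y))) ^ 2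
    have hmt : Measurable (fun _ : Coupling d => (fun _ => true : Site d → Bool)) :=
      measurable_const
    have b1 : ∀ n, Bd (fun J => gE β J (box d n) (fun _ => true)
        (fun σ => sg (σ x) * sg (σ y))) := fun n =>
      Bd_gE β (box d n) _ hmt _ (LocalOn.meas hlxy) 1 (by
        intro σ
        rw [abs_mul]
        exact mul_le_one₀ (sg_abs _) (abs_nonneg _) (sg_abs _))
    have b2 : ∀ n z, Bd (fun J => gE β J (box d n) (fun _ => true) (fun σ => sg (σ z))) :=
      fun n z => Bd_gE β (box d n) _ hmt _ (LocalOn.meas (hlx z)) 1 (fun σ => sg_abs _)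
    have hG : ∀ n, Bd (G n) := fun n => ((b1 n).sub ((b2 n x).mul (b2 n y))).sq
    have hGb : ∀ n J, |G n J| ≤ 4 := by
      intro n J
      have c1 := gE_abs_le β J (box d n) (fun _ => true) (fun σ => sg (σ x) * sg (σ y)) 1 (by
        intro σ
        rw [abs_mul]
        exact mul_le_one₀ (sg_abs _) (abs_nonneg _) (sg_abs _))
      have c2 := gE_abs_le β J (box d n) (fun _ => true) (fun σ => sg (σ x)) 1
        (fun σ => sg_abs _)
      have c3 := gE_abs_le β J (box d n) (fun _ => true) (fun σ => sg (σ y)) 1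
        (fun σ => sg_abs _)
      show |(gE β J (box d n) (fun _ => true) (fun σ => sg (σ x) * sg (σ y)) -
        gE β J (box d n) (fun _ => true) (fun σ => sg (σ x)) *
          gE β J (box d n) (fun _ => true) (fun σ => sg (σ y))) ^ 2| ≤ 4
      rw [abs_pow]
      have c4 : |gE β J (box d n) (fun _ => true) (fun σ => sg (σ x) * sg (σ y)) -
        gE β J (box d n) (fun _ => true) (fun σ => sg (σ x)) *
          gE β J (box d n) (fun _ => true) (fun σ => sg (σ y))| ≤ 2 := by
        refine (abs_sub _ _).trans ?_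
        rw [abs_mul]
        have := mul_le_one₀ c2 (abs_nonneg _) c3
        linarith
      calc _ ≤ (2 : ℝ) ^ 2 := pow_le_pow_left₀ (abs_nonneg _) c4 2
        _ = 4 := by norm_num
    have hlim : ∀ᵐ J ∂(couplingLaw d), Tendsto (fun n => G n J) atTop
        (𝓝 ((∫ σ, sg (σ x) * sg (σ y) ∂(π J)) ^ 2)) := by
      filter_upwards [h3, hflip] with J hπ hfl
      have t1 := htend _ _ (hπ.2 _ _ hlxy)
      have t2 := htend _ _ (hπ.2 _ _ (hlx x))
      have t3 := htend _ _ (hπ.2 _ _ (hlx y))
      have e0 : ∫ σ, sg (σ x) ∂(π J) = 0 := by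
        have e1 : ∫ σ, sg (σ x) ∂((π J).map neg) = ∫ σ, sg (neg σ x) ∂(π J) :=
          integral_map meas_neg.aemeasurable (LocalOn.meas (hlx x)).aestronglyMeasurable
        rw [hfl] at e1
        have e2 : ∀ σ : Site d → Bool, sg (neg σ x) = - sg (σ x) := fun σ => sg_not _
        simp only [e2] at e1
        rw [integral_neg] at e1
        linarith
      have t4 := (t1.sub (t2.mul t3)).pow 2
      rw [e0, zero_mul, sub_zero] at t4
      exact t4
    have hint := tendsto_integral_of_dominated_convergence (μ := couplingLaw d)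
      (F := G) (f := fun J => (∫ σ, sg (σ x) * sg (σ y) ∂(π J)) ^ 2) (fun _ => (4 : ℝ))
      (fun n => (hG n).1.aestronglyMeasurable) (integrable_const _)
      (fun n => ae_of_all _ fun J => hGb n J) hlim
    refine le_of_tendsto hint (Filter.eventually_atTop.mpr ⟨dist1 0 y, fun n hn => ?_⟩)
    exact cov_bound β hD.1 (box d n) _ hmt (Indep_const _ _) x y (mem_box_of_dist hn)

end Pool.H981EA
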