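import Pool.Agent.H47R2.EA.BASIC

/-!
# Edwards–Anderson model: flips of couplings, and an Efron–Stein inequality for odd functions
-/

set_option autoImplicit false

open MeasureTheory

namespace Pool.H981EA

open Pool.H47EA

variable {d : ℕ}

/-- the couplings of all edges in `s` are flipped -/
noncomputable def flipS (s : Finset ((lat d).edgeSet)) (J : Coupling d) : Coupling d :=
  fun e => if e ∈ s then !(J e) else J e

theorem flipS_flipS (s : Finset ((lat d).edgeSet)) (J : Coupling d) :
    flipS s (flipS s J) = J := by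
  funext e
  unfold flipS
  by_cases h : e ∈ s <;> simp [h]

theorem flipS_empty (J : Coupling d) : flipS ∅ J = J := by
  funext e
  simp [flipS]

theorem flipS_comm (s s' : Finset ((lat d).edgeSet)) (J : Coupling d) :
    flipS s (flipS s' J) = flipS s' (flipS s J) := by
  funext e
  unfold flipS
  by_cases h : e ∈ s <;> by_cases h' : e ∈ s' <;> simp [h, h']

theorem flipS_insert {s : Finset ((lat d).edgeSet)} {e : (lat d).edgeSet} (he : e ∉ s)
    (J : Coupling d) : flipS (insert e s) J = flipS {e} (flipS s J) := by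
  funext e'
  unfold flipS
  by_cases h : e' = e
  · subst h
    simp [he]
  · by_cases h' : e' ∈ s <;> simp [h, h']

theorem measurable_flipS (s : Finset ((lat d).edgeSet)) :
    Measurable (flipS s : Coupling d → Coupling d) := by
  refine measurable_pi_lambda _ fun e => ?_
  unfold flipS
  by_cases h : e ∈ s
  · simp only [h, if_true]
    exact (measurable_of_countable (fun b : Bool => !b)).comp (measurable_pi_apply e)
  · simp only [h, if_false]
    exact measurable_pi_apply e

theorem unif_map_not :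
    ((PMF.uniformOfFintype Bool).toMeasure).map (fun b => !b) =
      (PMF.uniformOfFintype Bool).toMeasure := by
  classical
  ext A hA
  rw [Measure.map_apply (measurable_of_countable _) hA,
    PMF.toMeasure_uniformOfFintype_apply A hA,
    PMF.toMeasure_uniformOfFintype_apply ((fun b => !b) ⁻¹' A) ((measurable_of_countable _) hA)]
  congr 2
  apply Fintype.card_congr
  exact {
    toFun := fun x => ⟨!x.1, x.2⟩
    invFun := fun x => ⟨!x.1, by
      show (!(!x.1)) ∈ A
      rw [Bool.not_not]
      exact x.2⟩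
    left_inv := fun x => by simp
    right_inv := fun x => by simp }

theorem mp_flipS (s : Finset ((lat d).edgeSet)) :
    MeasurePreserving (flipS s) (couplingLaw d) (couplingLaw d) := by
  refine ⟨measurable_flipS s, ?_⟩
  unfold couplingLaw
  have h := Measure.infinitePi_map_pi (μ := fun _ : (lat d).edgeSet =>
    (PMF.uniformOfFintype Bool).toMeasure)
    (f := fun e b => if e ∈ s then !b else b) (fun e => measurable_of_countable _)
  have h2 : ∀ e : (lat d).edgeSet, ((PMF.uniformOfFintype Bool).toMeasure).map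
      (fun b => if e ∈ s then !b else b) = (PMF.uniformOfFintype Bool).toMeasure := by
    intro e
    by_cases he : e ∈ s
    · simp only [he, if_true]
      exact unif_map_not
    · simp only [he, if_false]
      exact Measure.map_id
  simp only [h2] at h
  exact h

/-- bounded measurable functions of the couplings -/
def Bd (h : Coupling d → ℝ) : Prop := Measurable h ∧ ∃ C, ∀ J, |h J| ≤ C

theorem Bd.int {h : Coupling d → ℝ} (hh : Bd h) : Integrable h (couplingLaw d) := by
  obtain ⟨C, hC⟩ := hh.2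
  exact Integrable.of_bound hh.1.aestronglyMeasurable C (ae_of_all _ fun J => hC J)

theorem Bd.add {h k : Coupling d → ℝ} (hh : Bd h) (hk : Bd k) : Bd (fun J => h J + k J) := by
  obtain ⟨C, hC⟩ := hh.2
  obtain ⟨D, hD⟩ := hk.2
  exact ⟨hh.1.add hk.1, C + D, fun J => (abs_add_le _ _).trans (add_le_add (hC J) (hD J))⟩

theorem Bd.sub {h k : Coupling d → ℝ} (hh : Bd h) (hk : Bd k) : Bd (fun J => h J - k J) := by
  obtain ⟨C, hC⟩ := hh.2
  obtain ⟨D, hD⟩ := hk.2
  exact ⟨hh.1.sub hk.1, C + D, fun J => (abs_sub _ _).trans (add_le_add (hC J) (hD J))⟩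

theorem Bd.mul {h k : Coupling d → ℝ} (hh : Bd h) (hk : Bd k) : Bd (fun J => h J * k J) := by
  obtain ⟨C, hC⟩ := hh.2
  obtain ⟨D, hD⟩ := hk.2
  refine ⟨hh.1.mul hk.1, C * D, fun J => ?_⟩
  rw [abs_mul]
  exact mul_le_mul (hC J) (hD J) (abs_nonneg _) ((abs_nonneg _).trans (hC J))

theorem Bd.smul {h : Coupling d → ℝ} (c : ℝ) (hh : Bd h) : Bd (fun J => c * h J) := by
  obtain ⟨C, hC⟩ := hh.2
  refine ⟨hh.1.const_mul c, |c| * C, fun J => ?_⟩
  rw [abs_mul]
  exact mul_le_mul_of_nonneg_left (hC J) (abs_nonneg _)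

theorem Bd.div {h : Coupling d → ℝ} (c : ℝ) (hh : Bd h) : Bd (fun J => h J / c) := by
  have := hh.smul (1 / c)
  refine (funext fun J => ?_ : (fun J => h J / c) = fun J => 1 / c * h J) ▸ this
  ring

theorem Bd.sq {h : Coupling d → ℝ} (hh : Bd h) : Bd (fun J => h J ^ 2) := by
  have := hh.mul hh
  refine (funext fun J => ?_ : (fun J => h J ^ 2) = fun J => h J * h J) ▸ this
  ring

theorem Bd.abs {h : Coupling d → ℝ} (hh : Bd h) : Bd (fun J => |h J|) := by
  obtain ⟨C, hC⟩ := hh.2
  exact ⟨hh.1.abs, C, fun J => by rw [abs_abs]; exact hC J⟩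

theorem Bd.flip {h : Coupling d → ℝ} (hh : Bd h) (s : Finset ((lat d).edgeSet)) :
    Bd (fun J => h (flipS s J)) := by
  obtain ⟨C, hC⟩ := hh.2
  exact ⟨hh.1.comp (measurable_flipS s), C, fun J => hC _⟩

theorem int_flip {h : Coupling d → ℝ} (hh : Bd h) (s : Finset ((lat d).edgeSet)) :
    ∫ J, h (flipS s J) ∂(couplingLaw d) = ∫ J, h J ∂(couplingLaw d) := by
  have := integral_map (μ := couplingLaw d) (measurable_flipS s).aemeasurable
    (f := h) (hh.1.aestronglyMeasurable)
  rw [(mp_flipS s).map_eq] at this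
  exact this.symm

/-- half the increment under the flip of the couplings in `s` -/
noncomputable def Df (s : Finset ((lat d).edgeSet)) (h : Coupling d → ℝ) (J : Coupling d) : ℝ :=
  (h J - h (flipS s J)) / 2

/-- the average over the flip of the couplings in `s` -/
noncomputable def Pf (s : Finset ((lat d).edgeSet)) (h : Coupling d → ℝ) (J : Coupling d) : ℝ :=
  (h J + h (flipS s J)) / 2

theorem Bd.Df {h : Coupling d → ℝ} (hh : Bd h) (s : Finset ((lat d).edgeSet)) : Bd (Df s h) :=
  (hh.sub (hh.flip s)).div 2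

theorem Bd.Pf {h : Coupling d → ℝ} (hh : Bd h) (s : Finset ((lat d).edgeSet)) : Bd (Pf s h) :=
  (hh.add (hh.flip s)).div 2

theorem pyth {h : Coupling d → ℝ} (hh : Bd h) (s : Finset ((lat d).edgeSet)) :
    ∫ J, h J ^ 2 ∂(couplingLaw d) =
      ∫ J, Pf s h J ^ 2 ∂(couplingLaw d) + ∫ J, Df s h J ^ 2 ∂(couplingLaw d) := by
  rw [← integral_add (hh.Pf s).sq.int (hh.Df s).sq.int]
  have h1 : ∀ J, Pf s h J ^ 2 + Df s h J ^ 2 = h J ^ 2 / 2 + h (flipS s J) ^ 2 / 2 := by
    intro J
    unfold Pf Df
    ring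
  simp only [h1]
  rw [integral_add (hh.sq.div 2).int ((hh.flip s).sq.div 2).int, integral_div, integral_div,
    int_flip hh.sq s]
  ring

/-- contraction -/
theorem sq_Df_flip {h : Coupling d → ℝ} (hh : Bd h) (s : Finset ((lat d).edgeSet)) :
    ∫ J, Df s h J ^ 2 ∂(couplingLaw d) ≤ ∫ J, h J ^ 2 ∂(couplingLaw d) := by
  rw [pyth hh s]
  have : 0 ≤ ∫ J, Pf s h J ^ 2 ∂(couplingLaw d) := integral_nonneg fun J => sq_nonneg _
  linarith

theorem sq_Pf_flip {h : Coupling d → ℝ} (hh : Bd h) (s : Finset ((lat d).edgeSet)) :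
    ∫ J, Pf s h J ^ 2 ∂(couplingLaw d) ≤ ∫ J, h J ^ 2 ∂(couplingLaw d) := by
  rw [pyth hh s]
  have : 0 ≤ ∫ J, Df s h J ^ 2 ∂(couplingLaw d) := integral_nonneg fun J => sq_nonneg _
  linarith

theorem Df_Pf_comm (s s' : Finset ((lat d).edgeSet)) (h : Coupling d → ℝ) :
    Df s' (Pf s h) = Pf s (Df s' h) := by
  funext J
  unfold Df Pf
  rw [flipS_comm s s']
  ring

theorem Df_Df_comm (s s' : Finset ((lat d).edgeSet)) (h : Coupling d → ℝ) :
    Df s' (Df s h) = Df s (Df s' h) := by
  funext J
  unfold Df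
  rw [flipS_comm s s']
  ring

/-- Efron–Stein inequality for functions that are odd under the flip of all couplings in `s`. -/
theorem efron_stein (s : Finset ((lat d).edgeSet)) :
    ∀ h : Coupling d → ℝ, Bd h → (∀ J, h (flipS s J) = - h J) →
      ∫ J, h J ^ 2 ∂(couplingLaw d) ≤ ∑ e ∈ s, ∫ J, Df {e} h J ^ 2 ∂(couplingLaw d) := by
  induction s using Finset.induction_on with
  | empty =>
    intro h hh ho
    have h0 : ∀ J, h J = 0 := by
      intro J
      have := ho J
      rw [flipS_empty] at this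
      linarith
    simp [h0]
  | insert e s he ih =>
    intro h hh ho
    have ho' : ∀ J, h (flipS {e} (flipS s J)) = - h J := by
      intro J
      rw [← flipS_insert he]
      exact ho J
    have hk : ∀ J, Pf {e} h (flipS s J) = - Pf {e} h J := by
      intro J
      unfold Pf
      have h1 := ho' (flipS {e} J)
      rw [flipS_comm s {e} J, flipS_flipS] at h1
      rw [h1, ho' J]
      ring
    have h2 := ih (Pf {e} h) (hh.Pf {e}) hk
    rw [pyth hh {e}, Finset.sum_insert he]
    have h3 : ∑ e' ∈ s, ∫ J, Df {e'} (Pf {e} h) J ^ 2 ∂(couplingLaw d) ≤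
        ∑ e' ∈ s, ∫ J, Df {e'} h J ^ 2 ∂(couplingLaw d) := by
      apply Finset.sum_le_sum
      intro e' _
      rw [Df_Pf_comm]
      exact sq_Pf_flip (hh.Df {e'}) {e}
    linarith

end Pool.H981EA
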