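import Mathlib

/-!
# Efron–Stein inequality for commuting measure preserving involutions, and Borel–Cantelli
-/

set_option autoImplicit false

open MeasureTheory Filter Topology
open scoped ENNReal symmDiff

namespace Pool.H981EA.Gen

variable {X : Type} [MeasurableSpace X]

/-- bounded measurable functions -/
def Bd (h : X → ℝ) : Prop := Measurable h ∧ ∃ C, ∀ x, |h x| ≤ C

theorem Bd.int {h : X → ℝ} (hh : Bd h) (κ : Measure X) [IsProbabilityMeasure κ] :
    Integrable h κ := by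
  obtain ⟨C, hC⟩ := hh.2
  exact Integrable.of_bound hh.1.aestronglyMeasurable C (ae_of_all _ fun J => hC J)

theorem Bd.const (c : ℝ) : Bd (fun _ : X => c) := ⟨measurable_const, |c|, fun _ => le_refl _⟩

theorem Bd.add {h k : X → ℝ} (hh : Bd h) (hk : Bd k) : Bd (fun J => h J + k J) := by
  obtain ⟨C, hC⟩ := hh.2
  obtain ⟨D, hD⟩ := hk.2
  exact ⟨hh.1.add hk.1, C + D, fun J => (abs_add_le _ _).trans (add_le_add (hC J) (hD J))⟩

theorem Bd.sub {h k : X → ℝ} (hh : Bd h) (hk : Bd k) : Bd (fun J => h J - k J) := by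
  obtain ⟨C, hC⟩ := hh.2
  obtain ⟨D, hD⟩ := hk.2
  exact ⟨hh.1.sub hk.1, C + D, fun J => (abs_sub _ _).trans (add_le_add (hC J) (hD J))⟩

theorem Bd.mul {h k : X → ℝ} (hh : Bd h) (hk : Bd k) : Bd (fun J => h J * k J) := by
  obtain ⟨C, hC⟩ := hh.2
  obtain ⟨D, hD⟩ := hk.2
  refine ⟨hh.1.mul hk.1, C * D, fun J => ?_⟩
  rw [abs_mul]
  exact mul_le_mul (hC J) (hD J) (abs_nonneg _) ((abs_nonneg _).trans (hC J))

theorem Bd.smul {h : X → ℝ} (c : ℝ) (hh : Bd h) : Bd (fun J => c * h J) := by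
  obtain ⟨C, hC⟩ := hh.2
  refine ⟨hh.1.const_mul c, |c| * C, fun J => ?_⟩
  rw [abs_mul]
  exact mul_le_mul_of_nonneg_left (hC J) (abs_nonneg _)

theorem Bd.div {h : X → ℝ} (c : ℝ) (hh : Bd h) : Bd (fun J => h J / c) := by
  have := hh.smul (1 / c)
  refine (funext fun J => ?_ : (fun J => h J / c) = fun J => 1 / c * h J) ▸ this
  ring

theorem Bd.sq {h : X → ℝ} (hh : Bd h) : Bd (fun J => h J ^ 2) := by
  have := hh.mul hh
  refine (funext fun J => ?_ : (fun J => h J ^ 2) = fun J => h J * h J) ▸ this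
  ring

theorem Bd.abs {h : X → ℝ} (hh : Bd h) : Bd (fun J => |h J|) := by
  obtain ⟨C, hC⟩ := hh.2
  exact ⟨hh.1.abs, C, fun J => by rw [abs_abs]; exact hC J⟩

theorem Bd.comp {h : X → ℝ} (hh : Bd h) {T : X → X} (hT : Measurable T) :
    Bd (fun J => h (T J)) := by
  obtain ⟨C, hC⟩ := hh.2
  exact ⟨hh.1.comp hT, C, fun J => hC _⟩

/-- half the increment -/
noncomputable def Df (T : X → X) (h : X → ℝ) (x : X) : ℝ := (h x - h (T x)) / 2

/-- the average -/
noncomputable def Pf (T : X → X) (h : X → ℝ) (x : X) : ℝ := (h x + h (T x)) / 2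

theorem Bd.Df {h : X → ℝ} (hh : Bd h) {T : X → X} (hT : Measurable T) : Bd (Df T h) :=
  (hh.sub (hh.comp hT)).div 2

theorem Bd.Pf {h : X → ℝ} (hh : Bd h) {T : X → X} (hT : Measurable T) : Bd (Pf T h) :=
  (hh.add (hh.comp hT)).div 2

section

variable {κ : Measure X} [IsProbabilityMeasure κ]

theorem int_comp {h : X → ℝ} (hh : Bd h) {T : X → X} (hT : MeasurePreserving T κ κ) :
    ∫ x, h (T x) ∂κ = ∫ x, h x ∂κ := by
  have := integral_map (μ := κ) hT.measurable.aemeasurable (f := h)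
    (hh.1.aestronglyMeasurable)
  rw [hT.map_eq] at this
  exact this.symm

theorem pyth {h : X → ℝ} (hh : Bd h) {T : X → X} (hT : MeasurePreserving T κ κ) :
    ∫ x, h x ^ 2 ∂κ = ∫ x, Pf T h x ^ 2 ∂κ + ∫ x, Df T h x ^ 2 ∂κ := by
  rw [← integral_add ((hh.Pf hT.measurable).sq.int κ) ((hh.Df hT.measurable).sq.int κ)]
  have h1 : ∀ x, Pf T h x ^ 2 + Df T h x ^ 2 = h x ^ 2 / 2 + h (T x) ^ 2 / 2 := by
    intro x
    unfold Pf Df
    ring
  simp only [h1]
  rw [integral_add ((hh.sq.div 2).int κ) (((hh.comp hT.measurable).sq.div 2).int κ),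
    integral_div, integral_div, int_comp hh.sq hT]
  ring

theorem sq_Df {h : X → ℝ} (hh : Bd h) {T : X → X} (hT : MeasurePreserving T κ κ) :
    ∫ x, Df T h x ^ 2 ∂κ ≤ ∫ x, h x ^ 2 ∂κ := by
  rw [pyth hh hT]
  have : 0 ≤ ∫ x, Pf T h x ^ 2 ∂κ := integral_nonneg fun J => sq_nonneg _
  linarith

theorem sq_Pf {h : X → ℝ} (hh : Bd h) {T : X → X} (hT : MeasurePreserving T κ κ) :
    ∫ x, Pf T h x ^ 2 ∂κ ≤ ∫ x, h x ^ 2 ∂κ := by
  rw [pyth hh hT]
  have : 0 ≤ ∫ x, Df T h x ^ 2 ∂κ := integral_nonneg fun J => sq_nonneg _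
  linarith

theorem Df_Pf_comm {T T' : X → X} (hc : ∀ x, T (T' x) = T' (T x)) (h : X → ℝ) :
    Df T' (Pf T h) = Pf T (Df T' h) := by
  funext x
  unfold Df Pf
  rw [hc x]
  ring

theorem Df_Df_comm {T T' : X → X} (hc : ∀ x, T (T' x) = T' (T x)) (h : X → ℝ) :
    Df T' (Df T h) = Df T (Df T' h) := by
  funext x
  unfold Df
  rw [hc x]
  ring

/-- Efron–Stein inequality for odd functions. `T s` is the simultaneous flip of the coordinates
in `s`. -/
theorem efron_stein {ι : Type} [DecidableEq ι] (T : Finset ι → X → X)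
    (hT : ∀ s, MeasurePreserving (T s) κ κ) (h0 : ∀ x, T ∅ x = x)
    (hsd : ∀ s s' x, T s (T s' x) = T (s ∆ s') x) (s : Finset ι) :
    ∀ h : X → ℝ, Bd h → (∀ x, h (T s x) = - h x) →
      ∫ x, h x ^ 2 ∂κ ≤ ∑ e ∈ s, ∫ x, Df (T {e}) h x ^ 2 ∂κ := by
  have hcomm : ∀ s s' x, T s (T s' x) = T s' (T s x) := by
    intro s s' x
    rw [hsd, hsd, symmDiff_comm]
  have hinv : ∀ s x, T s (T s x) = x := by
    intro s x
    rw [hsd, symmDiff_self]
    exact h0 x
  induction s using Finset.induction_on with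
  | empty =>
    intro h hh ho
    have h1 : ∀ J, h J = 0 := by
      intro J
      have := ho J
      rw [h0] at this
      linarith
    simp [h1]
  | insert e s he ih =>
    intro h hh ho
    have hins : insert e s = {e} ∆ s := by
      ext x
      simp only [Finset.mem_insert, Finset.mem_symmDiff, Finset.mem_singleton]
      constructor
      · rintro (h | h)
        · left
          exact ⟨h, by rw [h]; exact he⟩
        · right
          exact ⟨h, by rintro rfl; exact he h⟩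
      · rintro (h | h)
        · exact Or.inl h.1
        · exact Or.inr h.1
    have ho' : ∀ J, h (T {e} (T s J)) = - h J := by
      intro J
      rw [hsd, ← hins]
      exact ho J
    have hk : ∀ J, Pf (T {e}) h (T s J) = - Pf (T {e}) h J := by
      intro J
      unfold Pf
      have h1 := ho' (T {e} J)
      rw [hcomm s {e} J, hinv] at h1
      rw [h1, ho' J]
      ring
    have h2 := ih (Pf (T {e}) h) (hh.Pf (hT {e}).measurable) hk
    rw [pyth hh (hT {e}), Finset.sum_insert he]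
    have h3 : ∑ e' ∈ s, ∫ J, Df (T {e'}) (Pf (T {e}) h) J ^ 2 ∂κ ≤
        ∑ e' ∈ s, ∫ J, Df (T {e'}) h J ^ 2 ∂κ := by
      apply Finset.sum_le_sum
      intro e' _
      rw [Df_Pf_comm (hcomm {e} {e'})]
      exact sq_Pf (hh.Df (hT {e'}).measurable) (hT {e})
    linarith

theorem int_abs_le {h : X → ℝ} (hh : Bd h) (B : ℝ) (hB : 0 < B)
    (h2 : ∫ J, h J ^ 2 ∂κ ≤ B ^ 2) : ∫ J, |h J| ∂κ ≤ B := by
  have h3 : ∀ J, |h J| ≤ (h J ^ 2) / (2 * B) + B / 2 := by
    intro J
    rw [div_add_div _ _ (by positivity) (by norm_num), le_div_iff₀ (by positivity)]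
    have := sq_nonneg (|h J| - B)
    rw [sub_sq, sq_abs] at this
    nlinarith
  have h4 := integral_mono (hh.abs.int κ) (((hh.sq.div (2 * B)).add (Bd.const (B / 2))).int κ) h3
  refine h4.trans ?_
  rw [integral_add ((hh.sq.div (2 * B)).int κ) (integrable_const _), integral_div,
    integral_const, probReal_univ, one_smul]
  have h6 : (∫ J, h J ^ 2 ∂κ) / (2 * B) ≤ B ^ 2 / (2 * B) :=
    div_le_div_of_nonneg_right h2 (by positivity)
  have h7 : B ^ 2 / (2 * B) = B / 2 := by field_simp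
  linarith

/-- Borel–Cantelli -/
theorem as_bound (Y : ℕ → X → ℝ) (hX : ∀ n, Bd (Y n)) (h0 : ∀ n J, 0 ≤ Y n J)
    (r : ℕ) (M p : ℝ) (hp0 : 0 < p) (hp1 : p < 1)
    (h : ∀ n, r ≤ n → ∫ J, Y n J ∂κ ≤ M * (p ^ 2) ^ n) :
    ∀ᵐ J ∂κ, ∃ K : ℝ, ∀ n, Y n J ≤ K * p ^ n := by
  have h1 : ∀ n, ∫⁻ J, ENNReal.ofReal (Y (n + r) J / p ^ (n + r)) ∂κ ≤
      ENNReal.ofReal (M * p ^ (n + r)) := by
    intro n
    rw [← ofReal_integral_eq_lintegral_ofReal (((hX (n + r)).div _).int κ)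
      (ae_of_all _ fun J => div_nonneg (h0 _ J) (by positivity))]
    apply ENNReal.ofReal_le_ofReal
    rw [integral_div, div_le_iff₀ (by positivity)]
    refine (h (n + r) (by omega)).trans (le_of_eq ?_)
    rw [← pow_mul]
    ring
  have hm : ∀ n, AEMeasurable (fun J => ENNReal.ofReal (Y (n + r) J / p ^ (n + r))) κ :=
    fun n => (((hX (n + r)).div (p ^ (n + r))).1.ennreal_ofReal).aemeasurable
  have h2 : ∫⁻ J, ∑' n, ENNReal.ofReal (Y (n + r) J / p ^ (n + r)) ∂κ ≠ ∞ := by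
    rw [lintegral_tsum hm]
    have h3 : ∑' n : ℕ, ENNReal.ofReal (M * p ^ (n + r)) ≠ ∞ := by
      have hs : Summable (fun n : ℕ => M * p ^ (n + r)) :=
        ((summable_nat_add_iff r).mpr (summable_geometric_of_lt_one hp0.le hp1)).mul_left M
      exact hs.tsum_ofReal_ne_top
    exact ne_top_of_le_ne_top h3 (ENNReal.tsum_le_tsum h1)
  have h4 := ae_lt_top' (AEMeasurable.tsum hm) h2
  filter_upwards [h4] with J hJ
  set S := ∑' n, ENNReal.ofReal (Y (n + r) J / p ^ (n + r)) with hS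
  refine ⟨S.toReal + ∑ n ∈ Finset.range r, Y n J / p ^ n, fun n => ?_⟩
  have hsum : 0 ≤ ∑ n ∈ Finset.range r, Y n J / p ^ n :=
    Finset.sum_nonneg fun i _ => div_nonneg (h0 i J) (by positivity)
  rw [← div_le_iff₀ (by positivity)]
  by_cases hn : n < r
  · have : Y n J / p ^ n ≤ ∑ n ∈ Finset.range r, Y n J / p ^ n :=
      Finset.single_le_sum (f := fun n => Y n J / p ^ n)
        (fun i _ => div_nonneg (h0 i J) (by positivity)) (Finset.mem_range.mpr hn)
    have h5 : 0 ≤ S.toReal := ENNReal.toReal_nonneg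
    linarith
  · push Not at hn
    have h5 : ENNReal.ofReal (Y (n - r + r) J / p ^ (n - r + r)) ≤ S :=
      ENNReal.le_tsum (f := fun n => ENNReal.ofReal (Y (n + r) J / p ^ (n + r))) (n - r)
    rw [Nat.sub_add_cancel hn] at h5
    have h6 := (ENNReal.ofReal_le_iff_le_toReal hJ.ne).mp h5
    linarith

end

end Pool.H981EA.Gen
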