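import Pool.Agent.Run7.h981.EA.Edge

/-!
# Edwards–Anderson model: the mean square influence of a boundary spin is bounded by a sum over
self-avoiding walks
-/

set_option autoImplicit false

open MeasureTheory

namespace Pool.H981EA

open Pool.H47EA Pool.H47EA.Basic

variable {d : ℕ}

/-- The number of `n`-step self-avoiding nearest-neighbour walks which start at `x` and whose
further sites avoid `S`, by recursion on the first step. -/
noncomputable def saw : ℕ → Finset (Site d) → Site d → ℕ
  | 0, _, _ => 1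
  | n + 1, S, x => ∑ y ∈ (nbr x).filter (fun y => y ∉ insert x S), saw n (insert x S) y

/-- `Ω` does not depend on the couplings of the edges that touch `Λ`. -/
def Indep (Λ : Finset (Site d)) (Ω : Coupling d → Site d → Bool) : Prop :=
  ∀ J J' : Coupling d, (∀ e : (lat d).edgeSet, e.1 ∉ edgesOf Λ → J e = J' e) → Ω J = Ω J'

theorem Indep.flip {Λ : Finset (Site d)} {Ω : Coupling d → Site d → Bool} (h : Indep Λ Ω)
    (s : Finset ((lat d).edgeSet)) (hs : ∀ e ∈ s, e.1 ∈ edgesOf Λ) (J : Coupling d) :
    Ω (flipS s J) = Ω J := by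
  apply h
  intro e he
  unfold flipS
  rw [if_neg]
  intro h'
  exact he (hs e h')

theorem Indep.mono {Λ Λ' : Finset (Site d)} {Ω : Coupling d → Site d → Bool} (h : Indep Λ Ω)
    (hs : Λ' ⊆ Λ) : Indep Λ' Ω := by
  intro J J' hJ
  apply h
  intro e he
  apply hJ
  intro h'
  exact he (edgesOf_mono hs h')

theorem Indep.update {Λ : Finset (Site d)} {Ω : Coupling d → Site d → Bool} (h : Indep Λ Ω)
    (v : Site d) (b : Bool) : Indep Λ (fun J => Function.update (Ω J) v b) := by
  intro J J' hJ
  show Function.update (Ω J) v b = Function.update (Ω J') v b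
  rw [h J J' hJ]

theorem Inf_abs_le (β : ℝ) (J : Coupling d) (Λ : Finset (Site d)) (τ : Site d → Bool)
    (v : Site d) (f : (Site d → Bool) → ℝ) (C : ℝ) (hC : ∀ σ, |f σ| ≤ C) :
    |Inf β J Λ τ v f| ≤ C := by
  have h1 := gE_abs_le β J Λ (Function.update τ v true) f C hC
  have h2 := gE_abs_le β J Λ (Function.update τ v false) f C hC
  rw [abs_le] at h1 h2 ⊢
  unfold Inf
  constructor <;> linarith [h1.1, h1.2, h2.1, h2.2]

theorem Bd_Inf (β : ℝ) (Λ : Finset (Site d)) (Ω : Coupling d → Site d → Bool)
    (hΩ : Measurable Ω) (v : Site d) (f : (Site d → Bool) → ℝ) (hf : Measurable f) (C : ℝ)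
    (hC : ∀ σ, |f σ| ≤ C) : Bd (fun J : Coupling d => Inf β J Λ (Ω J) v f) :=
  ((Bd_gE β Λ _ (meas_update hΩ v measurable_const) f hf C hC).sub
    (Bd_gE β Λ _ (meas_update hΩ v measurable_const) f hf C hC)).div 2

/-- The mean square influence of the spin at `v ∉ Λ` on a local observable. -/
theorem infl_sq (β : ℝ) (hβ : 0 ≤ β) (A : Finset (Site d)) (f : (Site d → Bool) → ℝ)
    (hf : LocalOn A f) (C : ℝ) (hC : ∀ σ, |f σ| ≤ C) (m : ℕ) :
    ∀ (Λ : Finset (Site d)) (v : Site d), v ∉ Λ → ∀ S : Finset (Site d), Disjoint S Λ →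
      ∀ Ω : Coupling d → Site d → Bool, Measurable Ω → Indep Λ Ω →
      (∀ a ∈ A, m ≤ dist1 v a) →
      ∫ J, Inf β J Λ (Ω J) v f ^ 2 ∂(couplingLaw d) ≤
        C ^ 2 * (Real.tanh β ^ (2 * m) * (saw m S v : ℝ)) := by
  have hfm : Measurable f := LocalOn.meas hf
  induction m with
  | zero =>
    intro Λ v hv S hS Ω hΩ hI hd
    have h1 : ∀ J, Inf β J Λ (Ω J) v f ^ 2 ≤ C ^ 2 := by
      intro J
      rw [← sq_abs]
      have := Inf_abs_le β J Λ (Ω J) v f C hC
      exact pow_le_pow_left₀ (abs_nonneg _) this 2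
    have h2 := integral_mono (Bd_Inf β Λ Ω hΩ v f hfm C hC).sq.int
      (integrable_const (μ := couplingLaw d) (C ^ 2)) h1
    refine h2.trans ?_
    simp [saw]
  | succ m ih =>
    intro Λ v hv S hS Ω hΩ hI hd
    have hvA : v ∉ A := by
      intro hvA
      have := hd v hvA
      have h0 : dist1 v v = 0 := by simp [dist1]
      omega
    -- the function of the couplings
    let g : Coupling d → ℝ := fun J => gE β J Λ (Function.update (Ω J) v true) f
    have hg : Bd g := Bd_gE β Λ _ (meas_update hΩ v measurable_const) f hfm C hC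
    let s := star v Λ
    have hh : (fun J => Inf β J Λ (Ω J) v f) = Df s g := by
      funext J
      show (gE β J Λ (Function.update (Ω J) v true) f -
        gE β J Λ (Function.update (Ω J) v false) f) / 2 = (g J - g (flipS s J)) / 2
      rw [gE_flip_star β J Λ (Ω J) v hv A hvA f hf]
      show (g J - gE β (flipS (star v Λ) J) Λ (Function.update (Ω J) v true) f) / 2 =
        (g J - gE β (flipS s J) Λ (Function.update (Ω (flipS s J)) v true) f) / 2
      rw [hI.flip s (star_sub v Λ) J]
    have hodd : ∀ J, Df s g (flipS s J) = - Df s g J := by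
      intro J
      unfold Df
      rw [flipS_flipS]
      ring
    have h1 := efron_stein s (Df s g) (hg.Df s) hodd
    have h2 : ∑ e ∈ s, ∫ J, Df {e} (Df s g) J ^ 2 ∂(couplingLaw d) ≤
        ∑ e ∈ s, ∫ J, Df {e} g J ^ 2 ∂(couplingLaw d) := by
      apply Finset.sum_le_sum
      intro e _
      rw [Df_Df_comm]
      exact sq_Df_flip (hg.Df {e}) s
    have hinj : Set.InjOn (fun w : {w // w ∈ (nbr v).filter (fun w => w ∈ Λ)} =>
        ed v w.1 (mem_nbr.mp (Finset.mem_filter.mp w.2).1))
        (((nbr v).filter (fun w => w ∈ Λ)).attach : Set _) := by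
      intro w _ w' _ he
      have he' : s(v, w.1) = s(v, w'.1) := congrArg Subtype.val he
      rw [Sym2.eq_iff] at he'
      apply Subtype.ext
      rcases he' with ⟨_, h⟩ | ⟨h, h'⟩
      · exact h
      · exfalso
        apply hv
        rw [h]
        exact (Finset.mem_filter.mp w'.2).2
    have h3 : ∑ e ∈ s, ∫ J, Df {e} g J ^ 2 ∂(couplingLaw d) =
        ∑ w ∈ ((nbr v).filter (fun w => w ∈ Λ)).attach,
          ∫ J, Df {ed v w.1 (mem_nbr.mp (Finset.mem_filter.mp w.2).1)} g J ^ 2
            ∂(couplingLaw d) := by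
      show ∑ e ∈ star v Λ, _ = _
      unfold star
      rw [Finset.sum_image hinj]
    have h4 : ∀ w ∈ ((nbr v).filter (fun w => w ∈ Λ)).attach,
        ∫ J, Df {ed v w.1 (mem_nbr.mp (Finset.mem_filter.mp w.2).1)} g J ^ 2 ∂(couplingLaw d) ≤
          Real.tanh β ^ 2 * (C ^ 2 * (Real.tanh β ^ (2 * m) *
            (saw m (insert v S) w.1 : ℝ))) := by
      rintro ⟨w, hw⟩ _
      have hw1 : dist1 v w = 1 := mem_nbr.mp (Finset.mem_filter.mp hw).1
      have hw2 : w ∈ Λ := (Finset.mem_filter.mp hw).2
      have hI' : Indep (Λ.erase w) (fun J => Function.update (Ω J) v true) :=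
        (hI.mono (Finset.erase_subset w Λ)).update v true
      have hΩ' : Measurable (fun J => Function.update (Ω J) v true) :=
        meas_update hΩ v measurable_const
      have h5 := ih (Λ.erase w) w (Finset.notMem_erase w Λ) (insert v S) (by
        rw [Finset.disjoint_insert_left]
        exact ⟨fun h => hv (Finset.mem_of_mem_erase h),
          Finset.disjoint_of_subset_right (Finset.erase_subset w Λ) hS⟩)
        (fun J => Function.update (Ω J) v true) hΩ' hI' (by
          intro a ha
          have h6 := hd a ha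
          have h7 : dist1 v a ≤ dist1 v w + dist1 w a := by
            unfold dist1
            rw [← Finset.sum_add_distrib]
            apply Finset.sum_le_sum
            intro i _
            omega
          omega)
      refine le_trans ?_ (mul_le_mul_of_nonneg_left h5 (sq_nonneg _))
      rw [← integral_const_mul]
      refine integral_mono (hg.Df _).sq.int
        ((Bd_Inf β (Λ.erase w) _ hΩ' w f hfm C hC).sq.smul _).int ?_
      intro J
      show ((g J - g (flipS {ed v w hw1} J)) / 2) ^ 2 ≤ _
      have h8 : g (flipS {ed v w hw1} J) =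
          gE β (flipS {ed v w hw1} J) Λ (Function.update (Ω J) v true) f := by
        show gE β (flipS {ed v w hw1} J) Λ
          (Function.update (Ω (flipS {ed v w hw1} J)) v true) f = _
        rw [hI.flip {ed v w hw1} (by
          intro e he
          rw [Finset.mem_singleton] at he
          rw [he]
          exact mem_edgesOf.mpr ⟨w, hw2, v, by rw [dist1_comm]; exact hw1, Sym2.eq_swap⟩) J]
      rw [h8]
      exact gE_flip_one β hβ J Λ (Function.update (Ω J) v true) v w hw1 hv hw2 f
    have h5 := Finset.sum_le_sum h4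
    rw [Finset.sum_attach ((nbr v).filter (fun w => w ∈ Λ))
      (fun w => Real.tanh β ^ 2 * (C ^ 2 * (Real.tanh β ^ (2 * m) *
            (saw m (insert v S) w : ℝ))))] at h5
    have h6 : ∑ w ∈ (nbr v).filter (fun w => w ∈ Λ),
        Real.tanh β ^ 2 * (C ^ 2 * (Real.tanh β ^ (2 * m) * (saw m (insert v S) w : ℝ))) ≤
        ∑ w ∈ (nbr v).filter (fun w => w ∉ insert v S),
        Real.tanh β ^ 2 * (C ^ 2 * (Real.tanh β ^ (2 * m) * (saw m (insert v S) w : ℝ))) := by
      apply Finset.sum_le_sum_of_subset_of_nonneg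
      · intro w hw
        rw [Finset.mem_filter] at hw ⊢
        refine ⟨hw.1, ?_⟩
        rw [Finset.mem_insert, not_or]
        refine ⟨fun h => hv (h ▸ hw.2), fun h => ?_⟩
        exact (Finset.disjoint_left.mp hS h) hw.2
      · intro w _ _
        have : 0 ≤ Real.tanh β ^ (2 * m) := by
          rw [pow_mul]
          positivity
        positivity
    have h7 : ∑ w ∈ (nbr v).filter (fun w => w ∉ insert v S),
        Real.tanh β ^ 2 * (C ^ 2 * (Real.tanh β ^ (2 * m) * (saw m (insert v S) w : ℝ))) =
        C ^ 2 * (Real.tanh β ^ (2 * (m + 1)) * (saw (m + 1) S v : ℝ)) := by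
      rw [saw, Nat.cast_sum, Finset.mul_sum, Finset.mul_sum]
      apply Finset.sum_congr rfl
      intro w _
      ring
    have h8 : ∫ J, Inf β J Λ (Ω J) v f ^ 2 ∂(couplingLaw d) =
        ∫ J, Df s g J ^ 2 ∂(couplingLaw d) := by
      rw [← hh]
    rw [h8]
    linarith

end Pool.H981EA
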