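import Pool.Agent.Run7.h981.EA.Comp
import Pool.Agent.H47R2.EA.GIBBSE

/-!
# Edwards–Anderson model: almost sure limits
-/

set_option autoImplicit false

open MeasureTheory Filter Topology
open scoped ENNReal BoundedContinuousFunction

namespace Pool.H981EA

open Pool.H47EA Pool.H47EA.Basic

variable {d : ℕ}

/-- Borel–Cantelli -/
theorem as_bound (X : ℕ → Coupling d → ℝ) (hX : ∀ n, Bd (X n)) (h0 : ∀ n J, 0 ≤ X n J)
    (r : ℕ) (M p : ℝ) (hp0 : 0 < p) (hp1 : p < 1)
    (h : ∀ n, r ≤ n → ∫ J, X n J ∂(couplingLaw d) ≤ M * (p ^ 2) ^ n) :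
    ∀ᵐ J ∂(couplingLaw d), ∃ K : ℝ, ∀ n, X n J ≤ K * p ^ n := by
  have h1 : ∀ n, ∫⁻ J, ENNReal.ofReal (X (n + r) J / p ^ (n + r)) ∂(couplingLaw d) ≤
      ENNReal.ofReal (M * p ^ (n + r)) := by
    intro n
    rw [← ofReal_integral_eq_lintegral_ofReal ((hX (n + r)).div _).int
      (ae_of_all _ fun J => div_nonneg (h0 _ J) (by positivity))]
    apply ENNReal.ofReal_le_ofReal
    rw [integral_div, div_le_iff₀ (by positivity)]
    refine (h (n + r) (by omega)).trans (le_of_eq ?_)
    rw [← pow_mul]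
    ring
  have hm : ∀ n, AEMeasurable (fun J => ENNReal.ofReal (X (n + r) J / p ^ (n + r)))
      (couplingLaw d) := fun n => (((hX (n + r)).div (p ^ (n + r))).1.ennreal_ofReal).aemeasurable
  have h2 : ∫⁻ J, ∑' n, ENNReal.ofReal (X (n + r) J / p ^ (n + r)) ∂(couplingLaw d) ≠ ∞ := by
    rw [lintegral_tsum hm]
    have h3 : ∑' n : ℕ, ENNReal.ofReal (M * p ^ (n + r)) ≠ ∞ := by
      have hs : Summable (fun n : ℕ => M * p ^ (n + r)) :=
        ((summable_nat_add_iff r).mpr (summable_geometric_of_lt_one hp0.le hp1)).mul_left M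
      exact hs.tsum_ofReal_ne_top
    exact ne_top_of_le_ne_top h3 (ENNReal.tsum_le_tsum h1)
  have h4 := ae_lt_top' (AEMeasurable.tsum hm) h2
  filter_upwards [h4] with J hJ
  set S := ∑' n, ENNReal.ofReal (X (n + r) J / p ^ (n + r)) with hS
  refine ⟨S.toReal + ∑ n ∈ Finset.range r, X n J / p ^ n, fun n => ?_⟩
  have hsum : 0 ≤ ∑ n ∈ Finset.range r, X n J / p ^ n :=
    Finset.sum_nonneg fun i _ => div_nonneg (h0 i J) (by positivity)
  rw [← div_le_iff₀ (by positivity)]
  by_cases hn : n < r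
  · have : X n J / p ^ n ≤ ∑ n ∈ Finset.range r, X n J / p ^ n :=
      Finset.single_le_sum (f := fun n => X n J / p ^ n)
        (fun i _ => div_nonneg (h0 i J) (by positivity)) (Finset.mem_range.mpr hn)
    have h5 : 0 ≤ S.toReal := ENNReal.toReal_nonneg
    linarith
  · push Not at hn
    have h5 : ENNReal.ofReal (X (n - r + r) J / p ^ (n - r + r)) ≤ S :=
      ENNReal.le_tsum (f := fun n => ENNReal.ofReal (X (n + r) J / p ^ (n + r))) (n - r)
    rw [Nat.sub_add_cancel hn] at h5
    have h6 := (ENNReal.ofReal_le_iff_le_toReal hJ.ne).mp h5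
    linarith

/-- indicator of the configurations that agree with `η` on `A` -/
noncomputable def cyl (A : Finset (Site d)) (η : A → Bool) (σ : Site d → Bool) : ℝ :=
  if (fun x : A => σ x.1) = η then 1 else 0

theorem cyl_local (A : Finset (Site d)) (η : A → Bool) : LocalOn A (cyl A η) := by
  intro σ σ' h
  unfold cyl
  have : (fun x : A => σ x.1) = (fun x : A => σ' x.1) := funext fun x => h x.1 x.2
  rw [this]

theorem cyl_abs (A : Finset (Site d)) (η : A → Bool) (σ : Site d → Bool) : |cyl A η σ| ≤ 1 := by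
  unfold cyl
  split_ifs <;> norm_num

theorem local_decomp {A : Finset (Site d)} {f : (Site d → Bool) → ℝ} (hf : LocalOn A f) :
    f = fun σ => ∑ η : A → Bool, f (glue A η (fun _ => true)) * cyl A η σ := by
  funext σ
  rw [Finset.sum_eq_single (fun x : A => σ x.1)]
  · unfold cyl
    rw [if_pos rfl, mul_one]
    apply hf
    intro x hx
    rw [glue_mem _ _ hx]
  · intro η _ hη
    unfold cyl
    rw [if_neg (fun h => hη h.symm), mul_zero]
  · intro h
    exact absurd (Finset.mem_univ _) h

theorem gE_sum {ι : Type} [Fintype ι] (β : ℝ) (J : Coupling d) (Λ : Finset (Site d))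
    (τ : Site d → Bool) (c : ι → ℝ) (g : ι → (Site d → Bool) → ℝ) :
    gE β J Λ τ (fun σ => ∑ i, c i * g i σ) = ∑ i, c i * gE β J Λ τ (g i) := by
  simp only [GIBBSE.gE_eq]
  calc ∑ η, GIBBSE.ww β J Λ η τ * ∑ i, c i * g i (glue Λ η τ)
      = ∑ η, ∑ i, c i * (GIBBSE.ww β J Λ η τ * g i (glue Λ η τ)) := by
        apply Finset.sum_congr rfl
        intro η _
        rw [Finset.mul_sum]
        apply Finset.sum_congr rfl
        intro i _
        ring
    _ = ∑ i, c i * ∑ η, GIBBSE.ww β J Λ η τ * g i (glue Λ η τ) := by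
        rw [Finset.sum_comm]
        apply Finset.sum_congr rfl
        intro i _
        rw [Finset.mul_sum]

theorem LocalOn.cont {A : Finset (Site d)} {f : (Site d → Bool) → ℝ} (hf : LocalOn A f) :
    Continuous f := by
  rw [local_decomp hf]
  apply continuous_finsetSum
  intro η _
  apply continuous_const.mul
  have : cyl A η = (fun ζ : A → Bool => if ζ = η then (1 : ℝ) else 0) ∘ (fun σ x => σ x.1) := rfl
  rw [this]
  exact (continuous_of_discreteTopology).comp (continuous_pi fun x => continuous_apply _)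

theorem LocalOn.bdd {A : Finset (Site d)} {f : (Site d → Bool) → ℝ} (hf : LocalOn A f) :
    ∃ C : ℝ, 0 < C ∧ ∀ σ, |f σ| ≤ C := by
  refine ⟨1 + ∑ η : A → Bool, |f (glue A η (fun _ => true))|, ?_, ?_⟩
  · have : 0 ≤ ∑ η : A → Bool, |f (glue A η (fun _ => true))| :=
      Finset.sum_nonneg fun η _ => abs_nonneg _
    linarith
  · intro σ
    have h1 : |f σ| ≤ ∑ η : A → Bool, |f (glue A η (fun _ => true))| := by
      have h2 : f σ = f (glue A (fun x : A => σ x.1) (fun _ => true)) := by
        apply hf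
        intro x hx
        rw [glue_mem _ _ hx]
      rw [h2]
      exact Finset.single_le_sum (f := fun η : A → Bool => |f (glue A η (fun _ => true))|)
        (fun η _ => abs_nonneg _) (Finset.mem_univ _)
    linarith

/-- from cylinders to all local observables -/
theorem all_local {β p : ℝ} (J : Coupling d) (Λ Λ' : ℕ → Finset (Site d))
    (τ τ' : ℕ → Site d → Bool)
    (h : ∀ (A : Finset (Site d)) (η : A → Bool), ∃ K : ℝ, ∀ n,
      |gE β J (Λ n) (τ n) (cyl A η) - gE β J (Λ' n) (τ' n) (cyl A η)| ≤ K * p ^ n)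
    (A : Finset (Site d)) (f : (Site d → Bool) → ℝ) (hf : LocalOn A f) :
    ∃ K : ℝ, ∀ n, |gE β J (Λ n) (τ n) f - gE β J (Λ' n) (τ' n) f| ≤ K * p ^ n := by
  choose K hK using h A
  have e : ∀ (Λ : Finset (Site d)) (τ : Site d → Bool), gE β J Λ τ f =
      ∑ η : A → Bool, f (glue A η (fun _ => true)) * gE β J Λ τ (cyl A η) := by
    intro Λ τ
    conv_lhs => rw [local_decomp hf]
    exact gE_sum β J Λ τ _ _
  refine ⟨∑ η, |f (glue A η (fun _ => true))| * K η, fun n => ?_⟩
  rw [e, e, ← Finset.sum_sub_distrib, Finset.sum_mul]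
  refine (Finset.abs_sum_le_sum_abs _ _).trans (Finset.sum_le_sum fun η _ => ?_)
  rw [← mul_sub, abs_mul, mul_assoc]
  exact mul_le_mul_of_nonneg_left (hK η n) (abs_nonneg _)

/-- existence of the limiting state -/
theorem exists_state {β p : ℝ} (hp1 : p < 1) (J : Coupling d)
    (h : ∀ (A : Finset (Site d)) (f : (Site d → Bool) → ℝ), LocalOn A f → ∃ K : ℝ, ∀ n,
      |gE β J (box d (n + 1)) (fun _ => true) f - gE β J (box d n) (fun _ => true) f|
        ≤ K * p ^ n) :
    ∃ π : Measure (Site d → Bool), IsGibbs β J π ∧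
      ∀ (A : Finset (Site d)) (f : (Site d → Bool) → ℝ), LocalOn A f → ∃ K : ℝ, ∀ n,
        |gE β J (box d n) (fun _ => true) f - ∫ σ, f σ ∂π| ≤ K * p ^ n := by
  let ω₀ : Site d → Bool := fun _ => true
  let P : ℕ → ProbabilityMeasure (Site d → Bool) := fun n =>
    ⟨GIBBSE.KK β J (box d n) (Measure.dirac ω₀), GIBBSE.prob_KK β J (box d n) _⟩
  let U : Ultrafilter ℕ := Ultrafilter.of atTop
  have hU : (U : Filter ℕ) ≤ atTop := Ultrafilter.of_le _
  obtain ⟨π, -, hπ⟩ := (isCompact_univ (X := ProbabilityMeasure (Site d → Bool))).ultrafilter_le_nhds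
    (U.map P) (by simp)
  have hlim : Tendsto P U (𝓝 π) := hπ
  have hconv : ∀ f : (Site d → Bool) → ℝ, Continuous f →
      Tendsto (fun n => gE β J (box d n) ω₀ f) U (𝓝 (∫ ω, f ω ∂(π : Measure (Site d → Bool)))) := by
    intro f hf
    let F : (Site d → Bool) →ᵇ ℝ := BoundedContinuousFunction.mkOfCompact ⟨f, hf⟩
    have h1 := (ProbabilityMeasure.tendsto_iff_forall_integral_tendsto.mp hlim) F
    refine h1.congr fun n => ?_
    exact GIBBSE.integral_KK_dirac β J (box d n) ω₀ f hf.measurable ‖F‖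
      fun x => F.norm_coe_le_norm x
  -- invariance
  have hinv : ∀ (Λ : Finset (Site d)) (f : (Site d → Bool) → ℝ), Continuous f →
      ∫ ω, gE β J Λ ω f ∂(π : Measure (Site d → Bool)) =
        ∫ ω, f ω ∂(π : Measure (Site d → Bool)) := by
    intro Λ f hf
    have h1 := hconv f hf
    have h2 := hconv (fun ω => gE β J Λ ω f) (GIBBSE.continuous_gE β J Λ f hf)
    refine tendsto_nhds_unique h2 (h1.congr' ?_)
    have h3 : ∀ᶠ n in (U : Filter ℕ), Λ ⊆ box d n := by
      have h4 : ∀ᶠ n in (atTop : Filter ℕ), Λ ⊆ box d n := by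
        refine Filter.eventually_atTop.mpr ⟨Λ.sup (fun v => dist1 0 v), fun n hn v hv => ?_⟩
        apply mem_box_of_dist
        exact (Finset.le_sup (f := fun v => dist1 0 v) hv).trans hn
      exact hU h4
    filter_upwards [h3] with n hΛ
    exact gE_cons hΛ β J ω₀ f
  have hK : ∀ Λ : Finset (Site d), GIBBSE.KK β J Λ (π : Measure (Site d → Bool)) =
      (π : Measure (Site d → Bool)) := by
    intro Λ
    have := GIBBSE.prob_KK β J Λ (π : Measure (Site d → Bool))
    haveI : TopologicalSpace.MetrizableSpace (Site d → Bool) :=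
      TopologicalSpace.metrizableSpace_of_t3_secondCountable _
    letI : MetricSpace (Site d → Bool) := TopologicalSpace.metrizableSpaceMetric _
    apply ext_of_forall_integral_eq_of_IsFiniteMeasure
    intro f
    rw [GIBBSE.integral_KK β J Λ _ f f.continuous.measurable ‖f‖ fun x => f.norm_coe_le_norm x]
    exact hinv Λ f f.continuous
  refine ⟨π, ⟨inferInstance, ?_⟩, ?_⟩
  · intro a b A hA
    have hind : Measurable (A.indicator fun _ => (1 : ℝ)) := measurable_const.indicator hA
    have h1 := GIBBSE.integral_KK β J (Finset.Icc a b) (π : Measure (Site d → Bool))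
      (A.indicator fun _ => (1 : ℝ)) hind 1 (by
        intro x
        by_cases hx : x ∈ A
        · simp [hx]
        · simp [hx])
    rw [← h1, hK, integral_indicator hA]
    simp [Measure.real]
  · intro A f hf
    obtain ⟨K, hKn⟩ := h A f hf
    have hd : ∀ n, dist (gE β J (box d n) ω₀ f) (gE β J (box d (n + 1)) ω₀ f) ≤ K * p ^ n := by
      intro n
      rw [dist_comm, Real.dist_eq]
      exact hKn n
    obtain ⟨a, ha⟩ := cauchySeq_tendsto_of_complete (cauchySeq_of_le_geometric p K hp1 hd)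
    have hl : a = ∫ ω, f ω ∂(π : Measure (Site d → Bool)) :=
      tendsto_nhds_unique (ha.mono_left hU) (hconv f (LocalOn.cont hf))
    refine ⟨K / (1 - p), fun n => ?_⟩
    have h5 := dist_le_of_le_geometric_of_tendsto p K hp1 hd ha n
    rw [Real.dist_eq, hl] at h5
    refine h5.trans (le_of_eq ?_)
    ring

end Pool.H981EA
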