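import Pool.Agent.Run7.h981.EA.Exist

/-!
# Edwards–Anderson model: covariances in a metastate
-/

set_option autoImplicit false

open MeasureTheory

namespace Pool.H981EA

open Pool.H47EA Pool.H47EA.Basic

variable {d : ℕ}

theorem cov_state {β : ℝ} {J : Coupling d} {Γ : Measure (Site d → Bool)} (hG : IsGibbs β J Γ)
    (y : Site d) (f : (Site d → Bool) → ℝ) (hf : Gen.Bd f)
    (hfy : Gen.Bd (fun σ : Site d → Bool => f σ * sg (σ y)))
    (hy : Gen.Bd (fun σ : Site d → Bool => sg (σ y))) (τ : Site d → Bool) :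
    (∫ σ, f σ * sg (σ y) ∂Γ - (∫ σ, f σ ∂Γ) * ∫ σ, sg (σ y) ∂Γ) ^ 2 ≤ IG Γ ∅ τ y f ^ 2 := by
  have := hG.1
  have hv : y ∉ (∅ : Finset (Site d)) := Finset.notMem_empty y
  have h0 : ∀ g : (Site d → Bool) → ℝ, NN Γ ∅ τ g = ∫ σ, g σ ∂Γ := by
    intro g
    unfold NN
    simp [pin_empty]
  have h1 := NN_split Γ ∅ y hv τ f hf
  have h2 := NN_split Γ ∅ y hv τ (fun _ => 1) (Gen.Bd.const 1)
  have h3 := NN_split Γ ∅ y hv τ _ hfy
  have h4 := NN_split Γ ∅ y hv τ _ hy
  have hb : ∀ (b : Bool) (g : (Site d → Bool) → ℝ),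
      NN Γ (insert y ∅) (Function.update τ y b) (fun σ => g σ * sg (σ y)) =
        sg b * NN Γ (insert y ∅) (Function.update τ y b) g := by
    intro b g
    unfold NN
    rw [← integral_const_mul]
    apply integral_congr_ae
    refine ae_of_all _ fun σ => ?_
    show g σ * sg (σ y) * pin (insert y ∅) (Function.update τ y b) σ =
      sg b * (g σ * pin (insert y ∅) (Function.update τ y b) σ)
    rw [pin_insert ∅ y hv]
    by_cases h : σ y = b
    · rw [h]
      ring
    · rw [if_neg h]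
      ring
  have hb1 : ∀ b : Bool, NN Γ (insert y ∅) (Function.update τ y b) (fun σ => sg (σ y)) =
        sg b * NN Γ (insert y ∅) (Function.update τ y b) (fun _ => 1) := by
    intro b
    have := hb b (fun _ => 1)
    simpa using this
  have hxp := NN_pos hG (insert y ∅) (Function.update τ y true)
  have hyp := NN_pos hG (insert y ∅) (Function.update τ y false)
  rw [h0] at h1 h2 h3 h4
  rw [hb true f, hb false f] at h3
  rw [hb1 true, hb1 false] at h4
  rw [h1, h3, h4]
  have h5 : ∫ _σ : Site d → Bool, (1 : ℝ) ∂Γ = 1 := by simp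
  rw [h5] at h2
  unfold IG EE
  set x := NN Γ (insert y ∅) (Function.update τ y true) (fun _ => 1)
  set z := NN Γ (insert y ∅) (Function.update τ y false) (fun _ => 1)
  set xf := NN Γ (insert y ∅) (Function.update τ y true) f
  set zf := NN Γ (insert y ∅) (Function.update τ y false) f
  have hst : sg true = 1 := by simp [sg]
  have hsf : sg false = -1 := by simp [sg]
  rw [hst, hsf]
  have hz : z = 1 - x := by linarith
  have hx1 : 0 < 1 - x := by rw [← hz]; exact hyp
  have e1 : (1 * xf + -1 * zf - (xf + zf) * (1 * x + -1 * z)) =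
      (4 * (x * z)) * ((xf / x - zf / z) / 2) := by
    rw [hz]
    field_simp
    ring
  rw [e1, mul_pow]
  apply mul_le_of_le_one_left (sq_nonneg _)
  have h6 : 0 ≤ 4 * (x * z) := by positivity
  have h7 : 4 * (x * z) ≤ 1 := by
    rw [hz]
    nlinarith [sq_nonneg (2 * x - 1)]
  exact pow_le_one₀ h6 h7

/-- mean square decay of covariances in every coupling-covariant metastate -/
theorem cov_meta {β : ℝ} (hβ : 0 ≤ β) {κ : Measure (Pair d)} (hκ : IsMetastate β κ)
    (x y : Site d) :
    ∫ q : Pair d, (∫ σ, sg (σ x) * sg (σ y) ∂(q.2 : Measure (Site d → Bool)) -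
      (∫ σ, sg (σ x) ∂(q.2 : Measure (Site d → Bool))) *
        ∫ σ, sg (σ y) ∂(q.2 : Measure (Site d → Bool))) ^ 2 ∂κ ≤
      (cSaw d (dist1 x y) : ℝ) * Real.tanh β ^ (2 * dist1 x y) := by
  have := hκ.prob
  have hloc : ∀ z : Site d, LocalOn {z} (fun σ : Site d → Bool => sg (σ z)) := by
    intro z σ σ' h
    show sg (σ z) = sg (σ' z)
    rw [h z (Finset.mem_singleton_self z)]
  have hx := LocalOn.bd (hloc x)
  have hy := LocalOn.bd (hloc y)
  have hxy := hx.mul hy
  have h1 := infl_meta hβ hκ {x} (fun σ => sg (σ x)) (hloc x) 1 (fun σ => sg_abs _)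
    (dist1 x y) ∅ y (Finset.notMem_empty y) (fun _ => true) (by
      intro a ha
      rw [Finset.mem_singleton] at ha
      rw [ha, dist1_comm])
  have hb : ∀ (g : (Site d → Bool) → ℝ), Gen.Bd g →
      Gen.Bd (fun q : Pair d => ∫ σ, g σ ∂(q.2 : Measure (Site d → Bool))) := by
    intro g hg
    obtain ⟨C, hC⟩ := hg.2
    refine ⟨(int_meas _ hg).comp measurable_snd, C, fun q => ?_⟩
    have := norm_integral_le_of_norm_le_const (μ := (q.2 : Measure (Site d → Bool)))
      (f := g) (C := C) (ae_of_all _ fun σ => hC σ)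
    simpa using this
  refine (integral_mono_ae ((((hb _ hxy).sub ((hb _ hx).mul (hb _ hy))).sq).int κ)
    ((IG_Bd ∅ (fun _ => true) y _ hx).sq.int κ) ?_).trans (h1.trans ?_)
  · filter_upwards [hκ.gibbs] with q hq
    exact cov_state hq y _ hx hxy hy (fun _ => true)
  · have h2 : (saw (dist1 x y) (∅ : Finset (Site d)) y : ℝ) ≤ (cSaw d (dist1 x y) : ℝ) := by
      exact_mod_cast saw_le (dist1 x y) ∅ y
    have ht : 0 ≤ Real.tanh β ^ (2 * dist1 x y) := by rw [pow_mul]; positivity
    calc (1 : ℝ) ^ 2 * (Real.tanh β ^ (2 * dist1 x y) *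
          (saw (dist1 x y) (∅ : Finset (Site d)) y : ℝ))
        = Real.tanh β ^ (2 * dist1 x y) * (saw (dist1 x y) (∅ : Finset (Site d)) y : ℝ) := by
          ring
      _ ≤ Real.tanh β ^ (2 * dist1 x y) * (cSaw d (dist1 x y) : ℝ) :=
          mul_le_mul_of_nonneg_left h2 ht
      _ = _ := by ring

end Pool.H981EA
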