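import Pool.Agent.Run7.h981.EA.Tilt

/-!
# Edwards–Anderson model: pinned averages of a Gibbs state
-/

set_option autoImplicit false

open MeasureTheory Filter Topology
open scoped ENNReal symmDiff

namespace Pool.H981EA

open Pool.H47EA Pool.H47EA.Basic

variable {d : ℕ}

theorem LocalOn.bd {A : Finset (Site d)} {f : (Site d → Bool) → ℝ} (hf : LocalOn A f) :
    Gen.Bd f := by
  obtain ⟨C, _, hC⟩ := LocalOn.bdd hf
  exact ⟨LocalOn.meas hf, C, hC⟩

/-- indicator of `σ = τ` on `P` -/
noncomputable def pin (P : Finset (Site d)) (τ σ : Site d → Bool) : ℝ :=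
  if ∀ x ∈ P, σ x = τ x then 1 else 0

theorem pin_local (P : Finset (Site d)) (τ : Site d → Bool) : LocalOn P (pin P τ) := by
  intro σ σ' h
  unfold pin
  have : (∀ x ∈ P, σ x = τ x) ↔ (∀ x ∈ P, σ' x = τ x) := by
    constructor
    · intro h1 x hx
      rw [← h x hx]
      exact h1 x hx
    · intro h1 x hx
      rw [h x hx]
      exact h1 x hx
  simp only [this]

theorem pin_nonneg (P : Finset (Site d)) (τ σ : Site d → Bool) : 0 ≤ pin P τ σ := by
  unfold pin
  split_ifs <;> norm_num

theorem pin_le_one (P : Finset (Site d)) (τ σ : Site d → Bool) : pin P τ σ ≤ 1 := by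
  unfold pin
  split_ifs <;> norm_num

theorem pin_bd (P : Finset (Site d)) (τ : Site d → Bool) : Gen.Bd (pin P τ) :=
  LocalOn.bd (pin_local P τ)

theorem pin_empty (τ σ : Site d → Bool) : pin ∅ τ σ = 1 := by simp [pin]

theorem pin_insert (P : Finset (Site d)) (v : Site d) (hv : v ∉ P) (τ σ : Site d → Bool)
    (b : Bool) : pin (insert v P) (Function.update τ v b) σ =
      (if σ v = b then 1 else 0) * pin P τ σ := by
  unfold pin
  have h1 : (∀ x ∈ insert v P, σ x = Function.update τ v b x) ↔
      (σ v = b ∧ ∀ x ∈ P, σ x = τ x) := by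
    rw [Finset.forall_mem_insert, Function.update_self]
    apply and_congr_right
    intro _
    constructor
    · intro h x hx
      have hxv : x ≠ v := fun h' => hv (h' ▸ hx)
      have := h x hx
      rwa [Function.update_of_ne hxv] at this
    · intro h x hx
      have hxv : x ≠ v := fun h' => hv (h' ▸ hx)
      rw [Function.update_of_ne hxv]
      exact h x hx
  by_cases h2 : σ v = b
  · by_cases h3 : ∀ x ∈ P, σ x = τ x
    · rw [if_pos (h1.mpr ⟨h2, h3⟩), if_pos h2, if_pos h3, mul_one]
    · rw [if_neg (fun h => h3 (h1.mp h).2), if_neg h3, mul_zero]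
  · rw [if_neg (fun h => h2 (h1.mp h).1), if_neg h2, zero_mul]

theorem pin_split (P : Finset (Site d)) (v : Site d) (hv : v ∉ P) (τ σ : Site d → Bool) :
    pin P τ σ = pin (insert v P) (Function.update τ v true) σ +
      pin (insert v P) (Function.update τ v false) σ := by
  rw [pin_insert P v hv, pin_insert P v hv, ← add_mul]
  cases σ v <;> simp

/-- unnormalised pinned average -/
noncomputable def NN (Γ : Measure (Site d → Bool)) (P : Finset (Site d)) (τ : Site d → Bool)
    (f : (Site d → Bool) → ℝ) : ℝ := ∫ σ, f σ * pin P τ σ ∂Γ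

/-- average of `f` under `Γ` conditioned on `σ = τ` on `P` -/
noncomputable def EE (Γ : Measure (Site d → Bool)) (P : Finset (Site d)) (τ : Site d → Bool)
    (f : (Site d → Bool) → ℝ) : ℝ := NN Γ P τ f / NN Γ P τ (fun _ => 1)

/-- half the difference of the averages given `σ_v = +` and `σ_v = -` -/
noncomputable def IG (Γ : Measure (Site d → Bool)) (P : Finset (Site d)) (τ : Site d → Bool)
    (v : Site d) (f : (Site d → Bool) → ℝ) : ℝ :=
  (EE Γ (insert v P) (Function.update τ v true) f -
    EE Γ (insert v P) (Function.update τ v false) f) / 2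

section basic

variable (Γ : Measure (Site d → Bool)) [IsProbabilityMeasure Γ]

theorem NN_one_nonneg (P : Finset (Site d)) (τ : Site d → Bool) :
    0 ≤ NN Γ P τ (fun _ => 1) := by
  unfold NN
  exact integral_nonneg fun σ => by
    show (0 : ℝ) ≤ 1 * pin P τ σ
    rw [one_mul]
    exact pin_nonneg P τ σ

theorem NN_abs_le (P : Finset (Site d)) (τ : Site d → Bool) (f : (Site d → Bool) → ℝ)
    (hf : Gen.Bd f) (C : ℝ) (hC : ∀ σ, |f σ| ≤ C) : |NN Γ P τ f| ≤ C * NN Γ P τ (fun _ => 1) := by
  unfold NN
  rw [← integral_const_mul]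
  refine (abs_integral_le_integral_abs).trans ?_
  refine integral_mono ((hf.mul (pin_bd P τ)).abs.int Γ)
    ((((Gen.Bd.const 1).mul (pin_bd P τ)).smul C).int Γ) ?_
  intro σ
  show |f σ * pin P τ σ| ≤ C * (1 * pin P τ σ)
  rw [abs_mul, abs_of_nonneg (pin_nonneg P τ σ), one_mul]
  exact mul_le_mul_of_nonneg_right (hC σ) (pin_nonneg P τ σ)

theorem EE_abs_le (P : Finset (Site d)) (τ : Site d → Bool) (f : (Site d → Bool) → ℝ)
    (hf : Gen.Bd f) (C : ℝ) (hC0 : 0 ≤ C) (hC : ∀ σ, |f σ| ≤ C) : |EE Γ P τ f| ≤ C := by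
  unfold EE
  have h1 := NN_abs_le Γ P τ f hf C hC
  have h2 := NN_one_nonneg Γ P τ
  rw [abs_div, abs_of_nonneg h2]
  rcases h2.eq_or_lt with h3 | h3
  · rw [← h3, div_zero]
    exact hC0
  · rw [div_le_iff₀ h3]
    exact h1

theorem IG_abs_le (P : Finset (Site d)) (τ : Site d → Bool) (v : Site d)
    (f : (Site d → Bool) → ℝ) (hf : Gen.Bd f) (C : ℝ) (hC0 : 0 ≤ C) (hC : ∀ σ, |f σ| ≤ C) :
    |IG Γ P τ v f| ≤ C := by
  have h1 := EE_abs_le Γ (insert v P) (Function.update τ v true) f hf C hC0 hC
  have h2 := EE_abs_le Γ (insert v P) (Function.update τ v false) f hf C hC0 hC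
  rw [abs_le] at h1 h2 ⊢
  unfold IG
  constructor <;> linarith [h1.1, h1.2, h2.1, h2.2]

theorem EE_empty (τ : Site d → Bool) (f : (Site d → Bool) → ℝ) :
    EE Γ ∅ τ f = ∫ σ, f σ ∂Γ := by
  unfold EE NN
  simp [pin_empty]

theorem NN_split (P : Finset (Site d)) (v : Site d) (hv : v ∉ P) (τ : Site d → Bool)
    (f : (Site d → Bool) → ℝ) (hf : Gen.Bd f) :
    NN Γ P τ f = NN Γ (insert v P) (Function.update τ v true) f +
      NN Γ (insert v P) (Function.update τ v false) f := by
  unfold NN
  rw [← integral_add ((hf.mul (pin_bd _ _)).int Γ) ((hf.mul (pin_bd _ _)).int Γ)]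
  apply integral_congr_ae
  exact ae_of_all _ fun σ => by
    show f σ * pin P τ σ = _
    rw [pin_split P v hv τ σ]
    ring

end basic

theorem int_meas (F : (Site d → Bool) → ℝ) (hF : Gen.Bd F) :
    Measurable (fun Γ : ProbabilityMeasure (Site d → Bool) =>
      ∫ σ, F σ ∂(Γ : Measure (Site d → Bool))) := by
  have h1 : ∀ Γ : ProbabilityMeasure (Site d → Bool),
      ∫ σ, F σ ∂(Γ : Measure (Site d → Bool)) =
      (∫⁻ σ, ENNReal.ofReal (F σ) ∂(Γ : Measure (Site d → Bool))).toReal -
      (∫⁻ σ, ENNReal.ofReal (- F σ) ∂(Γ : Measure (Site d → Bool))).toReal := fun Γ =>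
    integral_eq_lintegral_pos_part_sub_lintegral_neg_part (hF.int _)
  simp only [h1]
  apply Measurable.sub
  · exact ((Measure.measurable_lintegral hF.1.ennreal_ofReal).comp
      measurable_subtype_coe).ennreal_toReal
  · exact ((Measure.measurable_lintegral hF.1.neg.ennreal_ofReal).comp
      measurable_subtype_coe).ennreal_toReal

theorem EE_Bd (P : Finset (Site d)) (τ : Site d → Bool) (f : (Site d → Bool) → ℝ)
    (hf : Gen.Bd f) : Gen.Bd (fun q : Pair d => EE (q.2 : Measure (Site d → Bool)) P τ f) := by
  obtain ⟨C, hC⟩ := hf.2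
  have hC0 : 0 ≤ C := (abs_nonneg _).trans (hC (fun _ => true))
  refine ⟨?_, C, fun q => EE_abs_le _ P τ f hf C hC0 hC⟩
  unfold EE NN
  apply Measurable.div
  · exact (int_meas _ (hf.mul (pin_bd P τ))).comp measurable_snd
  · exact (int_meas _ ((Gen.Bd.const 1).mul (pin_bd P τ))).comp measurable_snd

theorem IG_Bd (P : Finset (Site d)) (τ : Site d → Bool) (v : Site d)
    (f : (Site d → Bool) → ℝ) (hf : Gen.Bd f) :
    Gen.Bd (fun q : Pair d => IG (q.2 : Measure (Site d → Bool)) P τ v f) :=
  ((EE_Bd _ _ f hf).sub (EE_Bd _ _ f hf)).div 2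

/-! ### the DLR equations -/

theorem gibbs_KK {β : ℝ} {J : Coupling d} {Γ : Measure (Site d → Bool)} (hG : IsGibbs β J Γ)
    (a b : Site d) : GIBBSE.KK β J (Finset.Icc a b) Γ = Γ := by
  have := hG.1
  have := GIBBSE.prob_KK β J (Finset.Icc a b) Γ
  ext A hA
  have hind : Measurable (A.indicator fun _ => (1 : ℝ)) := measurable_const.indicator hA
  have h1 := GIBBSE.integral_KK β J (Finset.Icc a b) Γ
    (A.indicator fun _ => (1 : ℝ)) hind 1 (by
      intro x
      by_cases hx : x ∈ A
      · simp [hx]
      · simp [hx])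
  rw [← hG.2 a b A hA, integral_indicator hA, integral_const, smul_eq_mul, mul_one,
    measureReal_restrict_apply MeasurableSet.univ, Set.univ_inter] at h1
  exact (ENNReal.toReal_eq_toReal_iff' (measure_ne_top _ _) (measure_ne_top _ _)).1 h1

theorem gibbs_int {β : ℝ} {J : Coupling d} {Γ : Measure (Site d → Bool)} (hG : IsGibbs β J Γ)
    (a b : Site d) (F : (Site d → Bool) → ℝ) (hF : Gen.Bd F) :
    ∫ σ, F σ ∂Γ = ∫ ω, gE β J (Finset.Icc a b) ω F ∂Γ := by
  have := hG.1
  obtain ⟨C, hC⟩ := hF.2
  rw [← GIBBSE.integral_KK β J (Finset.Icc a b) Γ F hF.1 C hC, gibbs_KK hG]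

/-- all edges at `v` -/
noncomputable def st (v : Site d) : Finset ((lat d).edgeSet) :=
  (nbr v).attach.image (fun w => ed v w.1 (mem_nbr.mp w.2))

theorem st_inj (v : Site d) : Set.InjOn (fun w : {w // w ∈ nbr v} => ed v w.1 (mem_nbr.mp w.2))
    ((nbr v).attach : Set _) := by
  intro w _ w' _ he
  have he' : s(v, w.1) = s(v, w'.1) := congrArg Subtype.val he
  rw [Sym2.eq_iff] at he'
  apply Subtype.ext
  rcases he' with ⟨_, h⟩ | ⟨h, h'⟩
  · exact h
  · exact h'.trans h

theorem hx_st (β : ℝ) (J : Coupling d) (v : Site d) (σ : Site d → Bool) :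
    hx β J (st v) σ = -(2 * β) * ham J {v} σ := by
  unfold hx
  congr 1
  unfold st
  rw [Finset.sum_image (st_inj v)]
  unfold ham edgesOf
  rw [Finset.singleton_biUnion, Finset.sum_image]
  · rw [← Finset.sum_attach (nbr v)]
    rfl
  · intro w _ w' _ he
    have he' : s(v, w) = s(v, w') := he
    rw [Sym2.eq_iff] at he'
    rcases he' with ⟨_, h⟩ | ⟨h, h'⟩
    · exact h
    · exact h'.trans h

theorem ham_flip_site (J : Coupling d) (v : Site d) (σ : Site d → Bool) :
    ham J {v} (Function.update σ v (!(σ v))) = - ham J {v} σ := by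
  unfold ham
  rw [← Finset.sum_neg_distrib]
  apply Finset.sum_congr rfl
  intro e he
  obtain ⟨x, hx, y, hy, rfl⟩ := mem_edgesOf.mp he
  rw [Finset.mem_singleton] at hx
  subst hx
  have hyx : y ≠ x := by
    rintro rfl
    simp [dist1] at hy
  rw [bond_mk, bond_mk, Function.update_self, Function.update_of_ne hyx, sg_not]
  ring

theorem exp_hx_bd (β : ℝ) (J : Coupling d) (s : Finset ((lat d).edgeSet)) :
    Gen.Bd (fun σ => Real.exp (hx β J s σ)) := by
  refine ⟨Real.measurable_exp.comp (hx_meas β J s), Real.exp (|2 * β| * s.card), fun σ => ?_⟩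
  rw [Real.abs_exp]
  exact Real.exp_le_exp.mpr ((le_abs_self _).trans (hx_abs β J s σ))

/-- the spin at `v` may be flipped at the price of the change of energy -/
theorem flip_site {β : ℝ} {J : Coupling d} {Γ : Measure (Site d → Bool)} (hG : IsGibbs β J Γ)
    (P : Finset (Site d)) (v : Site d) (hv : v ∉ P) (τ : Site d → Bool)
    (A : Finset (Site d)) (hA : v ∉ A) (f : (Site d → Bool) → ℝ) (hf : LocalOn A f) :
    NN Γ (insert v P) (Function.update τ v false) f =
      ∫ σ, f σ * pin (insert v P) (Function.update τ v true) σ *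
        Real.exp (hx β J (st v) σ) ∂Γ := by
  have hfb := LocalOn.bd hf
  unfold NN
  rw [gibbs_int hG v v _ (hfb.mul (pin_bd _ _)),
    gibbs_int hG v v _ ((hfb.mul (pin_bd _ _)).mul (exp_hx_bd β J (st v)))]
  apply integral_congr_ae
  refine ae_of_all _ fun ω => ?_
  show gE β J (Finset.Icc v v) ω _ = gE β J (Finset.Icc v v) ω _
  rw [Finset.Icc_self]
  unfold gE
  congr 1
  let e : (({v} : Finset (Site d)) → Bool) ≃ (({v} : Finset (Site d)) → Bool) :=
    { toFun := fun η x => !(η x)
      invFun := fun η x => !(η x)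
      left_inv := fun η => by funext x; simp
      right_inv := fun η => by funext x; simp }
  rw [← Equiv.sum_comp e]
  apply Finset.sum_congr rfl
  intro η _
  have hg : glue {v} (e η) ω = Function.update (glue {v} η ω) v (!(glue {v} η ω v)) := by
    funext x
    by_cases hx : x = v
    · subst hx
      rw [Function.update_self, glue_mem _ _ (Finset.mem_singleton_self x),
        glue_mem _ _ (Finset.mem_singleton_self x)]
      rfl
    · have hx' : x ∉ ({v} : Finset (Site d)) := by rwa [Finset.mem_singleton]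
      rw [Function.update_of_ne hx, glue_not_mem _ _ hx', glue_not_mem _ _ hx']
  rw [hg]
  set σ := glue {v} η ω with hσ
  have e1 : f (Function.update σ v (!(σ v))) = f σ := by
    apply hf
    intro x hx
    have hxv : x ≠ v := fun h' => hA (h' ▸ hx)
    exact Function.update_of_ne hxv _ _
  have e2 : pin P τ (Function.update σ v (!(σ v))) = pin P τ σ := by
    apply pin_local
    intro x hx
    have hxv : x ≠ v := fun h' => hv (h' ▸ hx)
    exact Function.update_of_ne hxv _ _
  show Real.exp (β * ham J {v} (Function.update σ v !σ v)) *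
      (f (Function.update σ v !σ v) * pin (insert v P) (Function.update τ v false)
        (Function.update σ v !σ v)) =
    Real.exp (β * ham J {v} σ) *
      (f σ * pin (insert v P) (Function.update τ v true) σ * Real.exp (hx β J (st v) σ))
  rw [pin_insert P v hv, pin_insert P v hv, e1, e2, Function.update_self, ham_flip_site, hx_st]
  have e3 : Real.exp (β * -ham J {v} σ) =
      Real.exp (β * ham J {v} σ) * Real.exp (-(2 * β) * ham J {v} σ) := by
    rw [← Real.exp_add]
    congr 1
    ring
  rw [e3]
  cases σ v <;> simp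
  ring

/-- Gibbs states charge all cylinders -/
theorem NN_pos {β : ℝ} {J : Coupling d} {Γ : Measure (Site d → Bool)} (hG : IsGibbs β J Γ)
    (P : Finset (Site d)) : ∀ τ : Site d → Bool, 0 < NN Γ P τ (fun _ => 1) := by
  have := hG.1
  induction P using Finset.induction_on with
  | empty =>
    intro τ
    unfold NN
    simp [pin_empty]
  | insert v P hv ih =>
    intro τ
    have hone : LocalOn (∅ : Finset (Site d)) (fun _ : Site d → Bool => (1 : ℝ)) :=
      fun _ _ _ => rfl
    have h1 := NN_split Γ P v hv τ (fun _ => 1) (Gen.Bd.const 1)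
    have h2 := ih τ
    have h3 := flip_site hG P v hv τ ∅ (Finset.notMem_empty v) (fun _ => 1) hone
    have hp := NN_one_nonneg Γ (insert v P) (Function.update τ v true)
    have hn := NN_one_nonneg Γ (insert v P) (Function.update τ v false)
    have hboth : 0 < NN Γ (insert v P) (Function.update τ v true) (fun _ => 1) ∧
        0 < NN Γ (insert v P) (Function.update τ v false) (fun _ => 1) := by
      have hb := (((Gen.Bd.const (X := Site d → Bool) 1).mul
        (pin_bd (insert v P) (Function.update τ v true))).mul (exp_hx_bd β J (st v)))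
      have hb0 := ((Gen.Bd.const (X := Site d → Bool) 1).mul
        (pin_bd (insert v P) (Function.update τ v true)))
      have hnn : ∀ σ, 0 ≤ 1 * pin (insert v P) (Function.update τ v true) σ *
          Real.exp (hx β J (st v) σ) := fun σ => by
        rw [one_mul]
        exact mul_nonneg (pin_nonneg _ _ _) (Real.exp_pos _).le
      have hnn0 : ∀ σ, 0 ≤ 1 * pin (insert v P) (Function.update τ v true) σ := fun σ => by
        rw [one_mul]
        exact pin_nonneg _ _ _
      have hiff : NN Γ (insert v P) (Function.update τ v false) (fun _ => 1) = 0 ↔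
          NN Γ (insert v P) (Function.update τ v true) (fun _ => 1) = 0 := by
        rw [h3]
        unfold NN
        rw [integral_eq_zero_iff_of_nonneg hnn (hb.int Γ),
          integral_eq_zero_iff_of_nonneg hnn0 (hb0.int Γ)]
        constructor
        · intro h
          filter_upwards [h] with σ hσ
          have h4 : 1 * pin (insert v P) (Function.update τ v true) σ *
            Real.exp (hx β J (st v) σ) = 0 := hσ
          rcases mul_eq_zero.mp h4 with h5 | h5
          · exact h5
          · exact absurd h5 (Real.exp_pos _).ne'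
        · intro h
          filter_upwards [h] with σ hσ
          have h4 : 1 * pin (insert v P) (Function.update τ v true) σ = 0 := hσ
          show 1 * pin (insert v P) (Function.update τ v true) σ *
            Real.exp (hx β J (st v) σ) = 0
          rw [h4, zero_mul]
      by_contra hcon
      rw [not_and_or, not_lt, not_lt] at hcon
      rcases hcon with h5 | h5
      · have h6 := le_antisymm h5 hp
        rw [h6, hiff.mpr h6] at h1
        linarith
      · have h6 := le_antisymm h5 hn
        rw [h6, hiff.mp h6] at h1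
        linarith
    have h7 : Function.update τ v (τ v) = τ := Function.update_eq_self v τ
    cases h8 : τ v with
    | true => rw [h8] at h7; rw [← h7]; exact hboth.1
    | false => rw [h8] at h7; rw [← h7]; exact hboth.2

end Pool.H981EA
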