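import Pool.Agent.Run7.h981.EA.Pinned

/-!
# Edwards–Anderson model: mean square influences in a coupling-covariant metastate
-/

set_option autoImplicit false

open MeasureTheory Filter Topology
open scoped ENNReal symmDiff

namespace Pool.H981EA

open Pool.H47EA Pool.H47EA.Basic

variable {d : ℕ}

theorem EE_tl (β : ℝ) (J : Coupling d) (s : Finset ((lat d).edgeSet))
    (Γ : ProbabilityMeasure (Site d → Bool)) (P : Finset (Site d)) (τ : Site d → Bool)
    (f : (Site d → Bool) → ℝ) :
    EE (tl β J s Γ : Measure (Site d → Bool)) P τ f =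
      (∫ σ, f σ * pin P τ σ * Real.exp (hx β J s σ) ∂(Γ : Measure (Site d → Bool))) /
      (∫ σ, 1 * pin P τ σ * Real.exp (hx β J s σ) ∂(Γ : Measure (Site d → Bool))) := by
  have hpos := exp_hx_pos β J s (Γ : Measure (Site d → Bool))
  have h1 : ∀ g : (Site d → Bool) → ℝ,
      NN (tl β J s Γ : Measure (Site d → Bool)) P τ g =
        (∫ σ, g σ * pin P τ σ * Real.exp (hx β J s σ) ∂(Γ : Measure (Site d → Bool))) /
          ∫ σ, Real.exp (hx β J s σ) ∂(Γ : Measure (Site d → Bool)) := by
    intro g
    show ∫ σ, g σ * pin P τ σ ∂((Γ : Measure (Site d → Bool)).tilted (hx β J s)) = _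
    rw [integral_tilted, ← integral_div]
    apply integral_congr_ae
    refine ae_of_all _ fun σ => ?_
    show (Real.exp (hx β J s σ) / _) • (g σ * pin P τ σ) = _
    rw [smul_eq_mul]
    ring
  unfold EE
  rw [h1, h1, div_div_div_cancel_right₀ hpos.ne']

/-- flipping all couplings at `v` exchanges the two values of the pinned spin at `v` -/
theorem EE_st {β : ℝ} {J : Coupling d} {Γ : ProbabilityMeasure (Site d → Bool)}
    (hG : IsGibbs β J (Γ : Measure (Site d → Bool)))
    (P : Finset (Site d)) (v : Site d) (hv : v ∉ P) (τ : Site d → Bool)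
    (A : Finset (Site d)) (hA : v ∉ A) (f : (Site d → Bool) → ℝ) (hf : LocalOn A f) :
    EE (tl β J (st v) Γ : Measure (Site d → Bool)) (insert v P) (Function.update τ v true) f =
      EE (Γ : Measure (Site d → Bool)) (insert v P) (Function.update τ v false) f := by
  rw [EE_tl]
  have hone : LocalOn (∅ : Finset (Site d)) (fun _ : Site d → Bool => (1 : ℝ)) :=
    fun _ _ _ => rfl
  have h1 := flip_site hG P v hv τ A hA f hf
  have h2 := flip_site hG P v hv τ ∅ (Finset.notMem_empty v) (fun _ => 1) hone
  unfold EE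
  rw [h1, h2]

theorem hx_single (β : ℝ) (J : Coupling d) (v w : Site d) (h : dist1 v w = 1)
    (σ : Site d → Bool) :
    hx β J {ed v w h} σ = -(2 * β) * (Jc J v w * sg (σ v) * sg (σ w)) := by
  unfold hx
  rw [Finset.sum_singleton]
  rfl

theorem real_tanh (β : ℝ) (hβ : 0 ≤ β) (x y s : ℝ) (hx : 0 < x) (hy : 0 < y)
    (hs : s = 1 ∨ s = -1) :
    |x / (x + y) - x * Real.exp (-(2 * β) * s) /
      (x * Real.exp (-(2 * β) * s) + y * Real.exp (-(2 * β) * (-s)))| ≤ Real.tanh β := by
  rw [tanh_eq]
  have hk : (1 : ℝ) ≤ Real.exp (2 * β) := Real.one_le_exp (by linarith)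
  have hkp : 0 < Real.exp (2 * β) := Real.exp_pos _
  have e1 : Real.exp (-(2 * β)) = 1 / Real.exp (2 * β) := by rw [Real.exp_neg]; ring
  rcases hs with hs | hs
  · subst hs
    have a1 : Real.exp (-(2 * β) * 1) = 1 / Real.exp (2 * β) := by rw [← e1]; congr 1; ring
    have a2 : Real.exp (-(2 * β) * (-1)) = Real.exp (2 * β) := by congr 1; ring
    rw [a1, a2]
    have := real_ineq x y _ hx hy hk
    rw [mul_one_div]
    exact this
  · subst hs
    have a1 : Real.exp (-(2 * β) * (-1)) = Real.exp (2 * β) := by congr 1; ring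
    have a2 : Real.exp (-(2 * β) * (- -1)) = 1 / Real.exp (2 * β) := by
      rw [← e1]; congr 1; ring
    rw [a1, a2]
    have := real_ineq (x * Real.exp (2 * β)) (y * (1 / Real.exp (2 * β))) _ (by positivity)
      (by positivity) hk
    rw [abs_sub_comm] at this
    have e2 : x * Real.exp (2 * β) / Real.exp (2 * β) = x := by field_simp
    have e3 : y * (1 / Real.exp (2 * β)) * Real.exp (2 * β) = y := by field_simp
    rw [e2, e3] at this
    exact this

/-- a flip of the coupling between two pinned spins is not felt -/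
theorem EE_flip_in {β : ℝ} {J : Coupling d} {Γ : ProbabilityMeasure (Site d → Bool)}
    (P : Finset (Site d)) (v w : Site d) (h : dist1 v w = 1) (hv : v ∈ P) (hw : w ∈ P)
    (τ : Site d → Bool) (f : (Site d → Bool) → ℝ) :
    EE (tl β J {ed v w h} Γ : Measure (Site d → Bool)) P τ f =
      EE (Γ : Measure (Site d → Bool)) P τ f := by
  rw [EE_tl]
  set c := Real.exp (-(2 * β) * (Jc J v w * sg (τ v) * sg (τ w))) with hc
  have hcp : 0 < c := Real.exp_pos _
  have h1 : ∀ g : (Site d → Bool) → ℝ, ∫ σ, g σ * pin P τ σ * Real.exp (hx β J {ed v w h} σ)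
      ∂(Γ : Measure (Site d → Bool)) = (∫ σ, g σ * pin P τ σ ∂(Γ : Measure (Site d → Bool))) * c := by
    intro g
    rw [← integral_mul_const]
    apply integral_congr_ae
    refine ae_of_all _ fun σ => ?_
    show g σ * pin P τ σ * Real.exp (hx β J {ed v w h} σ) = g σ * pin P τ σ * c
    by_cases hp : ∀ x ∈ P, σ x = τ x
    · rw [hx_single, hp v hv, hp w hw]
    · have : pin P τ σ = 0 := by
        unfold pin
        rw [if_neg hp]
      rw [this]
      ring
  rw [h1 f, h1 (fun _ => 1), mul_div_mul_right _ _ hcp.ne']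
  rfl

/-- the increment of a pinned average under one flip at a pinned spin -/
theorem EE_flip_one {β : ℝ} (hβ : 0 ≤ β) {J : Coupling d}
    {Γ : ProbabilityMeasure (Site d → Bool)} (hG : IsGibbs β J (Γ : Measure (Site d → Bool)))
    (P : Finset (Site d)) (v w : Site d) (h : dist1 v w = 1) (hv : v ∈ P) (hw : w ∉ P)
    (τ : Site d → Bool) (f : (Site d → Bool) → ℝ) (hf : Gen.Bd f) :
    ((EE (Γ : Measure (Site d → Bool)) P τ f -
      EE (tl β J {ed v w h} Γ : Measure (Site d → Bool)) P τ f) / 2) ^ 2 ≤
      Real.tanh β ^ 2 * IG (Γ : Measure (Site d → Bool)) P τ w f ^ 2 := by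
  rw [EE_tl]
  set s := Jc J v w * sg (τ v) with hs
  have hs1 : s = 1 ∨ s = -1 := by
    rw [hs, Jc_ed J v w h]
    cases J (ed v w h) <;> cases τ v <;> simp [sg]
  -- splitting the integrals
  have h1 : ∀ g : (Site d → Bool) → ℝ, Gen.Bd g →
      ∫ σ, g σ * pin P τ σ * Real.exp (hx β J {ed v w h} σ) ∂(Γ : Measure (Site d → Bool)) =
      NN (Γ : Measure (Site d → Bool)) (insert w P) (Function.update τ w true) g *
        Real.exp (-(2 * β) * s) +
      NN (Γ : Measure (Site d → Bool)) (insert w P) (Function.update τ w false) g *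
        Real.exp (-(2 * β) * (-s)) := by
    intro g hg
    unfold NN
    rw [← integral_mul_const, ← integral_mul_const,
      ← integral_add (((hg.mul (pin_bd _ _)).mul (Gen.Bd.const _)).int _)
        (((hg.mul (pin_bd _ _)).mul (Gen.Bd.const _)).int _)]
    apply integral_congr_ae
    refine ae_of_all _ fun σ => ?_
    show g σ * pin P τ σ * Real.exp (hx β J {ed v w h} σ) =
      g σ * pin (insert w P) (Function.update τ w true) σ * Real.exp (-(2 * β) * s) +
      g σ * pin (insert w P) (Function.update τ w false) σ * Real.exp (-(2 * β) * (-s))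
    rw [pin_insert P w hw, pin_insert P w hw, hx_single]
    by_cases hp : ∀ x ∈ P, σ x = τ x
    · rw [hp v hv]
      cases hσ : σ w with
      | true =>
        have e1 : Jc J v w * sg (τ v) * sg true = s := by rw [hs]; simp [sg]
        rw [e1]
        simp
      | false =>
        have e1 : Jc J v w * sg (τ v) * sg false = -s := by rw [hs]; simp [sg]
        rw [e1]
        simp
    · have : pin P τ σ = 0 := by
        unfold pin
        rw [if_neg hp]
      rw [this]
      ring
  have h2 := NN_split (Γ : Measure (Site d → Bool)) P w hw τ f hf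
  have h3 := NN_split (Γ : Measure (Site d → Bool)) P w hw τ (fun _ => 1) (Gen.Bd.const 1)
  have hx := NN_pos hG (insert w P) (Function.update τ w true)
  have hy := NN_pos hG (insert w P) (Function.update τ w false)
  rw [h1 f hf, h1 (fun _ => 1) (Gen.Bd.const 1)]
  unfold IG EE
  rw [h2, h3]
  set x := NN (Γ : Measure (Site d → Bool)) (insert w P) (Function.update τ w true) (fun _ => 1)
  set y := NN (Γ : Measure (Site d → Bool)) (insert w P) (Function.update τ w false) (fun _ => 1)
  set xf := NN (Γ : Measure (Site d → Bool)) (insert w P) (Function.update τ w true) f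
  set yf := NN (Γ : Measure (Site d → Bool)) (insert w P) (Function.update τ w false) f
  have h4 := real_tanh β hβ x y s hx hy hs1
  set k := Real.exp (-(2 * β) * s) with hk
  set l := Real.exp (-(2 * β) * (-s)) with hl
  have hkp : 0 < k := Real.exp_pos _
  have hlp : 0 < l := Real.exp_pos _
  have e1 : ((xf + yf) / (x + y) - (xf * k + yf * l) / (x * k + y * l)) / 2 =
      (x / (x + y) - x * k / (x * k + y * l)) * ((xf / x - yf / y) / 2) := by
    field_simp
    ring
  rw [e1, mul_pow]
  apply mul_le_mul_of_nonneg_right _ (sq_nonneg _)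
  exact sq_le_sq' (by linarith [neg_abs_le (x / (x + y) - x * k / (x * k + y * l))])
    ((le_abs_self _).trans h4)

/-- **The mean square influence in a metastate.** -/
theorem infl_meta {β : ℝ} (hβ : 0 ≤ β) {κ : Measure (Pair d)} (hκ : IsMetastate β κ)
    (A : Finset (Site d)) (f : (Site d → Bool) → ℝ)
    (hf : LocalOn A f) (C : ℝ) (hC : ∀ σ, |f σ| ≤ C) (m : ℕ) :
    ∀ (P : Finset (Site d)) (v : Site d), v ∉ P → ∀ τ : Site d → Bool,
      (∀ a ∈ A, m ≤ dist1 v a) →
      ∫ q, IG (q.2 : Measure (Site d → Bool)) P τ v f ^ 2 ∂κ ≤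
        C ^ 2 * (Real.tanh β ^ (2 * m) * (saw m P v : ℝ)) := by
  have := hκ.prob
  have hfb := LocalOn.bd hf
  have hC0 : 0 ≤ C := (abs_nonneg _).trans (hC (fun _ => true))
  induction m with
  | zero =>
    intro P v hv τ hd
    have h1 : ∀ q : Pair d, IG (q.2 : Measure (Site d → Bool)) P τ v f ^ 2 ≤ C ^ 2 := by
      intro q
      rw [← sq_abs]
      exact pow_le_pow_left₀ (abs_nonneg _) (IG_abs_le _ P τ v f hfb C hC0 hC) 2
    have h2 := integral_mono ((IG_Bd P τ v f hfb).sq.int κ)
      (integrable_const (μ := κ) (C ^ 2)) h1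
    refine h2.trans ?_
    simp [saw]
  | succ m ih =>
    intro P v hv τ hd
    have hvA : v ∉ A := by
      intro hvA
      have := hd v hvA
      have h0 : dist1 v v = 0 := by simp [dist1]
      omega
    let g : Pair d → ℝ := fun q =>
      EE (q.2 : Measure (Site d → Bool)) (insert v P) (Function.update τ v true) f
    have hg : Gen.Bd g := EE_Bd _ _ f hfb
    have hT := hκ.mp
    have hh : ∫ q, IG (q.2 : Measure (Site d → Bool)) P τ v f ^ 2 ∂κ =
        ∫ q, Gen.Df (TT β (st v)) g q ^ 2 ∂κ := by
      apply integral_congr_ae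
      filter_upwards [hκ.gibbs] with q hq
      show IG (q.2 : Measure (Site d → Bool)) P τ v f ^ 2 =
        ((g q - g (TT β (st v) q)) / 2) ^ 2
      have h1 : g (TT β (st v) q) =
          EE (q.2 : Measure (Site d → Bool)) (insert v P) (Function.update τ v false) f :=
        EE_st hq P v hv τ A hvA f hf
      rw [h1]
      rfl
    have hodd : ∀ q, Gen.Df (TT β (st v)) g (TT β (st v) q) = - Gen.Df (TT β (st v)) g q := by
      intro q
      unfold Gen.Df
      rw [TT_symmDiff, symmDiff_self]
      have : TT β ⊥ q = q := TT_empty β q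
      rw [this]
      ring
    have h1 := Gen.efron_stein (κ := κ) (TT β) hT (TT_empty β) (fun s s' q => TT_symmDiff β s s' q)
      (st v) (Gen.Df (TT β (st v)) g) (hg.Df (hT _).measurable) hodd
    have h2 : ∑ e ∈ st v, ∫ q, Gen.Df (TT β {e}) (Gen.Df (TT β (st v)) g) q ^ 2 ∂κ ≤
        ∑ e ∈ st v, ∫ q, Gen.Df (TT β {e}) g q ^ 2 ∂κ := by
      apply Finset.sum_le_sum
      intro e _
      rw [Gen.Df_Df_comm (fun q => by rw [TT_symmDiff, TT_symmDiff, symmDiff_comm])]
      exact Gen.sq_Df (hg.Df (hT _).measurable) (hT _)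
    have h3 : ∑ e ∈ st v, ∫ q, Gen.Df (TT β {e}) g q ^ 2 ∂κ =
        ∑ w ∈ (nbr v).attach,
          ∫ q, Gen.Df (TT β {ed v w.1 (mem_nbr.mp w.2)}) g q ^ 2 ∂κ := by
      unfold st
      rw [Finset.sum_image (st_inj v)]
    have h4 : ∀ w ∈ (nbr v).attach,
        ∫ q, Gen.Df (TT β {ed v w.1 (mem_nbr.mp w.2)}) g q ^ 2 ∂κ ≤
          if w.1 ∉ insert v P then Real.tanh β ^ 2 * (C ^ 2 * (Real.tanh β ^ (2 * m) *
            (saw m (insert v P) w.1 : ℝ))) else 0 := by
      rintro ⟨w, hw⟩ _
      have hw1 : dist1 v w = 1 := mem_nbr.mp hw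
      by_cases hwP : w ∉ insert v P
      · rw [if_pos hwP]
        have h5 := ih (insert v P) w hwP (Function.update τ v true) (by
          intro a ha
          have h6 := hd a ha
          have h7 := InfAux.dist_tri v w a
          omega)
        refine le_trans ?_ (mul_le_mul_of_nonneg_left h5 (sq_nonneg _))
        rw [← integral_const_mul]
        refine integral_mono_ae ((hg.Df (hT _).measurable).sq.int κ)
          (((IG_Bd (insert v P) (Function.update τ v true) w f hfb).sq.smul _).int κ) ?_
        filter_upwards [hκ.gibbs] with q hq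
        exact EE_flip_one hβ hq (insert v P) v w hw1 (Finset.mem_insert_self _ _) hwP
          (Function.update τ v true) f hfb
      · rw [if_neg hwP]
        push Not at hwP
        have h5 : ∀ q, Gen.Df (TT β {ed v w hw1}) g q ^ 2 = 0 := by
          intro q
          have h6 : g (TT β {ed v w hw1} q) = g q :=
            EE_flip_in (insert v P) v w hw1 (Finset.mem_insert_self _ _) hwP
              (Function.update τ v true) f
          unfold Gen.Df
          rw [h6]
          ring
        show ∫ q, Gen.Df (TT β {ed v w hw1}) g q ^ 2 ∂κ ≤ 0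
        simp [h5]
    have h5 := Finset.sum_le_sum h4
    rw [Finset.sum_attach (nbr v)
      (fun w => if w ∉ insert v P then Real.tanh β ^ 2 * (C ^ 2 * (Real.tanh β ^ (2 * m) *
            (saw m (insert v P) w : ℝ))) else 0), ← Finset.sum_filter] at h5
    have h7 : ∑ w ∈ (nbr v).filter (fun w => w ∉ insert v P),
        Real.tanh β ^ 2 * (C ^ 2 * (Real.tanh β ^ (2 * m) * (saw m (insert v P) w : ℝ))) =
        C ^ 2 * (Real.tanh β ^ (2 * (m + 1)) * (saw (m + 1) P v : ℝ)) := by
      rw [saw, Nat.cast_sum, Finset.mul_sum, Finset.mul_sum]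
      apply Finset.sum_congr rfl
      intro w _
      ring
    rw [hh]
    linarith

end Pool.H981EA
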