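import Pool.Agent.Run7.h981.EA.Pinned2

/-!
# Edwards–Anderson model: uniqueness of the coupling-covariant metastate
-/

set_option autoImplicit false

open MeasureTheory Filter Topology
open scoped ENNReal symmDiff

namespace Pool.H981EA

open Pool.H47EA Pool.H47EA.Basic

variable {d : ℕ}

theorem EE_split {β : ℝ} {J : Coupling d} {Γ : Measure (Site d → Bool)} (hG : IsGibbs β J Γ)
    (P : Finset (Site d)) (v : Site d) (hv : v ∉ P) (τ : Site d → Bool)
    (f : (Site d → Bool) → ℝ) (hf : Gen.Bd f) :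
    |EE Γ P τ f - EE Γ (insert v P) τ f| ≤ 2 * |IG Γ P τ v f| := by
  have := hG.1
  have h2 := NN_split Γ P v hv τ f hf
  have h3 := NN_split Γ P v hv τ (fun _ => 1) (Gen.Bd.const 1)
  have hx := NN_pos hG (insert v P) (Function.update τ v true)
  have hy := NN_pos hG (insert v P) (Function.update τ v false)
  have e1 : 2 * |IG Γ P τ v f| = |EE Γ (insert v P) (Function.update τ v true) f -
      EE Γ (insert v P) (Function.update τ v false) f| := by
    unfold IG
    rw [abs_div, abs_two]
    ring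
  rw [e1]
  have h4 : EE Γ (insert v P) τ f = EE Γ (insert v P) (Function.update τ v true) f ∨
      EE Γ (insert v P) τ f = EE Γ (insert v P) (Function.update τ v false) f := by
    have h7 : Function.update τ v (τ v) = τ := Function.update_eq_self v τ
    cases h8 : τ v with
    | true => left; rw [h8] at h7; rw [h7]
    | false => right; rw [h8] at h7; rw [h7]
  have h5 : EE Γ P τ f = (NN Γ (insert v P) (Function.update τ v true) f +
      NN Γ (insert v P) (Function.update τ v false) f) /
      (NN Γ (insert v P) (Function.update τ v true) (fun _ => 1) +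
      NN Γ (insert v P) (Function.update τ v false) (fun _ => 1)) := by
    unfold EE
    rw [h2, h3]
  have h6 : EE Γ (insert v P) (Function.update τ v true) f =
      NN Γ (insert v P) (Function.update τ v true) f /
      NN Γ (insert v P) (Function.update τ v true) (fun _ => 1) := rfl
  have h7 : EE Γ (insert v P) (Function.update τ v false) f =
      NN Γ (insert v P) (Function.update τ v false) f /
      NN Γ (insert v P) (Function.update τ v false) (fun _ => 1) := rfl
  set x := NN Γ (insert v P) (Function.update τ v true) (fun _ => 1)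
  set y := NN Γ (insert v P) (Function.update τ v false) (fun _ => 1)
  set xf := NN Γ (insert v P) (Function.update τ v true) f
  set yf := NN Γ (insert v P) (Function.update τ v false) f
  rcases h4 with h4 | h4
  · rw [h4, h5, h6, h7]
    have e2 : (xf + yf) / (x + y) - xf / x = (y / (x + y)) * (yf / y - xf / x) := by
      field_simp
      ring
    rw [e2, abs_mul, abs_sub_comm (yf / y)]
    apply mul_le_of_le_one_left (abs_nonneg _)
    rw [abs_of_nonneg (by positivity), div_le_one (by positivity)]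
    linarith
  · rw [h4, h5, h6, h7]
    have e2 : (xf + yf) / (x + y) - yf / y = (x / (x + y)) * (xf / x - yf / y) := by
      field_simp
      ring
    rw [e2, abs_mul]
    apply mul_le_of_le_one_left (abs_nonneg _)
    rw [abs_of_nonneg (by positivity), div_le_one (by positivity)]
    linarith

theorem pin_meta {β : ℝ} {κ : Measure (Pair d)} (hκ : IsMetastate β κ)
    (f : (Site d → Bool) → ℝ) (hf : Gen.Bd f) (F : Site d → ℝ)
    (hF : ∀ (P : Finset (Site d)) (v : Site d), v ∉ P → ∀ τ : Site d → Bool,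
      ∫ q, |IG (q.2 : Measure (Site d → Bool)) P τ v f| ∂κ ≤ F v)
    (τ : Site d → Bool) (B : Finset (Site d)) :
    ∫ q, |EE (q.2 : Measure (Site d → Bool)) ∅ τ f - EE (q.2 : Measure (Site d → Bool)) B τ f| ∂κ
      ≤ ∑ v ∈ B, 2 * F v := by
  have := hκ.prob
  induction B using Finset.induction_on with
  | empty => simp
  | insert v B hv ih =>
    rw [Finset.sum_insert hv]
    have h1 : ∫ q, |EE (q.2 : Measure (Site d → Bool)) ∅ τ f -
        EE (q.2 : Measure (Site d → Bool)) (insert v B) τ f| ∂κ ≤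
        ∫ q, (2 * |IG (q.2 : Measure (Site d → Bool)) B τ v f| +
          |EE (q.2 : Measure (Site d → Bool)) ∅ τ f -
            EE (q.2 : Measure (Site d → Bool)) B τ f|) ∂κ := by
      refine integral_mono_ae (((EE_Bd _ _ f hf).sub (EE_Bd _ _ f hf)).abs.int κ)
        ((((IG_Bd B τ v f hf).abs.smul 2).add
          ((EE_Bd _ _ f hf).sub (EE_Bd _ _ f hf)).abs).int κ) ?_
      filter_upwards [hκ.gibbs] with q hq
      have h2 := EE_split hq B v hv τ f hf
      have h3 := abs_sub_le (EE (q.2 : Measure (Site d → Bool)) ∅ τ f)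
        (EE (q.2 : Measure (Site d → Bool)) B τ f)
        (EE (q.2 : Measure (Site d → Bool)) (insert v B) τ f)
      linarith
    rw [integral_add (((IG_Bd B τ v f hf).abs.smul 2).int κ)
      ((((EE_Bd _ _ f hf).sub (EE_Bd _ _ f hf)).abs).int κ), integral_const_mul] at h1
    have h2 := hF B v hv τ
    linarith

/-- DLR in the box, after pinning its outer boundary -/
theorem EE_obd {β : ℝ} {J : Coupling d} {Γ : Measure (Site d → Bool)} (hG : IsGibbs β J Γ)
    (n : ℕ) (τ : Site d → Bool) (A : Finset (Site d)) (hA : A ⊆ box d n)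
    (f : (Site d → Bool) → ℝ) (hf : LocalOn A f) :
    EE Γ (obd (box d n)) τ f = gE β J (box d n) τ f := by
  have := hG.1
  have hpos := NN_pos hG (obd (box d n)) τ
  unfold EE
  rw [div_eq_iff hpos.ne']
  unfold NN
  have hfb := LocalOn.bd hf
  have h1 := gibbs_int hG (fun _ => -(n : ℤ)) (fun _ => (n : ℤ))
    (fun σ => f σ * pin (obd (box d n)) τ σ) (hfb.mul (pin_bd _ _))
  rw [h1, ← integral_const_mul]
  apply integral_congr_ae
  refine ae_of_all _ fun ω => ?_
  show gE β J (box d n) ω (fun σ => f σ * pin (obd (box d n)) τ σ) =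
    gE β J (box d n) τ f * (1 * pin (obd (box d n)) τ ω)
  have hout : ∀ η : (box d n) → Bool, pin (obd (box d n)) τ (glue (box d n) η ω) =
      pin (obd (box d n)) τ ω := by
    intro η
    apply pin_local
    intro x hx
    exact glue_not_mem _ _ (Finset.mem_sdiff.mp hx).2
  by_cases hp : ∀ x ∈ obd (box d n), ω x = τ x
  · have hpin : pin (obd (box d n)) τ ω = 1 := by
      unfold pin
      rw [if_pos hp]
    rw [hpin, mul_one, mul_one]
    have e1 : gE β J (box d n) ω (fun σ => f σ * pin (obd (box d n)) τ σ) =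
        gE β J (box d n) ω f := by
      apply gE_congr
      intro η
      rw [hout η, hpin, mul_one]
    rw [e1]
    apply gE_local
    · rintro y hy ⟨x, hx, hxy⟩
      apply hp
      unfold obd
      rw [Finset.mem_sdiff, Finset.mem_biUnion]
      exact ⟨⟨x, hx, mem_nbr.mpr hxy⟩, hy⟩
    · intro η
      apply hf
      intro x hx
      rw [glue_mem _ _ (hA hx), glue_mem _ _ (hA hx)]
  · have hpin : pin (obd (box d n)) τ ω = 0 := by
      unfold pin
      rw [if_neg hp]
    rw [hpin, mul_zero, mul_zero]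
    have e1 : gE β J (box d n) ω (fun σ => f σ * pin (obd (box d n)) τ σ) =
        gE β J (box d n) ω (fun _ => 0) := by
      apply gE_congr
      intro η
      rw [hout η, hpin, mul_zero]
    rw [e1, gE_const]

/-- comparison of the states of a metastate with the box -/
theorem comp_meta {β K q0 : ℝ} (hD : Dec d β K q0) {κ : Measure (Pair d)}
    (hκ : IsMetastate β κ) (A : Finset (Site d))
    (f : (Site d → Bool) → ℝ) (hf : LocalOn A f) (C : ℝ) (hC : ∀ σ, |f σ| ≤ C) (hC0 : 0 < C)
    (r : ℕ) (hr : ∀ a ∈ A, dist1 0 a ≤ r) (n : ℕ) (hn : r ≤ n) :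
    ∫ q : Pair d, |(∫ σ, f σ ∂(q.2 : Measure (Site d → Bool))) -
      gE β q.1 (box d n) (fun _ => true) f| ∂κ ≤
      (2 * (C * K / (q0 ^ r) ^ 2) * ((1 + q0) / (1 - q0)) ^ d) * q0 ^ n := by
  have := hκ.prob
  have hfb := LocalOn.bd hf
  obtain ⟨hβ, hK, hq0, hq1, hs⟩ := id hD
  set F : Site d → ℝ := fun v => C * K / (q0 ^ r) ^ 2 * (q0 ^ dist1 0 v) ^ 2 with hFdef
  have hF : ∀ (P : Finset (Site d)) (v : Site d), v ∉ P → ∀ τ : Site d → Bool,
      ∫ q, |IG (q.2 : Measure (Site d → Bool)) P τ v f| ∂κ ≤ F v := by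
    intro P v hv τ
    set m := dist1 0 v - r with hm
    have h1 := infl_meta hβ hκ A f hf C hC m P v hv τ (by
      intro a ha
      have h2 := hr a ha
      have h3 := InfAux.dist_tri (0 : Site d) a v
      rw [InfAux.dist_comm a v] at h3
      omega)
    have h2 : C ^ 2 * (Real.tanh β ^ (2 * m) * (saw m P v : ℝ)) ≤
        (C * (K * (q0 ^ m) ^ 2)) ^ 2 := by
      rw [mul_pow]
      exact mul_le_mul_of_nonneg_left (hs m P v) (sq_nonneg _)
    have h3 := Gen.int_abs_le (IG_Bd P τ v f hfb) (C * (K * (q0 ^ m) ^ 2))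
      (by positivity) (h1.trans h2)
    refine h3.trans ?_
    have h4 : q0 ^ m * q0 ^ r ≤ q0 ^ dist1 0 v := by
      rw [← pow_add]
      apply pow_le_pow_of_le_one hq0.le hq1.le
      omega
    have h5 : (q0 ^ m) ^ 2 * (q0 ^ r) ^ 2 ≤ (q0 ^ dist1 0 v) ^ 2 := by
      rw [← mul_pow]
      exact pow_le_pow_left₀ (by positivity) h4 2
    show C * (K * (q0 ^ m) ^ 2) ≤ C * K / (q0 ^ r) ^ 2 * (q0 ^ dist1 0 v) ^ 2
    rw [div_mul_eq_mul_div, le_div_iff₀ (by positivity)]
    calc C * (K * (q0 ^ m) ^ 2) * (q0 ^ r) ^ 2 = C * K * ((q0 ^ m) ^ 2 * (q0 ^ r) ^ 2) := by ring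
      _ ≤ C * K * (q0 ^ dist1 0 v) ^ 2 := mul_le_mul_of_nonneg_left h5 (by positivity)
  have h1 := pin_meta hκ f hfb F hF (fun _ => true) (obd (box d n))
  have h2 : ∫ q : Pair d, |(∫ σ, f σ ∂(q.2 : Measure (Site d → Bool))) -
      gE β q.1 (box d n) (fun _ => true) f| ∂κ =
      ∫ q, |EE (q.2 : Measure (Site d → Bool)) ∅ (fun _ => true) f -
        EE (q.2 : Measure (Site d → Bool)) (obd (box d n)) (fun _ => true) f| ∂κ := by
    apply integral_congr_ae
    filter_upwards [hκ.gibbs] with q hq
    rw [EE_empty, EE_obd hq n (fun _ => true) A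
      (fun a ha => mem_box_of_dist ((hr a ha).trans hn)) f hf]
  rw [h2]
  refine h1.trans ?_
  have h7 : ∑ v ∈ obd (box d n), 2 * F v =
      2 * (C * K / (q0 ^ r) ^ 2) * ∑ v ∈ obd (box d n), (q0 ^ dist1 0 v) ^ 2 := by
    rw [Finset.mul_sum]
    apply Finset.sum_congr rfl
    intro v _
    rw [hFdef]
    ring
  rw [h7]
  have h8 := sum_q2 (obd (box d n)) n (fun v hv => (Finset.mem_sdiff.mp hv).2) q0 hq0 hq1
  have h9 : (0 : ℝ) ≤ 2 * (C * K / (q0 ^ r) ^ 2) := by positivity
  have h10 := mul_le_mul_of_nonneg_left h8 h9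
  refine h10.trans (le_of_eq ?_)
  ring

/-- **Uniqueness of the metastate**: in every coupling-covariant metastate the state is the limit
of the finite-volume states. -/
theorem meta_unique {β K p : ℝ} (hp0 : 0 < p) (hp1 : p < 1) (hD : Dec d β K (p ^ 2))
    (π : Coupling d → Measure (Site d → Bool))
    (hπ : ∀ᵐ J ∂(couplingLaw d), IsGibbs β J (π J) ∧
      ∀ (A : Finset (Site d)) (f : (Site d → Bool) → ℝ), LocalOn A f →
        Tendsto (fun n => gE β J (box d n) (fun _ => true) f) atTop (𝓝 (∫ σ, f σ ∂(π J))))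
    (κ : Measure (Pair d)) (hκ : IsMetastate β κ) :
    ∀ᵐ q ∂κ, (q.2 : Measure (Site d → Bool)) = π q.1 := by
  have := hκ.prob
  have hmarg : ∀ᵐ q ∂κ, IsGibbs β q.1 (π q.1) ∧
      ∀ (A : Finset (Site d)) (f : (Site d → Bool) → ℝ), LocalOn A f →
        Tendsto (fun n => gE β q.1 (box d n) (fun _ => true) f) atTop
          (𝓝 (∫ σ, f σ ∂(π q.1))) := by
    rw [← hκ.marginal] at hπ
    exact ae_of_ae_map measurable_fst.aemeasurable hπ
  have h1 : ∀ i : (Σ A : Finset (Site d), (A → Bool)), ∀ᵐ q ∂κ, ∃ K : ℝ, ∀ n,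
      |(∫ σ, cyl i.1 i.2 σ ∂((q : Pair d).2 : Measure (Site d → Bool))) -
        gE β q.1 (box d n) (fun _ => true) (cyl i.1 i.2)| ≤ K * p ^ n := by
    rintro ⟨A, η⟩
    have hf := cyl_local A η
    have hfm := LocalOn.meas hf
    have hfb := LocalOn.bd hf
    have hC := cyl_abs A η
    apply Gen.as_bound (fun n (q : Pair d) =>
      |(∫ σ, cyl A η σ ∂(q.2 : Measure (Site d → Bool))) -
        gE β q.1 (box d n) (fun _ => true) (cyl A η)|)
    · intro n
      have b1 : Gen.Bd (fun q : Pair d => ∫ σ, cyl A η σ ∂(q.2 : Measure (Site d → Bool))) := by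
        refine ⟨(int_meas _ hfb).comp measurable_snd, 1, fun q => ?_⟩
        have := norm_integral_le_of_norm_le_const (μ := (q.2 : Measure (Site d → Bool)))
          (f := cyl A η) (C := 1) (ae_of_all _ fun σ => hC σ)
        simpa using this
      have b2 : Gen.Bd (fun q : Pair d => gE β q.1 (box d n) (fun _ => true) (cyl A η)) := by
        refine ⟨(meas_gE2 β (box d n) _ (measurable_const : Measurable
          (fun _ : Coupling d => (fun _ => true : Site d → Bool))) _ hfm).comp measurable_fst,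
          1, fun q => gE_abs_le β q.1 (box d n) _ _ 1 hC⟩
      exact (b1.sub b2).abs
    · intro n q
      exact abs_nonneg _
    · exact hp0
    · exact hp1
    · intro n hn
      exact comp_meta hD hκ A _ hf 1 hC one_pos (A.sup (fun v => dist1 0 v))
        (fun a ha => Finset.le_sup (f := fun v => dist1 0 v) ha) n hn
  have h2 := ae_all_iff.mpr h1
  filter_upwards [h2, hmarg] with q hq hm
  have := hm.1.1
  apply state_ext
  intro A f hf
  -- cylinders first
  have hcyl : ∀ η : A → Bool, ∫ σ, cyl A η σ ∂(q.2 : Measure (Site d → Bool)) =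
      ∫ σ, cyl A η σ ∂(π q.1) := by
    intro η
    have t1 := hm.2 A (cyl A η) (cyl_local A η)
    obtain ⟨K', hK'⟩ := hq ⟨A, η⟩
    have t2 : Tendsto (fun n => gE β q.1 (box d n) (fun _ => true) (cyl A η)) atTop
        (𝓝 (∫ σ, cyl A η σ ∂(q.2 : Measure (Site d → Bool)))) := by
      rw [tendsto_iff_norm_sub_tendsto_zero]
      refine squeeze_zero (fun n => norm_nonneg _) (fun n => ?_)
        (g := fun n => K' * p ^ n) ?_
      · rw [Real.norm_eq_abs, abs_sub_comm]
        exact hK' n
      · have := (tendsto_pow_atTop_nhds_zero_of_lt_one hp0.le hp1).const_mul K'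
        rwa [mul_zero] at this
    exact tendsto_nhds_unique t2 t1
  have hdec : ∀ (Γ : Measure (Site d → Bool)) [IsProbabilityMeasure Γ], ∫ σ, f σ ∂Γ =
      ∑ η : A → Bool, f (glue A η (fun _ => true)) * ∫ σ, cyl A η σ ∂Γ := by
    intro Γ _
    conv_lhs => rw [local_decomp hf]
    rw [integral_finsetSum]
    · exact Finset.sum_congr rfl fun η _ => integral_const_mul _ _
    · intro η _
      exact (((LocalOn.bd (cyl_local A η)).smul _).int Γ)
  rw [hdec, hdec]
  exact Finset.sum_congr rfl fun η _ => by rw [hcyl η]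

end Pool.H981EA
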