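import Pool.Agent.Run7.h981.EA.Infl
import Pool.Agent.H47R2.EA.INF

/-!
# Edwards–Anderson model: counting self-avoiding walks
-/

set_option autoImplicit false

namespace Pool.H981EA

open Pool.H47EA Pool.H47EA.Basic

variable {d : ℕ}

/-- `c_n(ℤ^d)`: the number of `n`-step self-avoiding walks on `ℤ^d` that start at the origin. -/
noncomputable def cSaw (d n : ℕ) : ℕ := saw n (∅ : Finset (Site d)) 0

theorem saw_mono (n : ℕ) : ∀ (S S' : Finset (Site d)) (x : Site d), S ⊆ S' →
    saw n S' x ≤ saw n S x := by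
  induction n with
  | zero => intro S S' x _; exact le_refl _
  | succ n ih =>
    intro S S' x h
    rw [saw, saw]
    have h1 : insert x S ⊆ insert x S' := Finset.insert_subset_insert x h
    calc ∑ y ∈ (nbr x).filter (fun y => y ∉ insert x S'), saw n (insert x S') y
        ≤ ∑ y ∈ (nbr x).filter (fun y => y ∉ insert x S'), saw n (insert x S) y :=
          Finset.sum_le_sum fun y _ => ih _ _ y h1
      _ ≤ ∑ y ∈ (nbr x).filter (fun y => y ∉ insert x S), saw n (insert x S) y := by
          apply Finset.sum_le_sum_of_subset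
          intro y hy
          rw [Finset.mem_filter] at hy ⊢
          exact ⟨hy.1, fun h' => hy.2 (h1 h')⟩

theorem saw_tr (n : ℕ) : ∀ (S : Finset (Site d)) (x a : Site d),
    saw n (S.image (fun y => y + a)) (x + a) = saw n S x := by
  induction n with
  | zero => intro S x a; rfl
  | succ n ih =>
    intro S x a
    rw [saw, saw]
    have hinj : Function.Injective (fun y : Site d => y + a) := fun y z h => by simpa using h
    have h1 : insert (x + a) (S.image (fun y => y + a)) = (insert x S).image (fun y => y + a) := by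
      rw [Finset.image_insert]
    have h2 : (nbr (x + a)).filter (fun y => y ∉ insert (x + a) (S.image (fun y => y + a))) =
        ((nbr x).filter (fun y => y ∉ insert x S)).image (fun y => y + a) := by
      rw [h1]
      ext z
      constructor
      · intro hz
        rw [Finset.mem_filter, mem_nbr] at hz
        obtain ⟨h3, h4⟩ := hz
        rw [Finset.mem_image]
        refine ⟨z - a, ?_, by simp⟩
        rw [Finset.mem_filter, mem_nbr]
        refine ⟨?_, fun h5 => h4 ?_⟩
        · rw [← h3]
          unfold dist1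
          apply Finset.sum_congr rfl
          intro i _
          congr 1
          simp only [Pi.sub_apply, Pi.add_apply]
          ring
        · rw [Finset.mem_image]
          exact ⟨z - a, h5, by simp⟩
      · intro hz
        rw [Finset.mem_image] at hz
        obtain ⟨y, hy, rfl⟩ := hz
        rw [Finset.mem_filter, mem_nbr] at hy ⊢
        refine ⟨?_, ?_⟩
        · rw [← hy.1]
          unfold dist1
          apply Finset.sum_congr rfl
          intro i _
          congr 1
          simp only [Pi.add_apply]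
          ring
        · rw [Finset.mem_image]
          rintro ⟨y', hy', he⟩
          exact hy.2 (hinj he ▸ hy')
    rw [h2, Finset.sum_image (fun y _ z _ h => hinj h), h1]
    apply Finset.sum_congr rfl
    intro y _
    exact ih _ _ _

theorem saw_le (n : ℕ) (S : Finset (Site d)) (x : Site d) : saw n S x ≤ cSaw d n := by
  refine (saw_mono n ∅ S x (Finset.empty_subset S)).trans ?_
  have h := saw_tr n (∅ : Finset (Site d)) (0 : Site d) x
  rw [zero_add, Finset.image_empty] at h
  rw [h]
  exact le_refl _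

theorem saw_add (n m : ℕ) : ∀ (S : Finset (Site d)) (x : Site d),
    saw (n + m) S x ≤ saw n S x * cSaw d m := by
  induction n with
  | zero =>
    intro S x
    rw [zero_add, saw, one_mul]
    exact saw_le m S x
  | succ n ih =>
    intro S x
    rw [show n + 1 + m = (n + m) + 1 by ring, saw, saw, Finset.sum_mul]
    exact Finset.sum_le_sum fun y _ => ih _ y

theorem cSaw_add (n m : ℕ) : cSaw d (n + m) ≤ cSaw d n * cSaw d m := saw_add n m ∅ 0

theorem cSaw_zero : cSaw d 0 = 1 := rfl

theorem cSaw_mul (N k j : ℕ) : cSaw d (N * k + j) ≤ cSaw d N ^ k * cSaw d j := by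
  induction k with
  | zero => simp
  | succ k ih =>
    rw [show N * (k + 1) + j = N + (N * k + j) by ring]
    refine (cSaw_add N (N * k + j)).trans ?_
    rw [pow_succ]
    calc cSaw d N * cSaw d (N * k + j) ≤ cSaw d N * (cSaw d N ^ k * cSaw d j) :=
          Nat.mul_le_mul_left _ ih
      _ = cSaw d N ^ k * cSaw d N * cSaw d j := by ring

/-- counting: a walk never steps back -/
theorem saw_nb (n : ℕ) : ∀ (S : Finset (Site d)) (x : Site d), (∃ z ∈ S, dist1 x z = 1) →
    saw n S x ≤ (2 * d - 1) ^ n := by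
  induction n with
  | zero => intro S x _; exact le_refl _
  | succ n ih =>
    rintro S x ⟨z, hz, hxz⟩
    rw [saw]
    have h1 : ((nbr x).filter (fun y => y ∉ insert x S)).card ≤ 2 * d - 1 := by
      have h2 : (nbr x).filter (fun y => y ∉ insert x S) ⊆ (nbr x).erase z := by
        intro y hy
        rw [Finset.mem_filter] at hy
        rw [Finset.mem_erase]
        refine ⟨?_, hy.1⟩
        rintro rfl
        exact hy.2 (Finset.mem_insert_of_mem hz)
      have h3 := Finset.card_le_card h2
      rw [Finset.card_erase_of_mem (mem_nbr.mpr hxz)] at h3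
      have h4 := InfAux.nbr_card x
      omega
    calc ∑ y ∈ (nbr x).filter (fun y => y ∉ insert x S), saw n (insert x S) y
        ≤ ∑ y ∈ (nbr x).filter (fun y => y ∉ insert x S), (2 * d - 1) ^ n := by
          apply Finset.sum_le_sum
          intro y hy
          rw [Finset.mem_filter, mem_nbr] at hy
          exact ih _ y ⟨x, Finset.mem_insert_self _ _, by rw [dist1_comm]; exact hy.1⟩
      _ = ((nbr x).filter (fun y => y ∉ insert x S)).card * (2 * d - 1) ^ n := by
          rw [Finset.sum_const, smul_eq_mul]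
      _ ≤ (2 * d - 1) * (2 * d - 1) ^ n := Nat.mul_le_mul_right _ h1
      _ = (2 * d - 1) ^ (n + 1) := by ring

theorem cSaw_le (n : ℕ) : cSaw d (n + 1) ≤ 2 * d * (2 * d - 1) ^ n := by
  unfold cSaw
  rw [saw]
  calc ∑ y ∈ (nbr (0 : Site d)).filter (fun y => y ∉ insert (0 : Site d) ∅),
        saw n (insert 0 ∅) y
      ≤ ∑ y ∈ (nbr (0 : Site d)).filter (fun y => y ∉ insert (0 : Site d) ∅),
        (2 * d - 1) ^ n := by
        apply Finset.sum_le_sum
        intro y hy
        rw [Finset.mem_filter, mem_nbr] at hy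
        exact saw_nb n _ y ⟨0, Finset.mem_insert_self _ _, by rw [dist1_comm]; exact hy.1⟩
    _ = ((nbr (0 : Site d)).filter (fun y => y ∉ insert (0 : Site d) ∅)).card *
          (2 * d - 1) ^ n := by rw [Finset.sum_const, smul_eq_mul]
    _ ≤ 2 * d * (2 * d - 1) ^ n :=
        Nat.mul_le_mul_right _ ((Finset.card_filter_le _ _).trans (InfAux.nbr_card 0))

/-- the condition `(2d-1) tanh²β < 1` implies the finite criterion -/
theorem crit_of_degree (β : ℝ) (h : (2 * (d : ℝ) - 1) * Real.tanh β ^ 2 < 1) :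
    ∃ N, 1 ≤ N ∧ (cSaw d N : ℝ) * Real.tanh β ^ (2 * N) < 1 := by
  set t := Real.tanh β ^ 2 with ht
  have ht0 : 0 ≤ t := sq_nonneg _
  rcases Nat.eq_zero_or_pos d with hd | hd
  · refine ⟨1, le_refl _, ?_⟩
    have h1 : cSaw d (0 + 1) ≤ 2 * d * (2 * d - 1) ^ 0 := cSaw_le 0
    rw [hd] at h1
    have h2 : cSaw d 1 = 0 := by
      rw [hd]
      simpa using h1
    rw [h2]
    norm_num
  · set r := (2 * (d : ℝ) - 1) * t with hr
    have hd1 : (1 : ℝ) ≤ d := by exact_mod_cast hd
    have hr0 : 0 ≤ r := mul_nonneg (by linarith) ht0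
    have hlim : Filter.Tendsto (fun n : ℕ => 2 * (d : ℝ) * t * r ^ n) Filter.atTop (nhds 0) := by
      have := (tendsto_pow_atTop_nhds_zero_of_lt_one hr0 h).const_mul (2 * (d : ℝ) * t)
      rwa [mul_zero] at this
    obtain ⟨n, hn⟩ := (hlim.eventually (gt_mem_nhds (by norm_num : (0 : ℝ) < 1))).exists
    refine ⟨n + 1, by omega, lt_of_le_of_lt ?_ hn⟩
    have h1 : (cSaw d (n + 1) : ℝ) ≤ 2 * d * (2 * (d : ℝ) - 1) ^ n := by
      have h2 : (cSaw d (n + 1) : ℝ) ≤ ((2 * d * (2 * d - 1) ^ n : ℕ) : ℝ) := by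
        exact_mod_cast cSaw_le n
      refine h2.trans (le_of_eq ?_)
      push_cast [Nat.cast_sub (by omega : 1 ≤ 2 * d)]
      ring
    calc (cSaw d (n + 1) : ℝ) * Real.tanh β ^ (2 * (n + 1))
        ≤ (2 * d * (2 * (d : ℝ) - 1) ^ n) * Real.tanh β ^ (2 * (n + 1)) := by
          apply mul_le_mul_of_nonneg_right h1
          rw [pow_mul]
          positivity
      _ = 2 * (d : ℝ) * t * r ^ n := by
          rw [hr, mul_pow, pow_mul, ← ht]
          ring

/-- exponential decay of the weighted number of self-avoiding walks -/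
theorem saw_decay (β : ℝ) (N : ℕ) (hN : 1 ≤ N)
    (h : (cSaw d N : ℝ) * Real.tanh β ^ (2 * N) < 1) :
    ∃ K q : ℝ, 0 < K ∧ 0 < q ∧ q < 1 ∧ ∀ (m : ℕ) (S : Finset (Site d)) (x : Site d),
      Real.tanh β ^ (2 * m) * (saw m S x : ℝ) ≤ (K * (q ^ m) ^ 2) ^ 2 := by
  set t := Real.tanh β ^ 2 with ht
  have ht0 : 0 ≤ t := sq_nonneg _
  set r := max ((cSaw d N : ℝ) * Real.tanh β ^ (2 * N)) (1 / 2) with hr
  have hr1 : r < 1 := max_lt h (by norm_num)
  have hr2 : 1 / 2 ≤ r := le_max_right _ _
  have hNr : (1 : ℝ) ≤ N := by exact_mod_cast hN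
  set q := 1 - (1 - r) / (4 * N) with hq
  have hq0 : 0 < q := by
    have : (1 - r) / (4 * N) ≤ (1 / 2) / 4 := by
      rw [div_le_div_iff₀ (by positivity) (by norm_num)]
      nlinarith
    rw [hq]
    linarith
  have hq1 : q < 1 := by
    have : 0 < (1 - r) / (4 * N) := div_pos (by linarith) (by positivity)
    rw [hq]
    linarith
  have hqN : r ≤ q ^ (4 * N) := by
    have h1 := one_add_mul_le_pow (show (-2 : ℝ) ≤ -((1 - r) / (4 * N)) by
      have : (1 - r) / (4 * N) ≤ 2 := by
        rw [div_le_iff₀ (by positivity)]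
        nlinarith
      linarith) (4 * N)
    have h2 : (1 : ℝ) + ((4 * N : ℕ) : ℝ) * -((1 - r) / (4 * N)) = r := by
      push_cast
      field_simp
      ring
    rw [h2] at h1
    have h3 : (1 : ℝ) + -((1 - r) / (4 * N)) = q := by rw [hq]; ring
    rw [h3] at h1
    exact h1
  -- the constant
  set K0 : ℝ := ∑ j ∈ Finset.range N, (cSaw d j : ℝ) * t ^ j with hK0
  have hK0n : ∀ j, j < N → (cSaw d j : ℝ) * t ^ j ≤ K0 := by
    intro j hj
    exact Finset.single_le_sum (f := fun j => (cSaw d j : ℝ) * t ^ j)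
      (fun i _ => by positivity) (Finset.mem_range.mpr hj)
  have hK01 : 1 ≤ K0 := by
    have := hK0n 0 (by omega)
    rw [cSaw_zero] at this
    simpa using this
  refine ⟨√K0 / (q ^ N) ^ 2, q, by positivity, hq0, hq1, ?_⟩
  intro m S x
  have h1 : (saw m S x : ℝ) ≤ (cSaw d m : ℝ) := by exact_mod_cast saw_le m S x
  have h2 : m = N * (m / N) + m % N := (Nat.div_add_mod m N).symm
  have hj : m % N < N := Nat.mod_lt _ (by omega)
  have h3 : (cSaw d m : ℝ) ≤ (cSaw d N : ℝ) ^ (m / N) * (cSaw d (m % N) : ℝ) := by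
    have := cSaw_mul (d := d) N (m / N) (m % N)
    rw [← h2] at this
    exact_mod_cast this
  have h4 : Real.tanh β ^ (2 * m) = (Real.tanh β ^ (2 * N)) ^ (m / N) * t ^ (m % N) := by
    rw [ht, ← pow_mul, ← pow_mul, ← pow_add]
    congr 1
    calc 2 * m = 2 * (N * (m / N) + m % N) := by rw [← h2]
      _ = 2 * N * (m / N) + 2 * (m % N) := by ring
  have htm : 0 ≤ Real.tanh β ^ (2 * m) := by rw [pow_mul]; positivity
  calc Real.tanh β ^ (2 * m) * (saw m S x : ℝ)
      ≤ Real.tanh β ^ (2 * m) * ((cSaw d N : ℝ) ^ (m / N) * (cSaw d (m % N) : ℝ)) :=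
        mul_le_mul_of_nonneg_left (h1.trans h3) htm
    _ = ((cSaw d N : ℝ) * Real.tanh β ^ (2 * N)) ^ (m / N) *
          ((cSaw d (m % N) : ℝ) * t ^ (m % N)) := by
        rw [h4, mul_pow]
        ring
    _ ≤ r ^ (m / N) * K0 := by
        apply mul_le_mul
        · apply pow_le_pow_left₀
          · have : 0 ≤ Real.tanh β ^ (2 * N) := by rw [pow_mul]; positivity
            positivity
          · exact le_max_left _ _
        · exact hK0n _ hj
        · positivity
        · positivity
    _ ≤ (q ^ (4 * N)) ^ (m / N) * K0 := by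
        apply mul_le_mul_of_nonneg_right _ (by linarith)
        exact pow_le_pow_left₀ (by linarith) hqN _
    _ ≤ (√K0 / (q ^ N) ^ 2 * (q ^ m) ^ 2) ^ 2 := by
        have h5 : (q ^ (4 * N)) ^ (m / N) * (q ^ (4 * N)) ≤ (q ^ m) ^ 4 := by
          rw [← pow_mul, ← pow_mul, ← pow_add]
          apply pow_le_pow_of_le_one hq0.le hq1.le
          nlinarith
        have h6 : (√K0 / (q ^ N) ^ 2 * (q ^ m) ^ 2) ^ 2 = K0 * (q ^ m) ^ 4 / q ^ (4 * N) := by
          rw [mul_pow, div_pow, Real.sq_sqrt (by linarith)]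
          field_simp
          ring
        rw [h6, le_div_iff₀ (by positivity)]
        nlinarith

end Pool.H981EA
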