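import Pool.Agent.Run7.h981.EA.Fin
import Pool.Agent.Run7.h981.EA.Gen

/-!
# Edwards–Anderson model: the action of a coupling flip on pairs (couplings, state)
-/

set_option autoImplicit false

open MeasureTheory Filter Topology
open scoped ENNReal symmDiff

namespace Pool.H981EA

open Pool.H47EA Pool.H47EA.Basic

variable {d : ℕ}

/-- pairs (couplings, state) -/
abbrev Pair (d : ℕ) : Type := Coupling d × ProbabilityMeasure (Site d → Bool)

/-- the change of `β ∑ J_e σ_x σ_y` when the couplings of the edges in `s` are flipped -/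
noncomputable def hx (β : ℝ) (J : Coupling d) (s : Finset ((lat d).edgeSet))
    (σ : Site d → Bool) : ℝ := -(2 * β) * ∑ e ∈ s, bond J σ e.1

theorem hx_meas (β : ℝ) (J : Coupling d) (s : Finset ((lat d).edgeSet)) :
    Measurable (hx β J s) :=
  (Finset.measurable_sum _ fun e _ => meas_bond J e.1).const_mul _

theorem bond_abs (J : Coupling d) (σ : Site d → Bool) (e : Sym2 (Site d)) :
    |bond J σ e| ≤ 1 := by
  induction e using Sym2.ind with
  | _ x y =>
    rw [bond_mk, abs_mul, abs_mul]
    have h1 := InfAux.abs_Jc_le J x y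
    have h2 := sg_abs (σ x)
    have h3 := sg_abs (σ y)
    calc |Jc J x y| * |sg (σ x)| * |sg (σ y)| ≤ 1 * 1 * 1 :=
          mul_le_mul (mul_le_mul h1 h2 (abs_nonneg _) zero_le_one) h3 (abs_nonneg _) (by norm_num)
      _ = 1 := by norm_num

theorem hx_abs (β : ℝ) (J : Coupling d) (s : Finset ((lat d).edgeSet)) (σ : Site d → Bool) :
    |hx β J s σ| ≤ |2 * β| * s.card := by
  unfold hx
  rw [abs_mul, abs_neg]
  apply mul_le_mul_of_nonneg_left _ (abs_nonneg _)
  refine (Finset.abs_sum_le_sum_abs _ _).trans ?_
  calc ∑ e ∈ s, |bond J σ e.1| ≤ ∑ _e ∈ s, (1 : ℝ) := Finset.sum_le_sum fun e _ => bond_abs J σ e.1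
    _ = s.card := by simp

theorem hx_int (β : ℝ) (J : Coupling d) (s : Finset ((lat d).edgeSet))
    (Γ : Measure (Site d → Bool)) [IsProbabilityMeasure Γ] :
    Integrable (fun σ => Real.exp (hx β J s σ)) Γ := by
  refine Integrable.of_bound (Real.measurable_exp.comp (hx_meas β J s)).aestronglyMeasurable
    (Real.exp (|2 * β| * s.card)) (ae_of_all _ fun σ => ?_)
  rw [Real.norm_eq_abs, Real.abs_exp]
  exact Real.exp_le_exp.mpr ((le_abs_self _).trans (hx_abs β J s σ))

theorem exp_hx_pos (β : ℝ) (J : Coupling d) (s : Finset ((lat d).edgeSet))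
    (Γ : Measure (Site d → Bool)) [IsProbabilityMeasure Γ] :
    0 < ∫ σ, Real.exp (hx β J s σ) ∂Γ :=
  integral_exp_pos (hx_int β J s Γ)

/-- the change of the state -/
noncomputable def tl (β : ℝ) (J : Coupling d) (s : Finset ((lat d).edgeSet))
    (Γ : ProbabilityMeasure (Site d → Bool)) : ProbabilityMeasure (Site d → Bool) :=
  ⟨(Γ : Measure (Site d → Bool)).tilted (hx β J s),
    isProbabilityMeasure_tilted (hx_int β J s _)⟩

/-- the simultaneous flip of the couplings in `s`, acting on pairs (couplings, state) -/
noncomputable def TT (β : ℝ) (s : Finset ((lat d).edgeSet)) (q : Pair d) : Pair d :=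
  (flipS s q.1, tl β q.1 s q.2)

theorem flipS_symmDiff (s s' : Finset ((lat d).edgeSet)) (J : Coupling d) :
    flipS s (flipS s' J) = flipS (s ∆ s') J := by
  funext e
  unfold flipS
  simp only [Finset.mem_symmDiff]
  by_cases h : e ∈ s <;> by_cases h' : e ∈ s' <;> simp [h, h']

theorem bond_flipS (s : Finset ((lat d).edgeSet)) (J : Coupling d) (σ : Site d → Bool)
    (e : (lat d).edgeSet) :
    bond (flipS s J) σ e.1 = if e ∈ s then - bond J σ e.1 else bond J σ e.1 := by
  obtain ⟨e0, he⟩ := e
  induction e0 using Sym2.ind with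
  | _ x y =>
    have hxy : dist1 x y = 1 := he
    show bond (flipS s J) σ s(x, y) = if (ed x y hxy) ∈ s then - bond J σ s(x, y) else
      bond J σ s(x, y)
    rw [bond_mk, bond_mk]
    by_cases h : ed x y hxy ∈ s
    · rw [if_pos h, Jc_flipS_mem J x y hxy h]
      ring
    · rw [if_neg h, Jc_flipS_not_mem J x y hxy h]

theorem hx_symmDiff (β : ℝ) (J : Coupling d) (s s' : Finset ((lat d).edgeSet))
    (σ : Site d → Bool) :
    hx β J s' σ + hx β (flipS s' J) s σ = hx β J (s ∆ s') σ := by
  unfold hx
  rw [← mul_add]
  congr 1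
  have h1 : ∀ Y : Finset ((lat d).edgeSet), Y ⊆ s ∪ s' → ∀ c : (lat d).edgeSet → ℝ,
      ∑ e ∈ Y, c e = ∑ e ∈ s ∪ s', if e ∈ Y then c e else 0 := by
    intro Y hY c
    rw [Finset.sum_ite_mem, Finset.inter_eq_right.mpr hY]
  rw [h1 s' Finset.subset_union_right, h1 s Finset.subset_union_left,
    h1 (s ∆ s') (by
      intro e he
      rw [Finset.mem_symmDiff] at he
      rw [Finset.mem_union]
      tauto), ← Finset.sum_add_distrib]
  apply Finset.sum_congr rfl
  intro e _
  rw [bond_flipS]
  simp only [Finset.mem_symmDiff]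
  by_cases h : e ∈ s <;> by_cases h' : e ∈ s' <;> simp [h, h']

theorem TT_symmDiff (β : ℝ) (s s' : Finset ((lat d).edgeSet)) (q : Pair d) :
    TT β s (TT β s' q) = TT β (s ∆ s') q := by
  unfold TT
  apply Prod.ext
  · exact flipS_symmDiff s s' q.1
  · apply Subtype.ext
    show ((q.2 : Measure (Site d → Bool)).tilted (hx β q.1 s')).tilted
      (hx β (flipS s' q.1) s) = (q.2 : Measure (Site d → Bool)).tilted (hx β q.1 (s ∆ s'))
    rw [tilted_tilted (hx_int β q.1 s' _)]
    congr 1
    funext σ
    exact hx_symmDiff β q.1 s s' σ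

theorem TT_empty (β : ℝ) (q : Pair d) : TT β ∅ q = q := by
  unfold TT
  apply Prod.ext
  · exact flipS_empty q.1
  · apply Subtype.ext
    show (q.2 : Measure (Site d → Bool)).tilted (hx β q.1 ∅) = _
    have : hx β q.1 ∅ = 0 := by
      funext σ
      simp [hx]
    rw [this, tilted_zero]
    rfl

/-! ### measurability -/

theorem tl_fixed_meas (β : ℝ) (J : Coupling d) (s : Finset ((lat d).edgeSet)) :
    Measurable (tl β J s) := by
  apply Measurable.subtype_mk
  apply Measure.measurable_of_measurable_coe
  intro B hB
  have hm : Measurable (fun σ => ENNReal.ofReal (Real.exp (hx β J s σ))) :=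
    (Real.measurable_exp.comp (hx_meas β J s)).ennreal_ofReal
  have h1 : ∀ Γ : ProbabilityMeasure (Site d → Bool),
      ((Γ : Measure (Site d → Bool)).tilted (hx β J s)) B =
        (∫⁻ σ, B.indicator (fun σ => ENNReal.ofReal (Real.exp (hx β J s σ))) σ
          ∂(Γ : Measure (Site d → Bool))) *
        (∫⁻ σ, ENNReal.ofReal (Real.exp (hx β J s σ)) ∂(Γ : Measure (Site d → Bool)))⁻¹ := by
    intro Γ
    rw [tilted_apply' _ _ hB]
    have h2 : ∀ σ, ENNReal.ofReal (Real.exp (hx β J s σ) /
        ∫ σ, Real.exp (hx β J s σ) ∂(Γ : Measure (Site d → Bool))) =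
        ENNReal.ofReal (Real.exp (hx β J s σ)) *
        (∫⁻ σ, ENNReal.ofReal (Real.exp (hx β J s σ)) ∂(Γ : Measure (Site d → Bool)))⁻¹ := by
      intro σ
      rw [ENNReal.ofReal_div_of_pos (exp_hx_pos β J s _),
        ofReal_integral_eq_lintegral_ofReal (hx_int β J s _)
          (ae_of_all _ fun σ => (Real.exp_pos _).le), div_eq_mul_inv]
    simp only [h2]
    rw [lintegral_mul_const _ hm, lintegral_indicator hB]
  show Measurable (fun Γ : ProbabilityMeasure (Site d → Bool) =>
    ((Γ : Measure (Site d → Bool)).tilted (hx β J s)) B)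
  simp only [h1]
  apply Measurable.mul
  · exact (Measure.measurable_lintegral (hm.indicator hB)).comp measurable_subtype_coe
  · exact ((Measure.measurable_lintegral hm).comp measurable_subtype_coe).inv

theorem TT_meas (β : ℝ) (s : Finset ((lat d).edgeSet)) : Measurable (TT β s : Pair d → Pair d) := by
  classical
  apply Measurable.prodMk ((measurable_flipS s).comp measurable_fst)
  -- finitely many patterns
  let ext : (s → Bool) → Coupling d := fun c e => if h : e ∈ s then c ⟨e, h⟩ else true
  let R : Pair d → (s → Bool) × ProbabilityMeasure (Site d → Bool) :=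
    fun q => (fun e => q.1 e.1, q.2)
  have hR : Measurable R :=
    (measurable_pi_lambda _ fun e => (measurable_pi_apply e.1).comp measurable_fst).prodMk
      measurable_snd
  let Φ : (s → Bool) × ProbabilityMeasure (Site d → Bool) → ProbabilityMeasure (Site d → Bool) :=
    fun q => tl β (ext q.1) s q.2
  have hΦ : Measurable Φ := by
    apply measurable_from_prod_countable_right
    intro c
    exact tl_fixed_meas β (ext c) s
  have he : (fun q : Pair d => tl β q.1 s q.2) = Φ ∘ R := by
    funext q
    show tl β q.1 s q.2 = tl β (ext fun e => q.1 e.1) s q.2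
    have h1 : hx β q.1 s = hx β (ext fun e => q.1 e.1) s := by
      funext σ
      unfold hx
      congr 1
      apply Finset.sum_congr rfl
      intro e he
      obtain ⟨e0, he0⟩ := e
      induction e0 using Sym2.ind with
      | _ x y =>
        have hxy : dist1 x y = 1 := he0
        show bond q.1 σ s(x, y) = bond _ σ s(x, y)
        rw [bond_mk, bond_mk, Jc_ed _ x y hxy, Jc_ed _ x y hxy]
        have h2 : (ext fun e => q.1 e.1) (ed x y hxy) = q.1 (ed x y hxy) := by
          show (if h : ed x y hxy ∈ s then q.1 (ed x y hxy) else true) = _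
          have he2 : ed x y hxy ∈ s := he
          rw [dif_pos he2]
        rw [h2]
    apply Subtype.ext
    show (q.2 : Measure (Site d → Bool)).tilted (hx β q.1 s) =
      (q.2 : Measure (Site d → Bool)).tilted (hx β _ s)
    rw [h1]
  show Measurable (fun q : Pair d => tl β q.1 s q.2)
  rw [he]
  exact hΦ.comp hR

/-- **Coupling-covariant metastates** (Aizenman–Wehr, Newman–Stein): joint laws of couplings and
a Gibbs state for these couplings, invariant under the flip of any single coupling together with
the corresponding change of the state. -/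
structure IsMetastate (β : ℝ) (κ : Measure (Pair d)) : Prop where
  /-- the couplings are independent fair signs -/
  marginal : κ.map Prod.fst = couplingLaw d
  /-- the state is a Gibbs state for the couplings -/
  gibbs : ∀ᵐ q ∂κ, IsGibbs β q.1 (q.2 : Measure (Site d → Bool))
  /-- covariance -/
  covariant : ∀ e : (lat d).edgeSet, κ.map (TT β {e}) = κ

theorem IsMetastate.prob {β : ℝ} {κ : Measure (Pair d)} (h : IsMetastate β κ) :
    IsProbabilityMeasure κ := by
  constructor
  have h1 : (κ.map Prod.fst) Set.univ = 1 := by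
    rw [h.marginal]
    exact measure_univ
  rwa [Measure.map_apply measurable_fst MeasurableSet.univ, Set.preimage_univ] at h1

theorem IsMetastate.mp {β : ℝ} {κ : Measure (Pair d)} (h : IsMetastate β κ)
    (s : Finset ((lat d).edgeSet)) : MeasurePreserving (TT β s) κ κ := by
  induction s using Finset.induction_on with
  | empty =>
    have : (TT β ∅ : Pair d → Pair d) = id := funext fun q => TT_empty β q
    rw [this]
    exact MeasurePreserving.id κ
  | insert e s he ih =>
    have h1 : (TT β (insert e s) : Pair d → Pair d) = TT β {e} ∘ TT β s := by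
      funext q
      show _ = TT β {e} (TT β s q)
      rw [TT_symmDiff]
      congr 1
      ext x
      simp only [Finset.mem_insert, Finset.mem_symmDiff, Finset.mem_singleton]
      constructor
      · rintro (h | h)
        · left
          exact ⟨h, by rw [h]; exact he⟩
        · right
          exact ⟨h, by rintro rfl; exact he h⟩
      · rintro (h | h)
        · exact Or.inl h.1
        · exact Or.inr h.1
    rw [h1]
    exact MeasurePreserving.comp ⟨TT_meas β {e}, h.covariant e⟩ ih

end Pool.H981EA
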